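import Mathlib

/-!
Riemannian metrics, curvature tensor, sectional curvature, curvature operator.
-/

set_option autoImplicit false
set_option maxSynthPendingDepth 3

open scoped Manifold ContDiff

namespace Pool.Agent.Lib_helper77

section Coordinates

variable {E : Type} [NormedAddCommGroup E] [NormedSpace ℝ E]

/-- Christoffel symbols of the first kind of a metric `G` in coordinates:
`[uv, w] = (∂_u G(v,w) + ∂_v G(u,w) - ∂_w G(u,v)) / 2` at the point `x`. -/
noncomputable def christoffelFirst (G : E → E → E → ℝ) (x u v w : E) : ℝ :=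
  (fderiv ℝ (fun y => G y v w) x u + fderiv ℝ (fun y => G y u w) x v
    - fderiv ℝ (fun y => G y u v) x w) / 2

/-- Christoffel symbols of the second kind: the vector `Γ(u,v)` such that
`G_x(Γ(u,v), w) = [uv, w]` for all `w` (it is unique when `G_x` is an inner product). -/
noncomputable def christoffel (G : E → E → E → ℝ) (x u v : E) : E :=
  Classical.epsilon fun y => ∀ w, G x y w = christoffelFirst G x u v w

/-- The second derivative `∂_a ∂_b (G(c, e))` at the point `x`. -/
noncomputable def secondDeriv (G : E → E → E → ℝ) (x a b c e : E) : ℝ :=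
  fderiv ℝ (fun y => fderiv ℝ (fun y' => G y' c e) y b) x a

/-- The covariant Riemann curvature tensor of a metric `G` in coordinates, at the point `x`:
`R(u,v,w,z) = (∂_v∂_w G(u,z) + ∂_u∂_z G(v,w) - ∂_v∂_z G(u,w) - ∂_u∂_w G(v,z)) / 2
  + G(Γ(v,w), Γ(u,z)) - G(Γ(v,z), Γ(u,w))`. With this convention `R(u,v,u,v)` is positive on round
spheres. -/
noncomputable def curvCoord (G : E → E → E → ℝ) (x u v w z : E) : ℝ :=
  (secondDeriv G x v w u z + secondDeriv G x u z v w - secondDeriv G x v z u w
    - secondDeriv G x u w v z) / 2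
  + G x (christoffel G x v w) (christoffel G x u z)
  - G x (christoffel G x v z) (christoffel G x u w)

end Coordinates

section Manifold

/-- Smooth Riemannian metrics on the manifold `M` modelled on `E` (Mathlib's notion, for the tangent
bundle). -/
abbrev RMetric (E : Type) [NormedAddCommGroup E] [NormedSpace ℝ E] (M : Type) [TopologicalSpace M]
    [ChartedSpace E M] [IsManifold 𝓘(ℝ, E) ∞ M] : Type :=
  Bundle.ContMDiffRiemannianMetric 𝓘(ℝ, E) ∞ E (fun x : M => TangentSpace 𝓘(ℝ, E) x)

variable {E : Type} [NormedAddCommGroup E] [NormedSpace ℝ E]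
  {M : Type} [TopologicalSpace M] [ChartedSpace E M] [IsManifold 𝓘(ℝ, E) ∞ M]

/-- The metric `g` in the preferred chart `φ` at `p`, i.e. the pull-back of `g` under the inverse
chart: `(x, u, v) ↦ g(dφ⁻¹_x u, dφ⁻¹_x v)`. -/
noncomputable def coordMetric (g : RMetric E M) (p : M) (x u v : E) : ℝ :=
  g.inner ((extChartAt 𝓘(ℝ, E) p).symm x)
    (mfderiv 𝓘(ℝ, E) 𝓘(ℝ, E) (extChartAt 𝓘(ℝ, E) p).symm x u)
    (mfderiv 𝓘(ℝ, E) 𝓘(ℝ, E) (extChartAt 𝓘(ℝ, E) p).symm x v)

/-- The covariant Riemann curvature tensor of `g` at `p`, computed in the preferred chart at `p`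
(whose derivative at `p` is, by Mathlib's conventions, the identification `T_p M = E`). -/
noncomputable def riemann (g : RMetric E M) (p : M) (u v w z : TangentSpace 𝓘(ℝ, E) p) : ℝ :=
  curvCoord (coordMetric g p) (extChartAt 𝓘(ℝ, E) p p) u v w z

/-- The sectional curvature of the plane spanned by `u` and `v`. -/
noncomputable def sectional (g : RMetric E M) (p : M) (u v : TangentSpace 𝓘(ℝ, E) p) : ℝ :=
  riemann g p u v u v / (g.inner p u u * g.inner p v v - g.inner p u v ^ 2)

/-- Pointwise `δ`-pinching: all sectional curvatures are positive, and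
`δ * K(σ') ≤ K(σ)` for all tangent planes `σ, σ'` at the same point. -/
def Pinched (g : RMetric E M) (δ : ℝ) : Prop :=
  ∀ p : M,
    (∀ u v : TangentSpace 𝓘(ℝ, E) p, LinearIndependent ℝ ![u, v] → 0 < sectional g p u v) ∧
    ∀ u v u' v' : TangentSpace 𝓘(ℝ, E) p, LinearIndependent ℝ ![u, v] →
      LinearIndependent ℝ ![u', v'] → δ * sectional g p u' v' ≤ sectional g p u v

/-- Positivity of the curvature operator: `R^*(ω, ω) > 0` for all points `p` and all nonzero
`ω` in the second exterior power of `T_p M`. Here `ω` is written as a finite sum of decomposable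
2-vectors `u_a ∧ v_a`, so that `R^*(ω, ω) = ∑_{a,b} R(u_a, v_a, u_b, v_b)`. -/
def PositiveCurvOp (g : RMetric E M) : Prop :=
  ∀ (p : M) (n : ℕ) (u v : Fin n → TangentSpace 𝓘(ℝ, E) p),
    ∑ a, exteriorPower.ιMulti ℝ 2 ![u a, v a] ≠ 0 →
      0 < ∑ a, ∑ b, riemann g p (u a) (v a) (u b) (v b)

end Manifold

/-- The set of all `δ ∈ (0, 1]` such that every pointwise `δ`-pinched Riemannian `d`-manifold has
positive curvature operator. -/
def pinchSet (d : ℕ) : Set ℝ :=
  {δ : ℝ | 0 < δ ∧ δ ≤ 1 ∧ ∀ (M : Type) [TopologicalSpace M] [T2Space M]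
    [SecondCountableTopology M] [ChartedSpace (EuclideanSpace ℝ (Fin d)) M]
    [IsManifold (𝓡 d) ∞ M] (g : RMetric (EuclideanSpace ℝ (Fin d)) M),
    Pinched g δ → PositiveCurvOp g}

end Pool.Agent.Lib_helper77
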