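import Mathlib

/-!
Algebraic curvature tensors: polarisation, Berger's bound, normal form of 2-vectors.
-/

set_option autoImplicit false

namespace Pool.Agent.Lib_helper77

/-- Algebraic curvature tensors. -/
structure AlgCurv {V : Type*} [AddCommGroup V] [Module ℝ V] (R : V → V → V → V → ℝ) : Prop where
  add1 : ∀ u u' v w z, R (u + u') v w z = R u v w z + R u' v w z
  smul1 : ∀ (c : ℝ) u v w z, R (c • u) v w z = c * R u v w z
  anti : ∀ u v w z, R v u w z = - R u v w z
  pair : ∀ u v w z, R w z u v = R u v w z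
  bianchi : ∀ u v w z, R u v w z + R u w z v + R u z v w = 0

namespace AlgCurv

variable {V : Type*} [AddCommGroup V] [Module ℝ V] {R : V → V → V → V → ℝ} (h : AlgCurv R)
include h

theorem anti2 (u v w z : V) : R u v z w = - R u v w z := by
  rw [← h.pair, h.anti, h.pair]

theorem add2 (u v v' w z : V) : R u (v + v') w z = R u v w z + R u v' w z := by
  rw [h.anti (v + v') u, h.add1, h.anti v u, h.anti v' u]; ring

theorem add3 (u v w w' z : V) : R u v (w + w') z = R u v w z + R u v w' z := by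
  rw [← h.pair, h.add1, h.pair, h.pair u v w' z]

theorem add4 (u v w z z' : V) : R u v w (z + z') = R u v w z + R u v w z' := by
  rw [← h.pair, h.add2, h.pair, h.pair u v w z']

theorem smul2 (c : ℝ) (u v w z : V) : R u (c • v) w z = c * R u v w z := by
  rw [h.anti (c • v) u, h.smul1, h.anti v u]; ring

theorem smul3 (c : ℝ) (u v w z : V) : R u v (c • w) z = c * R u v w z := by
  rw [← h.pair, h.smul1, h.pair]

theorem smul4 (c : ℝ) (u v w z : V) : R u v w (c • z) = c * R u v w z := by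
  rw [← h.pair, h.smul2, h.pair]

theorem neg2 (u v w z : V) : R u (-v) w z = - R u v w z := by
  rw [← neg_one_smul ℝ v, h.smul2]; ring

theorem neg1 (u v w z : V) : R (-u) v w z = - R u v w z := by
  rw [← neg_one_smul ℝ u, h.smul1]; ring

theorem neg3 (u v w z : V) : R u v (-w) z = - R u v w z := by
  rw [← neg_one_smul ℝ w, h.smul3]; ring

theorem neg4 (u v w z : V) : R u v w (-z) = - R u v w z := by
  rw [← neg_one_smul ℝ z, h.smul4]; ring

theorem polar (x y z w : V) : 24 * R x y z w =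
    (R (x + z) (y + w) (x + z) (y + w) - R (x + z) (y + -w) (x + z) (y + -w)
      - R (x + -z) (y + w) (x + -z) (y + w) + R (x + -z) (y + -w) (x + -z) (y + -w))
    - (R (x + w) (y + z) (x + w) (y + z) - R (x + w) (y + -z) (x + w) (y + -z)
      - R (x + -w) (y + z) (x + -w) (y + z) + R (x + -w) (y + -z) (x + -w) (y + -z)) := by
  simp only [h.add1, h.add2, h.add3, h.add4, h.neg1, h.neg2, h.neg3, h.neg4]
  have e1 := h.pair x y z w
  have e2 := h.pair x w z y
  have e3 := h.pair x y w z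
  have e4 := h.pair x z w y
  have e5 := h.anti2 x y w z
  have e6 := h.anti2 x w y z
  have e7 := h.bianchi x y z w
  linear_combination (-4) * e1 - 4 * e2 + 4 * e3 + 4 * e4 + 8 * e5 - 8 * e6 + 8 * e7

end AlgCurv

section Inner

variable {V : Type*} [NormedAddCommGroup V] [InnerProductSpace ℝ V] {R : V → V → V → V → ℝ}

theorem berger (h : AlgCurv R) {m M : ℝ}
    (hK : ∀ u v : V, inner ℝ u v = 0 → m * (‖u‖ ^ 2 * ‖v‖ ^ 2) ≤ R u v u v ∧
      R u v u v ≤ M * (‖u‖ ^ 2 * ‖v‖ ^ 2))
    {x y z w : V} (hx : ‖x‖ = 1) (hy : ‖y‖ = 1) (hz : ‖z‖ = 1) (hw : ‖w‖ = 1)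
    (hxy : inner ℝ x y = 0) (hxz : inner ℝ x z = 0) (hxw : inner ℝ x w = 0)
    (hyz : inner ℝ y z = 0) (hyw : inner ℝ y w = 0) (hzw : inner ℝ z w = 0) :
    |R x y z w| ≤ 2 / 3 * (M - m) := by
  have hyx : inner ℝ y x = 0 := by rw [real_inner_comm]; exact hxy
  have hzx : inner ℝ z x = 0 := by rw [real_inner_comm]; exact hxz
  have hwx : inner ℝ w x = 0 := by rw [real_inner_comm]; exact hxw
  have hzy : inner ℝ z y = 0 := by rw [real_inner_comm]; exact hyz
  have hwy : inner ℝ w y = 0 := by rw [real_inner_comm]; exact hyw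
  have hwz : inner ℝ w z = 0 := by rw [real_inner_comm]; exact hzw
  have np : ∀ a b : V, ‖a‖ = 1 → ‖b‖ = 1 → inner ℝ a b = 0 → ‖a + b‖ ^ 2 = 2 := by
    intro a b ha hb hab
    rw [norm_add_sq_real, ha, hb, hab]; norm_num
  have nm : ∀ a b : V, ‖a‖ = 1 → ‖b‖ = 1 → inner ℝ a b = 0 → ‖a + -b‖ ^ 2 = 2 := by
    intro a b ha hb hab
    rw [← sub_eq_add_neg, norm_sub_sq_real, ha, hb, hab]; norm_num
  have hp := h.polar x y z w
  have k1 := hK (x + z) (y + w) (by simp [inner_add_left, inner_add_right, *])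
  have k2 := hK (x + z) (y + -w) (by simp [inner_add_left, inner_add_right, *])
  have k3 := hK (x + -z) (y + w) (by simp [inner_add_left, inner_add_right, *])
  have k4 := hK (x + -z) (y + -w) (by simp [inner_add_left, inner_add_right, *])
  have k5 := hK (x + w) (y + z) (by simp [inner_add_left, inner_add_right, *])
  have k6 := hK (x + w) (y + -z) (by simp [inner_add_left, inner_add_right, *])
  have k7 := hK (x + -w) (y + z) (by simp [inner_add_left, inner_add_right, *])
  have k8 := hK (x + -w) (y + -z) (by simp [inner_add_left, inner_add_right, *])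
  rw [np x z hx hz hxz, np y w hy hw hyw] at k1
  rw [np x z hx hz hxz, nm y w hy hw hyw] at k2
  rw [nm x z hx hz hxz, np y w hy hw hyw] at k3
  rw [nm x z hx hz hxz, nm y w hy hw hyw] at k4
  rw [np x w hx hw hxw, np y z hy hz hyz] at k5
  rw [np x w hx hw hxw, nm y z hy hz hyz] at k6
  rw [nm x w hx hw hxw, np y z hy hz hyz] at k7
  rw [nm x w hx hw hxw, nm y z hy hz hyz] at k8
  rw [abs_le]
  constructor <;> linarith [k1.1, k1.2, k2.1, k2.2, k3.1, k3.2, k4.1, k4.2, k5.1, k5.2, k6.1, k6.2,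
    k7.1, k7.2, k8.1, k8.2]

theorem quad_pos (h : AlgCurv R) {m M : ℝ}
    (hK : ∀ u v : V, inner ℝ u v = 0 → m * (‖u‖ ^ 2 * ‖v‖ ^ 2) ≤ R u v u v ∧
      R u v u v ≤ M * (‖u‖ ^ 2 * ‖v‖ ^ 2)) (hMm : m ≤ M)
    {ι : Type} [Fintype ι] (e f : ι → V) (ho : Orthonormal ℝ (Sum.elim e f)) (w : ι → ℝ)
    (hw : w ≠ 0) (hm : 2 / 3 * (M - m) * ((Fintype.card ι : ℝ) - 1) < m) :
    0 < ∑ i, ∑ j, w i * w j * R (e i) (f i) (e j) (f j) := by
  classical
  set c := 2 / 3 * (M - m) with hc
  have hc0 : 0 ≤ c := by rw [hc]; nlinarith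
  have ne : ∀ i, ‖e i‖ = 1 := fun i => ho.1 (Sum.inl i)
  have nf : ∀ i, ‖f i‖ = 1 := fun i => ho.1 (Sum.inr i)
  have oee : ∀ i j, i ≠ j → inner ℝ (e i) (e j) = 0 := fun i j hij =>
    ho.2 (i := Sum.inl i) (j := Sum.inl j) (by simpa using hij)
  have off : ∀ i j, i ≠ j → inner ℝ (f i) (f j) = 0 := fun i j hij =>
    ho.2 (i := Sum.inr i) (j := Sum.inr j) (by simpa using hij)
  have oef : ∀ i j, inner ℝ (e i) (f j) = 0 := fun i j =>
    ho.2 (i := Sum.inl i) (j := Sum.inr j) (by simp)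
  have ofe : ∀ i j, inner ℝ (f i) (e j) = 0 := fun i j => by
    rw [real_inner_comm]; exact oef j i
  have key : ∀ i j, (if i = j then (m + c) * |w i| ^ 2 else 0) - c * (|w i| * |w j|)
      ≤ w i * w j * R (e i) (f i) (e j) (f j) := by
    intro i j
    by_cases hij : i = j
    · subst hij
      rw [if_pos rfl]
      have k := (hK (e i) (f i) (oef i i)).1
      rw [ne, nf] at k
      have : w i * w i = |w i| ^ 2 := by rw [sq_abs]; ring
      rw [this]
      nlinarith [sq_nonneg |w i|]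
    · rw [if_neg hij]
      have b := berger h hK (ne i) (nf i) (ne j) (nf j) (oef i i) (oee i j hij) (oef i j)
        (ofe i j) (off i j hij) (oef j j)
      have h1 : |w i * w j * R (e i) (f i) (e j) (f j)| ≤ c * (|w i| * |w j|) := by
        rw [abs_mul, abs_mul, mul_comm]
        exact mul_le_mul_of_nonneg_right b (by positivity)
      linarith [(abs_le.mp h1).1]
  have hsum : ∑ i, ∑ j, ((if i = j then (m + c) * |w i| ^ 2 else 0) - c * (|w i| * |w j|))
      ≤ ∑ i, ∑ j, w i * w j * R (e i) (f i) (e j) (f j) :=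
    Finset.sum_le_sum fun i _ => Finset.sum_le_sum fun j _ => key i j
  refine lt_of_lt_of_le ?_ hsum
  have e1 : ∑ i, ∑ j, ((if i = j then (m + c) * |w i| ^ 2 else 0) - c * (|w i| * |w j|))
      = (m + c) * ∑ i, |w i| ^ 2 - c * (∑ i, |w i|) ^ 2 := by
    simp only [Finset.sum_sub_distrib, Finset.sum_ite_eq, Finset.mem_univ, if_true]
    rw [← Finset.mul_sum, sq, Finset.sum_mul_sum]
    simp only [Finset.mul_sum]
  rw [e1]
  have h2 : (∑ i, |w i|) ^ 2 ≤ (Fintype.card ι : ℝ) * ∑ i, |w i| ^ 2 := by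
    have := sq_sum_le_card_mul_sum_sq (s := Finset.univ) (f := fun i => |w i|)
    simpa using this
  have h3 : 0 < ∑ i, |w i| ^ 2 := by
    obtain ⟨i, hi⟩ := Function.ne_iff.mp hw
    have h4 : 0 < |w i| ^ 2 := by
      have : 0 < |w i| := abs_pos.mpr hi
      positivity
    exact lt_of_lt_of_le h4 (Finset.single_le_sum (f := fun i => |w i| ^ 2)
      (fun i _ => by positivity) (Finset.mem_univ i))
  nlinarith

end Inner

end Pool.Agent.Lib_helper77
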