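import Mathlib

/-!
Normal form of skew-adjoint operators on a finite-dimensional real inner product space.
-/

set_option autoImplicit false

namespace Pool.Agent.Lib_helper77

/-- Statement of the normal form. -/
def NF {V : Type} [NormedAddCommGroup V] [InnerProductSpace ℝ V] (T : V →ₗ[ℝ] V) : Prop :=
  ∃ (ι : Type) (_ : Fintype ι) (e f : ι → V) (w : ι → ℝ), Orthonormal ℝ (Sum.elim e f) ∧
    ∀ x, T x = ∑ i, w i • (inner ℝ (f i) x • e i - inner ℝ (e i) x • f i)

theorem skew_step {V : Type} [NormedAddCommGroup V] [InnerProductSpace ℝ V]
    [FiniteDimensional ℝ V] (T : V →ₗ[ℝ] V) (hT : ∀ x y, inner ℝ (T x) y = - inner ℝ x (T y))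
    (h0 : T ≠ 0) : ∃ (e f : V) (w : ℝ), ‖e‖ = 1 ∧ ‖f‖ = 1 ∧ inner ℝ e f = 0 ∧
      T e = - (w • f) ∧ T f = w • e := by
  classical
  set S : V →ₗ[ℝ] V := - (T ∘ₗ T) with hS
  have hSx : ∀ x, S x = - T (T x) := fun x => rfl
  have hSsym : S.IsSymmetric := by
    intro x y
    rw [hSx, hSx, inner_neg_left, inner_neg_right, hT, hT]
    ring
  set n := Module.finrank ℝ V with hn
  set b := hSsym.eigenvectorBasis hn.symm with hb
  have hex : ∃ i, hSsym.eigenvalues hn.symm i ≠ 0 := by
    by_contra hcon
    push Not at hcon
    apply h0
    have hS0 : ∀ x, S x = 0 := by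
      intro x
      rw [← b.sum_repr x, map_sum]
      apply Finset.sum_eq_zero
      intro i _
      rw [map_smul, hb, hSsym.apply_eigenvectorBasis, hcon i]
      simp
    ext x
    have : inner ℝ (T x) (T x) = 0 := by
      rw [hT]
      have := hS0 x
      rw [hSx, neg_eq_zero] at this
      rw [this, inner_zero_right, neg_zero]
    simpa using inner_self_eq_zero.mp this
  obtain ⟨i, hi⟩ := hex
  set lam := hSsym.eigenvalues hn.symm i with hlam
  have heig : S (b i) = lam • b i := by
    exact hSsym.apply_eigenvectorBasis hn.symm i
  have hbi : ‖b i‖ = 1 := b.orthonormal.1 i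
  have hlampos : 0 < lam := by
    have h1 : inner ℝ (S (b i)) (b i) = lam := by
      rw [heig, inner_smul_left, real_inner_self_eq_norm_sq, hbi]; simp
    have h2 : inner ℝ (S (b i)) (b i) = ‖T (b i)‖ ^ 2 := by
      rw [hSx, inner_neg_left, hT, neg_neg, real_inner_self_eq_norm_sq]
    have h3 : 0 ≤ lam := by rw [← h1, h2]; positivity
    exact lt_of_le_of_ne h3 (Ne.symm hi)
  set w := Real.sqrt lam with hw
  have hw0 : 0 < w := Real.sqrt_pos.mpr hlampos
  have hww : w * w = lam := Real.mul_self_sqrt hlampos.le
  have hTT : T (T (b i)) = - (lam • b i) := by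
    have := heig
    rw [hSx] at this
    rw [← this, neg_neg]
  refine ⟨b i, -(w⁻¹ • T (b i)), w, hbi, ?_, ?_, ?_, ?_⟩
  · have h1 : inner ℝ (T (b i)) (T (b i)) = lam := by
      rw [hT, hTT, inner_neg_right, inner_smul_right, real_inner_self_eq_norm_sq, hbi]; ring
    rw [norm_neg, norm_smul, norm_inv, Real.norm_eq_abs, abs_of_pos hw0]
    have h2 : ‖T (b i)‖ = w := by
      rw [hw, ← h1, real_inner_self_eq_norm_sq, Real.sqrt_sq (norm_nonneg _)]
    rw [h2, inv_mul_cancel₀ hw0.ne']
  · have h1 : inner ℝ (b i) (T (b i)) = 0 := by
      have := hT (b i) (b i)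
      rw [real_inner_comm] at this
      linarith
    rw [inner_neg_right, inner_smul_right, h1]; simp
  · rw [smul_neg, neg_neg, smul_smul, mul_inv_cancel₀ hw0.ne', one_smul]
  · rw [map_neg, map_smul, hTT, smul_neg, neg_neg, smul_smul, ← hww, ← mul_assoc,
      inv_mul_cancel₀ hw0.ne', one_mul]

theorem skew_nf_aux : ∀ (n : ℕ) (V : Type) [NormedAddCommGroup V] [InnerProductSpace ℝ V]
    [FiniteDimensional ℝ V], Module.finrank ℝ V < n → ∀ (T : V →ₗ[ℝ] V),
    (∀ x y, inner ℝ (T x) y = - inner ℝ x (T y)) → NF T := by
  intro n
  induction n with
  | zero => intro V _ _ _ h; omega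
  | succ n ih =>
    intro V _ _ _ hV T hT
    classical
    by_cases h0 : T = 0
    · refine ⟨Empty, inferInstance, Empty.elim, Empty.elim, Empty.elim, ?_, ?_⟩
      · constructor
        · rintro (i | i) <;> exact i.elim
        · rintro (i | i) <;> exact i.elim
      · intro x; simp [h0]
    · obtain ⟨e, f, w, he, hf, hef, hTe, hTf⟩ := skew_step T hT h0
      have hfe : inner ℝ f e = 0 := by rw [real_inner_comm]; exact hef
      have hee : inner ℝ e e = 1 := by rw [real_inner_self_eq_norm_sq, he]; norm_num
      have hff : inner ℝ f f = 1 := by rw [real_inner_self_eq_norm_sq, hf]; norm_num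
      let W : Submodule ℝ V := (Submodule.span ℝ {e, f})ᗮ
      have memW : ∀ x, x ∈ W ↔ inner ℝ e x = 0 ∧ inner ℝ f x = 0 := by
        intro x
        rw [Submodule.mem_orthogonal]
        constructor
        · intro h
          exact ⟨h e (Submodule.subset_span (by simp)), h f (Submodule.subset_span (by simp))⟩
        · rintro ⟨h1, h2⟩ u hu
          obtain ⟨a, b, rfl⟩ := Submodule.mem_span_pair.mp hu
          rw [inner_add_left, inner_smul_left, inner_smul_left, h1, h2]; simp
      have hTW : ∀ x ∈ W, T x ∈ W := by
        intro x hx
        rw [memW] at hx ⊢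
        constructor
        · have := hT e x
          rw [hTe, inner_neg_left, inner_smul_left, hx.2] at this
          simp at this
          linarith
        · have := hT f x
          rw [hTf, inner_smul_left, hx.1] at this
          simp at this
          linarith
      let TW : W →ₗ[ℝ] W := T.restrict hTW
      have hTWs : ∀ x y : W, inner ℝ (TW x) y = - inner ℝ x (TW y) := by
        intro x y
        exact hT x y
      have hdim : Module.finrank ℝ W < n := by
        have hlt : Module.finrank ℝ W < Module.finrank ℝ V := by
          apply Submodule.finrank_lt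
          intro htop
          have : e ∈ W := by rw [htop]; trivial
          rw [memW, hee] at this
          exact one_ne_zero this.1
        omega
      obtain ⟨ι, hι, e', f', w', ho', hT'⟩ := ih W hdim TW hTWs
      have hperp : ∀ x : W, inner ℝ e (x : V) = 0 ∧ inner ℝ f (x : V) = 0 := fun x =>
        (memW x).mp x.2
      refine ⟨Option ι, inferInstance, fun o => o.elim e (fun i => (e' i : V)),
        fun o => o.elim f (fun i => (f' i : V)), fun o => o.elim w w', ?_, ?_⟩
      · constructor
        · rintro ((_ | i) | (_ | i))
          · exact he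
          · exact ho'.1 (Sum.inl i)
          · exact hf
          · exact ho'.1 (Sum.inr i)
        · rintro ((_ | i) | (_ | i)) ((_ | j) | (_ | j)) hij
          · exact absurd rfl hij
          · exact (hperp (e' j)).1
          · exact hef
          · exact (hperp (f' j)).1
          · have := (hperp (e' i)).1
            rw [real_inner_comm] at this
            exact this
          · exact ho'.2 (i := Sum.inl i) (j := Sum.inl j) (by simpa using hij)
          · have := (hperp (e' i)).2
            rw [real_inner_comm] at this
            exact this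
          · exact ho'.2 (i := Sum.inl i) (j := Sum.inr j) (by simp)
          · exact hfe
          · exact (hperp (e' j)).2
          · exact absurd rfl hij
          · exact (hperp (f' j)).2
          · have := (hperp (f' i)).1
            rw [real_inner_comm] at this
            exact this
          · exact ho'.2 (i := Sum.inr i) (j := Sum.inl j) (by simp)
          · have := (hperp (f' i)).2
            rw [real_inner_comm] at this
            exact this
          · exact ho'.2 (i := Sum.inr i) (j := Sum.inr j) (by simpa using hij)
      · intro x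
        rw [Fintype.sum_option]
        simp only [Option.elim]
        set y : V := x - inner ℝ e x • e - inner ℝ f x • f with hy
        have hyW : y ∈ W := by
          rw [memW, hy]
          constructor
          · simp only [inner_sub_right, inner_smul_right, hee, hef]; ring
          · simp only [inner_sub_right, inner_smul_right, hff, hfe]; ring
        have hTy : T y = ∑ i, w' i • (inner ℝ ((f' i : V)) y • (e' i : V)
            - inner ℝ ((e' i : V)) y • (f' i : V)) := by
          have := congrArg (Subtype.val) (hT' ⟨y, hyW⟩)
          rw [show ((TW ⟨y, hyW⟩ : W) : V) = T y from rfl] at this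
          rw [this]
          simp
        have hin : ∀ z : W, inner ℝ (z : V) y = inner ℝ (z : V) x := by
          intro z
          have h1 := (hperp z).1
          have h2 := (hperp z).2
          rw [real_inner_comm] at h1 h2
          rw [hy]
          simp only [inner_sub_right, inner_smul_right, h1, h2]; ring
        simp only [hin] at hTy
        have hx : x = y + inner ℝ e x • e + inner ℝ f x • f := by rw [hy]; abel
        conv_lhs => rw [hx]
        rw [map_add, map_add, map_smul, map_smul, hTe, hTf, hTy]
        simp only [smul_sub, smul_neg, smul_smul]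
        rw [mul_comm w, mul_comm w]
        abel

theorem skew_nf {V : Type} [NormedAddCommGroup V] [InnerProductSpace ℝ V]
    [FiniteDimensional ℝ V] (T : V →ₗ[ℝ] V) (hT : ∀ x y, inner ℝ (T x) y = - inner ℝ x (T y)) :
    NF T :=
  skew_nf_aux _ V (Nat.lt_succ_self _) T hT

end Pool.Agent.Lib_helper77
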