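import Mathlib
import Pool.Agent.Lib_helper77.CurvAlg
import Pool.Agent.Lib_helper77.SkewNF

/-!
Pinching of an algebraic curvature tensor implies positivity of the curvature operator.
-/

set_option autoImplicit false

namespace Pool.Agent.Lib_helper77

section
variable {V : Type} [NormedAddCommGroup V] [InnerProductSpace ℝ V] [FiniteDimensional ℝ V]
  {W : Type*} [AddCommGroup W] [Module ℝ W]

theorem alt_sum {A : Type} [Fintype A] (u v : A → V) (β : V →ₗ[ℝ] V →ₗ[ℝ] W)
    (hβ : ∀ x y, β y x = - β x y) {ι : Type} [Fintype ι] (b : OrthonormalBasis ι ℝ V) :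
    ∑ i, ∑ j, (inner ℝ (b i) (∑ a, (inner ℝ (v a) (b j) • u a - inner ℝ (u a) (b j) • v a)) : ℝ) •
      β (b i) (b j) = (2 : ℝ) • ∑ a, β (u a) (v a) := by
  have h1 : ∀ x y : V, ∑ i, ∑ j, ((inner ℝ (b i) x : ℝ) * inner ℝ (b j) y) • β (b i) (b j)
      = β x y := by
    intro x y
    conv_rhs => rw [← b.sum_repr' x, ← b.sum_repr' y]
    simp only [map_sum, LinearMap.sum_apply, map_smul, LinearMap.smul_apply, Finset.smul_sum,
      smul_smul]
    rw [Finset.sum_comm]
    apply Finset.sum_congr rfl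
    intro i _
    apply Finset.sum_congr rfl
    intro j _
    rw [mul_comm]
  have h2 : ∀ i j, (inner ℝ (b i) (∑ a, (inner ℝ (v a) (b j) • u a - inner ℝ (u a) (b j) • v a)) : ℝ)
      = ∑ a, ((inner ℝ (b i) (u a) : ℝ) * inner ℝ (b j) (v a)
        - (inner ℝ (b i) (v a) : ℝ) * inner ℝ (b j) (u a)) := by
    intro i j
    rw [inner_sum]
    apply Finset.sum_congr rfl
    intro a _
    rw [inner_sub_right, inner_smul_right, inner_smul_right, real_inner_comm (b j) (v a),
      real_inner_comm (b j) (u a)]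
    ring
  simp_rw [h2]
  simp only [Finset.sum_smul, sub_smul, Finset.sum_sub_distrib]
  have h3 : ∀ (x y : A → V), ∑ i, ∑ j, ∑ a, ((inner ℝ (b i) (x a) : ℝ) * inner ℝ (b j) (y a)) •
      β (b i) (b j) = ∑ a, β (x a) (y a) := by
    intro x y
    have : ∀ i, ∑ j, ∑ a, ((inner ℝ (b i) (x a) : ℝ) * inner ℝ (b j) (y a)) • β (b i) (b j)
        = ∑ a, ∑ j, ((inner ℝ (b i) (x a) : ℝ) * inner ℝ (b j) (y a)) • β (b i) (b j) :=
      fun i => Finset.sum_comm
    simp only [this]
    rw [Finset.sum_comm]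
    apply Finset.sum_congr rfl
    intro a _
    exact h1 (x a) (y a)
  rw [h3, h3, two_smul]
  have : ∑ a, β (v a) (u a) = - ∑ a, β (u a) (v a) := by
    rw [← Finset.sum_neg_distrib]
    exact Finset.sum_congr rfl fun a _ => hβ _ _
  rw [this, sub_neg_eq_add]

theorem alt_sum_eq {A B : Type} [Fintype A] [Fintype B] (u v : A → V) (u' v' : B → V)
    (hT : ∀ x, ∑ a, ((inner ℝ (v a) x : ℝ) • u a - (inner ℝ (u a) x : ℝ) • v a)
      = ∑ c, ((inner ℝ (v' c) x : ℝ) • u' c - (inner ℝ (u' c) x : ℝ) • v' c))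
    (β : V →ₗ[ℝ] V →ₗ[ℝ] W) (hβ : ∀ x y, β y x = - β x y) :
    ∑ a, β (u a) (v a) = ∑ c, β (u' c) (v' c) := by
  have h1 := alt_sum u v β hβ (stdOrthonormalBasis ℝ V)
  have h2 := alt_sum u' v' β hβ (stdOrthonormalBasis ℝ V)
  simp only [hT] at h1
  rw [h1] at h2
  have h3 := congrArg (fun y => (2⁻¹ : ℝ) • y) h2
  simp only [smul_smul] at h3
  norm_num at h3
  exact h3

end

/-- The wedge product of two vectors, in the second exterior power. -/
noncomputable def wedge {V : Type} [AddCommGroup V] [Module ℝ V] (x y : V) : ⋀[ℝ]^2 V :=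
  exteriorPower.ιMulti ℝ 2 ![x, y]

theorem upd0 {V : Type} (x y z : V) : Function.update ![x, y] 0 z = ![z, y] := by
  ext i; fin_cases i <;> simp

theorem upd1 {V : Type} (x y z : V) : Function.update ![x, y] 1 z = ![x, z] := by
  ext i; fin_cases i <;> simp

/-- The wedge product as a bilinear map. -/
noncomputable def wedgeL (V : Type) [AddCommGroup V] [Module ℝ V] : V →ₗ[ℝ] V →ₗ[ℝ] ⋀[ℝ]^2 V :=
  LinearMap.mk₂ ℝ wedge
    (by
      intro x x' y
      have := (exteriorPower.ιMulti ℝ 2 (M := V)).map_update_add ![x, y] 0 x x'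
      rw [upd0, upd0, upd0] at this
      exact this)
    (by
      intro c x y
      have := (exteriorPower.ιMulti ℝ 2 (M := V)).map_update_smul ![x, y] 0 c x
      rw [upd0, upd0] at this
      exact this)
    (by
      intro x y y'
      have := (exteriorPower.ιMulti ℝ 2 (M := V)).map_update_add ![x, y] 1 y y'
      rw [upd1, upd1, upd1] at this
      exact this)
    (by
      intro c x y
      have := (exteriorPower.ιMulti ℝ 2 (M := V)).map_update_smul ![x, y] 1 c y
      rw [upd1, upd1] at this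
      exact this)

theorem wedgeL_apply {V : Type} [AddCommGroup V] [Module ℝ V] (x y : V) :
    wedgeL V x y = wedge x y := rfl

theorem wedge_swap {V : Type} [AddCommGroup V] [Module ℝ V] (x y : V) :
    wedge y x = - wedge x y := by
  have := (exteriorPower.ιMulti ℝ 2 (M := V)).map_swap ![x, y] (i := 0) (j := 1) (by simp)
  rw [wedge, wedge, ← this]
  congr 1
  ext i
  fin_cases i <;> simp

section
variable {V : Type} [NormedAddCommGroup V] [InnerProductSpace ℝ V] [FiniteDimensional ℝ V]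
  {R : V → V → V → V → ℝ}

/-- The curvature as a bilinear form in the first two arguments. -/
noncomputable def curvL (h : AlgCurv R) (w z : V) : V →ₗ[ℝ] V →ₗ[ℝ] ℝ :=
  LinearMap.mk₂ ℝ (fun x y => R x y w z) (fun x x' y => h.add1 x x' y w z)
    (fun c x y => h.smul1 c x y w z) (fun x y y' => h.add2 x y y' w z)
    (fun c x y => h.smul2 c x y w z)

theorem curvOp_pos (h : AlgCurv R) {m M : ℝ}
    (hK : ∀ u v : V, inner ℝ u v = 0 → m * (‖u‖ ^ 2 * ‖v‖ ^ 2) ≤ R u v u v ∧
      R u v u v ≤ M * (‖u‖ ^ 2 * ‖v‖ ^ 2)) (hMm : m ≤ M)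
    (hm : 2 / 3 * (M - m) * (((Module.finrank ℝ V / 2 : ℕ) : ℝ) - 1) < m)
    {A : Type} [Fintype A] (u v : A → V) (hω : ∑ a, wedge (u a) (v a) ≠ 0) :
    0 < ∑ a, ∑ b, R (u a) (v a) (u b) (v b) := by
  let T : V →ₗ[ℝ] V :=
    ∑ a, ((innerSL ℝ (v a)).toLinearMap.smulRight (u a) - (innerSL ℝ (u a)).toLinearMap.smulRight (v a))
  have hTx : ∀ x, T x = ∑ a, ((inner ℝ (v a) x : ℝ) • u a - (inner ℝ (u a) x : ℝ) • v a) := by
    intro x
    simp only [T, LinearMap.sum_apply, LinearMap.sub_apply, LinearMap.smulRight_apply]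
    rfl
  have hskew : ∀ x y, inner ℝ (T x) y = - inner ℝ x (T y) := by
    intro x y
    rw [hTx, hTx, sum_inner, inner_sum, ← Finset.sum_neg_distrib]
    apply Finset.sum_congr rfl
    intro a _
    rw [inner_sub_left, inner_sub_right, inner_smul_left, inner_smul_left, inner_smul_right,
      inner_smul_right]
    simp only [conj_trivial]
    rw [real_inner_comm x (u a), real_inner_comm x (v a)]
    ring
  obtain ⟨ι, hι, e, f, w, ho, hT⟩ := skew_nf T hskew
  have hTT : ∀ x, ∑ a, ((inner ℝ (v a) x : ℝ) • u a - (inner ℝ (u a) x : ℝ) • v a)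
      = ∑ c, ((inner ℝ (f c) x : ℝ) • (w c • e c) - (inner ℝ (w c • e c) x : ℝ) • f c) := by
    intro x
    rw [← hTx, hT]
    apply Finset.sum_congr rfl
    intro c _
    rw [inner_smul_left, smul_sub, smul_smul, smul_smul, smul_smul, mul_comm (w c) (inner ℝ (f c) x)]
    simp
  have hw : w ≠ 0 := by
    intro hw
    apply hω
    have := alt_sum_eq u v (fun c => w c • e c) f hTT (wedgeL V)
      (fun x y => by rw [wedgeL_apply, wedgeL_apply]; exact wedge_swap x y)
    simp only [wedgeL_apply] at this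
    rw [this]
    apply Finset.sum_eq_zero
    intro c _
    rw [hw, ← wedgeL_apply]
    simp
  have hR : ∀ y z, ∑ a, R (u a) (v a) y z = ∑ c, w c * R (e c) (f c) y z := by
    intro y z
    have := alt_sum_eq u v (fun c => w c • e c) f hTT (curvL h y z)
      (fun x y' => h.anti _ _ _ _)
    simp only [curvL, LinearMap.mk₂_apply] at this
    rw [this]
    apply Finset.sum_congr rfl
    intro c _
    rw [h.smul1]
  have hQ : ∑ a, ∑ b, R (u a) (v a) (u b) (v b)
      = ∑ i, ∑ j, w i * w j * R (e i) (f i) (e j) (f j) := by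
    rw [Finset.sum_comm]
    have h1 : ∀ b, ∑ a, R (u a) (v a) (u b) (v b) = ∑ c, w c * R (u b) (v b) (e c) (f c) := by
      intro b
      rw [hR]
      apply Finset.sum_congr rfl
      intro c _
      rw [h.pair]
    simp only [h1]
    rw [Finset.sum_comm]
    apply Finset.sum_congr rfl
    intro i _
    rw [← Finset.mul_sum, hR, Finset.mul_sum]
    apply Finset.sum_congr rfl
    intro j _
    rw [h.pair]
    ring
  rw [hQ]
  apply quad_pos h hK hMm e f ho w hw
  refine lt_of_le_of_lt ?_ hm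
  have hcard : Fintype.card ι ≤ Module.finrank ℝ V / 2 := by
    have h1 := ho.linearIndependent.fintype_card_le_finrank
    rw [Fintype.card_sum] at h1
    omega
  have hcard' : (Fintype.card ι : ℝ) ≤ ((Module.finrank ℝ V / 2 : ℕ) : ℝ) := by exact_mod_cast hcard
  have : 0 ≤ 2 / 3 * (M - m) := by nlinarith
  nlinarith

end

end Pool.Agent.Lib_helper77
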