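import Mathlib
import Pool.Agent.Lib_helper77.CurvDefs
import Pool.Agent.Lib_helper77.CurvOp

/-!
The coordinate curvature tensor is an algebraic curvature tensor.
-/

set_option autoImplicit false
set_option maxSynthPendingDepth 3

open scoped Manifold ContDiff

namespace Pool.Agent.Lib_helper77

variable {E : Type} [NormedAddCommGroup E] [NormedSpace ℝ E]

/-- A field of symmetric bilinear forms, twice differentiable and positive definite at `x₀`. -/
structure Nice (G : E → E → E → ℝ) (x₀ : E) : Prop where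
  add : ∀ y u u' v, G y (u + u') v = G y u v + G y u' v
  smul : ∀ y (c : ℝ) u v, G y (c • u) v = c * G y u v
  symm : ∀ y u v, G y u v = G y v u
  pos : ∀ u, u ≠ 0 → 0 < G x₀ u u
  smooth : ∀ u v, ContDiffAt ℝ 2 (fun y => G y u v) x₀

section second
variable {f g : E → ℝ} {x : E}

theorem fderiv2_eq (hf : ContDiffAt ℝ 2 f x) (a b : E) :
    fderiv ℝ (fun y => fderiv ℝ f y b) x a = fderiv ℝ (fderiv ℝ f) x a b := by
  have h1 : DifferentiableAt ℝ (fderiv ℝ f) x :=
    (hf.fderiv_right (m := 1) (by norm_num)).differentiableAt (by norm_num)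
  have h2 : HasFDerivAt (fun y => fderiv ℝ f y b)
      ((ContinuousLinearMap.apply ℝ ℝ b).comp (fderiv ℝ (fderiv ℝ f) x)) x :=
    (ContinuousLinearMap.apply ℝ ℝ b).hasFDerivAt.comp x h1.hasFDerivAt
  rw [h2.fderiv]
  rfl

theorem fderiv2_symm (hf : ContDiffAt ℝ 2 f x) (a b : E) :
    fderiv ℝ (fun y => fderiv ℝ f y b) x a = fderiv ℝ (fun y => fderiv ℝ f y a) x b := by
  rw [fderiv2_eq hf, fderiv2_eq hf]
  exact hf.isSymmSndFDerivAt (by simp) a b

theorem eventually_diff (hf : ContDiffAt ℝ 2 f x) : ∀ᶠ y in nhds x, DifferentiableAt ℝ f y := by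
  have h1 : ContDiffAt ℝ 1 f x := hf.of_le (by norm_num)
  have h2 := h1.eventually (by norm_num)
  filter_upwards [h2] with y hy
  exact hy.differentiableAt (by norm_num)

theorem diff_fderiv_apply (hf : ContDiffAt ℝ 2 f x) (b : E) :
    DifferentiableAt ℝ (fun y => fderiv ℝ f y b) x := by
  have h1 : DifferentiableAt ℝ (fderiv ℝ f) x :=
    (hf.fderiv_right (m := 1) (by norm_num)).differentiableAt (by norm_num)
  exact ((ContinuousLinearMap.apply ℝ ℝ b).hasFDerivAt.comp x h1.hasFDerivAt).differentiableAt

theorem fderiv2_add (hf : ContDiffAt ℝ 2 f x) (hg : ContDiffAt ℝ 2 g x) (a b : E) :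
    fderiv ℝ (fun y => fderiv ℝ (fun y' => f y' + g y') y b) x a
      = fderiv ℝ (fun y => fderiv ℝ f y b) x a + fderiv ℝ (fun y => fderiv ℝ g y b) x a := by
  have h1 : (fun y => fderiv ℝ (fun y' => f y' + g y') y b) =ᶠ[nhds x]
      (fun y => fderiv ℝ f y b + fderiv ℝ g y b) := by
    filter_upwards [eventually_diff hf, eventually_diff hg] with y h2 h3
    rw [fderiv_fun_add h2 h3]; rfl
  rw [h1.fderiv_eq, fderiv_fun_add (diff_fderiv_apply hf b) (diff_fderiv_apply hg b)]
  rfl

theorem fderiv2_smul (hf : ContDiffAt ℝ 2 f x) (c : ℝ) (a b : E) :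
    fderiv ℝ (fun y => fderiv ℝ (fun y' => c * f y') y b) x a
      = c * fderiv ℝ (fun y => fderiv ℝ f y b) x a := by
  have h1 : (fun y => fderiv ℝ (fun y' => c * f y') y b) =ᶠ[nhds x]
      (fun y => c * fderiv ℝ f y b) := by
    filter_upwards [eventually_diff hf] with y h2
    rw [fderiv_const_mul h2]; rfl
  rw [h1.fderiv_eq, fderiv_const_mul (diff_fderiv_apply hf b)]
  rfl

end second

namespace Nice

variable {G : E → E → E → ℝ} {x₀ : E} (h : Nice G x₀)
include h

theorem add_right (y u v v' : E) : G y u (v + v') = G y u v + G y u v' := by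
  rw [h.symm, h.add, h.symm y v u, h.symm y v' u]

theorem smul_right (y : E) (c : ℝ) (u v : E) : G y u (c • v) = c * G y u v := by
  rw [h.symm, h.smul, h.symm]

/-- The bilinear form at `x₀`. -/
noncomputable def bil : E →ₗ[ℝ] E →ₗ[ℝ] ℝ :=
  LinearMap.mk₂ ℝ (G x₀) (fun u u' v => h.add x₀ u u' v) (fun c u v => h.smul x₀ c u v)
    (fun u v v' => h.add_right x₀ u v v') (fun c u v => h.smul_right x₀ c u v)

theorem nondeg {u v : E} (huv : ∀ w, G x₀ u w = G x₀ v w) : u = v := by
  by_contra hne
  have h1 : u - v ≠ 0 := sub_ne_zero.mpr hne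
  have h2 := h.pos _ h1
  have h3 : G x₀ (u - v) (u - v) = G x₀ u (u - v) + (-1) * G x₀ v (u - v) := by
    conv_lhs => rw [sub_eq_add_neg u v, ← neg_one_smul ℝ v]
    rw [h.add, h.smul]
    rw [neg_one_smul, ← sub_eq_add_neg]
  rw [huv] at h3
  linarith

theorem diffAt (u v : E) : DifferentiableAt ℝ (fun y => G y u v) x₀ :=
  (h.smooth u v).differentiableAt (by norm_num)

theorem d_add (u u' v : E) (a : E) : fderiv ℝ (fun y => G y (u + u') v) x₀ a
    = fderiv ℝ (fun y => G y u v) x₀ a + fderiv ℝ (fun y => G y u' v) x₀ a := by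
  have : (fun y => G y (u + u') v) = fun y => G y u v + G y u' v := by
    ext y; exact h.add y u u' v
  rw [this, fderiv_fun_add (h.diffAt u v) (h.diffAt u' v)]
  rfl

theorem d_smul (c : ℝ) (u v : E) (a : E) : fderiv ℝ (fun y => G y (c • u) v) x₀ a
    = c * fderiv ℝ (fun y => G y u v) x₀ a := by
  have : (fun y => G y (c • u) v) = fun y => c * G y u v := by
    ext y; exact h.smul y c u v
  rw [this, fderiv_const_mul (h.diffAt u v)]
  rfl

theorem fun_symm (u v : E) : (fun y => G y u v) = fun y => G y v u := by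
  ext y; exact h.symm y u v

theorem cf_symm (u v w : E) : christoffelFirst G x₀ u v w = christoffelFirst G x₀ v u w := by
  unfold christoffelFirst
  rw [h.fun_symm u v]
  ring

theorem cf_add (u u' v w : E) : christoffelFirst G x₀ (u + u') v w
    = christoffelFirst G x₀ u v w + christoffelFirst G x₀ u' v w := by
  unfold christoffelFirst
  rw [map_add, h.d_add u u' w, h.d_add u u' v]
  ring

theorem cf_smul (c : ℝ) (u v w : E) : christoffelFirst G x₀ (c • u) v w
    = c * christoffelFirst G x₀ u v w := by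
  unfold christoffelFirst
  rw [map_smul, h.d_smul c u w, h.d_smul c u v, smul_eq_mul]
  ring

theorem cf_add3 (u v w w' : E) : christoffelFirst G x₀ u v (w + w')
    = christoffelFirst G x₀ u v w + christoffelFirst G x₀ u v w' := by
  unfold christoffelFirst
  rw [map_add, h.fun_symm v (w + w'), h.fun_symm u (w + w'), h.d_add w w' v, h.d_add w w' u,
    h.fun_symm w v, h.fun_symm w' v, h.fun_symm w u, h.fun_symm w' u]
  ring

theorem cf_smul3 (c : ℝ) (u v w : E) : christoffelFirst G x₀ u v (c • w)
    = c * christoffelFirst G x₀ u v w := by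
  unfold christoffelFirst
  rw [map_smul, h.fun_symm v (c • w), h.fun_symm u (c • w), h.d_smul c w v, h.d_smul c w u,
    h.fun_symm w v, h.fun_symm w u, smul_eq_mul]
  ring

theorem christoffel_symm (u v : E) : christoffel G x₀ u v = christoffel G x₀ v u := by
  unfold christoffel
  simp only [h.cf_symm u v]

theorem christoffel_spec [FiniteDimensional ℝ E] (u v w : E) :
    G x₀ (christoffel G x₀ u v) w = christoffelFirst G x₀ u v w := by
  have hex : ∃ y : E, ∀ w, G x₀ y w = christoffelFirst G x₀ u v w := by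
    let B : E →ₗ[ℝ] Module.Dual ℝ E := h.bil
    have hB : Function.Injective B := by
      intro a b hab
      apply h.nondeg
      intro w
      exact congrArg (fun φ : Module.Dual ℝ E => φ w) hab
    have hs : Function.Surjective B :=
      (LinearMap.injective_iff_surjective_of_finrank_eq_finrank
        (Subspace.dual_finrank_eq (K := ℝ) (V := E)).symm).mp hB
    let φ : Module.Dual ℝ E :=
      { toFun := fun w => christoffelFirst G x₀ u v w
        map_add' := fun w w' => h.cf_add3 u v w w'
        map_smul' := fun c w => h.cf_smul3 c u v w }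
    obtain ⟨y, hy⟩ := hs φ
    exact ⟨y, fun w => congrArg (fun φ : Module.Dual ℝ E => φ w) hy⟩
  exact Classical.epsilon_spec (p := fun y => ∀ w, G x₀ y w = christoffelFirst G x₀ u v w) hex w

theorem sd_symm12 (a b c e : E) : secondDeriv G x₀ a b c e = secondDeriv G x₀ b a c e :=
  fderiv2_symm (h.smooth c e) a b

theorem sd_symm34 (a b c e : E) : secondDeriv G x₀ a b c e = secondDeriv G x₀ a b e c := by
  unfold secondDeriv
  rw [h.fun_symm c e]

theorem sd_add1 (a a' b c e : E) : secondDeriv G x₀ (a + a') b c e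
    = secondDeriv G x₀ a b c e + secondDeriv G x₀ a' b c e := by
  unfold secondDeriv; rw [map_add]

theorem sd_smul1 (r : ℝ) (a b c e : E) : secondDeriv G x₀ (r • a) b c e
    = r * secondDeriv G x₀ a b c e := by
  unfold secondDeriv; rw [map_smul, smul_eq_mul]

theorem sd_add3 (a b c c' e : E) : secondDeriv G x₀ a b (c + c') e
    = secondDeriv G x₀ a b c e + secondDeriv G x₀ a b c' e := by
  unfold secondDeriv
  have : (fun y => G y (c + c') e) = fun y => G y c e + G y c' e := by
    ext y; exact h.add y c c' e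
  rw [this]
  exact fderiv2_add (h.smooth c e) (h.smooth c' e) a b

theorem sd_smul3 (r : ℝ) (a b c e : E) : secondDeriv G x₀ a b (r • c) e
    = r * secondDeriv G x₀ a b c e := by
  unfold secondDeriv
  have : (fun y => G y (r • c) e) = fun y => r * G y c e := by
    ext y; exact h.smul y r c e
  rw [this]
  exact fderiv2_smul (h.smooth c e) r a b

theorem algCurv [FiniteDimensional ℝ E] : AlgCurv (curvCoord G x₀) where
  add1 u u' v w z := by
    unfold curvCoord
    rw [h.sd_add3 v w u u' z, h.sd_add1 u u' z v w, h.sd_add3 v z u u' w, h.sd_add1 u u' w v z]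
    rw [h.symm x₀ (christoffel G x₀ v w), h.symm x₀ (christoffel G x₀ v z),
      h.christoffel_spec, h.christoffel_spec, h.cf_add, h.cf_add,
      h.symm x₀ (christoffel G x₀ v w), h.symm x₀ (christoffel G x₀ v z),
      h.symm x₀ (christoffel G x₀ v w), h.symm x₀ (christoffel G x₀ v z),
      h.christoffel_spec, h.christoffel_spec, h.christoffel_spec, h.christoffel_spec]
    ring
  smul1 c u v w z := by
    unfold curvCoord
    rw [h.sd_smul3 c v w u z, h.sd_smul1 c u z v w, h.sd_smul3 c v z u w, h.sd_smul1 c u w v z]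
    rw [h.symm x₀ (christoffel G x₀ v w), h.symm x₀ (christoffel G x₀ v z),
      h.christoffel_spec, h.christoffel_spec, h.cf_smul, h.cf_smul,
      h.symm x₀ (christoffel G x₀ v w), h.symm x₀ (christoffel G x₀ v z),
      h.christoffel_spec, h.christoffel_spec]
    ring
  anti u v w z := by
    unfold curvCoord
    rw [h.symm x₀ (christoffel G x₀ u w), h.symm x₀ (christoffel G x₀ u z)]
    ring
  pair u v w z := by
    unfold curvCoord
    rw [h.sd_symm12 z u w v, h.sd_symm34 u z w v, h.sd_symm12 w v z u, h.sd_symm34 v w z u,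
      h.sd_symm12 z v w u, h.sd_symm34 v z w u, h.sd_symm12 w u z v, h.sd_symm34 u w z v,
      h.christoffel_symm z u, h.christoffel_symm w v, h.christoffel_symm z v,
      h.christoffel_symm w u, h.symm x₀ (christoffel G x₀ u z)]
    ring
  bianchi u v w z := by
    unfold curvCoord
    rw [h.sd_symm12 w v u z, h.sd_symm12 z v u w, h.sd_symm12 z w u v,
      h.sd_symm34 u v w z, h.sd_symm34 u w z v, h.sd_symm34 u v z w,
      h.christoffel_symm w v, h.christoffel_symm z v, h.christoffel_symm z w]
    have e1 := h.sd_symm34 u z w v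
    have e2 := h.sd_symm34 u w v z
    have e3 := h.sd_symm34 u v w z
    linarith

end Nice

end Pool.Agent.Lib_helper77
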