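import Mathlib
import Pool.Agent.Lib_helper77.CurvLocal

/-!
Pinching implies positivity of the curvature operator, for algebraic curvature tensors.
-/

set_option autoImplicit false
set_option maxSynthPendingDepth 3

namespace Pool.Agent.Lib_helper77

theorem li_of_orth {V : Type} [NormedAddCommGroup V] [InnerProductSpace ℝ V] {u v : V}
    (hu : u ≠ 0) (hv : v ≠ 0) (huv : inner ℝ u v = 0) : LinearIndependent ℝ ![u, v] := by
  rw [LinearIndependent.pair_iff]
  intro s t hst
  have h1 : inner ℝ u (s • u + t • v) = 0 := by rw [hst, inner_zero_right]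
  have h2 : inner ℝ v (s • u + t • v) = 0 := by rw [hst, inner_zero_right]
  rw [inner_add_right, inner_smul_right, inner_smul_right, huv] at h1
  rw [inner_add_right, inner_smul_right, inner_smul_right, real_inner_comm, huv] at h2
  have h3 : inner ℝ u u ≠ 0 := inner_self_ne_zero.mpr hu
  have h4 : inner ℝ v v ≠ 0 := inner_self_ne_zero.mpr hv
  constructor
  · have : s * inner ℝ u u = 0 := by linarith
    exact (mul_eq_zero.mp this).resolve_right h3
  · have : t * inner ℝ v v = 0 := by linarith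
    exact (mul_eq_zero.mp this).resolve_right h4

theorem pinch_inner {V : Type} [NormedAddCommGroup V] [InnerProductSpace ℝ V]
    [FiniteDimensional ℝ V] {d : ℕ} (hd : Module.finrank ℝ V = d) (hd2 : 2 ≤ d)
    {R : V → V → V → V → ℝ} (h : AlgCurv R) {δ : ℝ} (hδ0 : 0 < δ) (hδ1 : δ ≤ 1)
    (hδ : (2 * ((d / 2 : ℕ) : ℝ) - 2) / (2 * ((d / 2 : ℕ) : ℝ) + 1) < δ)
    (hpos : ∀ u v : V, LinearIndependent ℝ ![u, v] →
      0 < R u v u v / (inner ℝ u u * inner ℝ v v - inner ℝ u v ^ 2))
    (hpin : ∀ u v u' v' : V, LinearIndependent ℝ ![u, v] → LinearIndependent ℝ ![u', v'] →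
      δ * (R u' v' u' v' / (inner ℝ u' u' * inner ℝ v' v' - inner ℝ u' v' ^ 2))
        ≤ R u v u v / (inner ℝ u u * inner ℝ v v - inner ℝ u v ^ 2))
    {A : Type} [Fintype A] (u v : A → V) (hω : ∑ a, wedge (u a) (v a) ≠ 0) :
    0 < ∑ a, ∑ b, R (u a) (v a) (u b) (v b) := by
  set S : Set ℝ := {k | ∃ u v : V, LinearIndependent ℝ ![u, v] ∧
    k = R u v u v / (inner ℝ u u * inner ℝ v v - inner ℝ u v ^ 2)} with hS
  -- there is a plane
  let b := stdOrthonormalBasis ℝ V
  have hb0 : (0 : ℕ) < Module.finrank ℝ V := by omega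
  have hb1 : (1 : ℕ) < Module.finrank ℝ V := by omega
  set x : V := b ⟨0, hb0⟩
  set y : V := b ⟨1, hb1⟩
  have hxy : inner ℝ x y = 0 := b.orthonormal.2 (by simp)
  have hx : x ≠ 0 := by
    intro h0
    have := b.orthonormal.1 ⟨0, hb0⟩
    rw [show b ⟨0, hb0⟩ = x from rfl, h0, norm_zero] at this
    exact zero_ne_one this
  have hy : y ≠ 0 := by
    intro h0
    have := b.orthonormal.1 ⟨1, hb1⟩
    rw [show b ⟨1, hb1⟩ = y from rfl, h0, norm_zero] at this
    exact zero_ne_one this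
  have hli := li_of_orth hx hy hxy
  have hne : S.Nonempty := ⟨_, x, y, hli, rfl⟩
  have hbdd : BddAbove S := by
    refine ⟨(R x y x y / (inner ℝ x x * inner ℝ y y - inner ℝ x y ^ 2)) / δ, ?_⟩
    rintro k ⟨u', v', hl, rfl⟩
    rw [le_div_iff₀ hδ0, mul_comm]
    exact hpin x y u' v' hli hl
  set M := sSup S with hM
  have hMle : ∀ u v : V, LinearIndependent ℝ ![u, v] →
      R u v u v / (inner ℝ u u * inner ℝ v v - inner ℝ u v ^ 2) ≤ M :=
    fun u v hl => le_csSup hbdd ⟨u, v, hl, rfl⟩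
  have hMge : ∀ u v : V, LinearIndependent ℝ ![u, v] →
      δ * M ≤ R u v u v / (inner ℝ u u * inner ℝ v v - inner ℝ u v ^ 2) := by
    intro u v hl
    rw [mul_comm, ← le_div_iff₀ hδ0]
    apply csSup_le hne
    rintro k ⟨u', v', hl', rfl⟩
    rw [le_div_iff₀ hδ0, mul_comm]
    exact hpin u v u' v' hl hl'
  have hMpos : 0 < M := lt_of_lt_of_le (hpos x y hli) (hMle x y hli)
  have hK : ∀ u v : V, inner ℝ u v = 0 → (δ * M) * (‖u‖ ^ 2 * ‖v‖ ^ 2) ≤ R u v u v ∧
      R u v u v ≤ M * (‖u‖ ^ 2 * ‖v‖ ^ 2) := by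
    intro u v huv
    by_cases hu : u = 0
    · subst hu
      have : R 0 v 0 v = 0 := by
        have := h.smul1 0 0 v 0 v
        simpa using this
      simp [this]
    by_cases hv : v = 0
    · subst hv
      have : R u 0 u 0 = 0 := by
        have := h.smul2 0 u 0 u 0
        simpa using this
      simp [this]
    have hl := li_of_orth hu hv huv
    have h1 := hMle u v hl
    have h2 := hMge u v hl
    have hden : inner ℝ u u * inner ℝ v v - inner ℝ u v ^ 2 = ‖u‖ ^ 2 * ‖v‖ ^ 2 := by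
      rw [huv, real_inner_self_eq_norm_sq, real_inner_self_eq_norm_sq]; ring
    have hdpos : 0 < ‖u‖ ^ 2 * ‖v‖ ^ 2 := by
      have := norm_pos_iff.mpr hu
      have := norm_pos_iff.mpr hv
      positivity
    rw [hden, div_le_iff₀ hdpos] at h1
    rw [hden, le_div_iff₀ hdpos] at h2
    exact ⟨h2, h1⟩
  apply curvOp_pos h hK (by nlinarith) _ u v hω
  rw [hd]
  have hk : (0:ℝ) < 2 * ((d / 2 : ℕ) : ℝ) + 1 := by positivity
  rw [div_lt_iff₀ hk] at hδ
  nlinarith

/-- An orthonormal basis for a positive definite symmetric bilinear form. -/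
theorem exists_onb {V : Type} [AddCommGroup V] [Module ℝ V] [FiniteDimensional ℝ V] {d : ℕ}
    (hd : Module.finrank ℝ V = d) (B : V →ₗ[ℝ] V →ₗ[ℝ] ℝ) (hsymm : ∀ u v, B u v = B v u)
    (hpos : ∀ u, u ≠ 0 → 0 < B u u) :
    ∃ b : Module.Basis (Fin d) ℝ V, ∀ i j, B (b i) (b j) = if i = j then 1 else 0 := by
  let c : InnerProductSpace.Core ℝ V :=
    { inner := fun u v => B u v
      conj_inner_symm := fun u v => by simpa using hsymm v u
      re_inner_nonneg := fun u => by
        by_cases hu : u = 0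
        · simp [hu]
        · simpa using (hpos u hu).le
      add_left := fun u u' v => by simp
      smul_left := fun u v r => by simp
      definite := fun u hu => by
        by_contra hne
        exact absurd hu (hpos u hne).ne' }
  letI : NormedAddCommGroup V := c.toNormedAddCommGroup
  letI : InnerProductSpace ℝ V := InnerProductSpace.ofCore c.toCore
  subst hd
  refine ⟨(stdOrthonormalBasis ℝ V).toBasis, fun i j => ?_⟩
  have h1 := orthonormal_iff_ite.mp (stdOrthonormalBasis ℝ V).orthonormal i j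
  rw [OrthonormalBasis.coe_toBasis]
  exact h1

theorem exists_isom {V : Type} [AddCommGroup V] [Module ℝ V] [FiniteDimensional ℝ V] {d : ℕ}
    (hd : Module.finrank ℝ V = d) (B : V →ₗ[ℝ] V →ₗ[ℝ] ℝ) (hsymm : ∀ u v, B u v = B v u)
    (hpos : ∀ u, u ≠ 0 → 0 < B u u) :
    ∃ Φ : EuclideanSpace ℝ (Fin d) ≃ₗ[ℝ] V, ∀ u v, B (Φ u) (Φ v) = inner ℝ u v := by
  obtain ⟨b, hb⟩ := exists_onb hd B hsymm hpos
  refine ⟨(WithLp.linearEquiv 2 ℝ (Fin d → ℝ)).trans b.equivFun.symm, fun u v => ?_⟩
  simp only [LinearEquiv.trans_apply, Module.Basis.equivFun_symm_apply, map_sum, map_smul,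
    LinearMap.sum_apply, LinearMap.smul_apply, hb, smul_eq_mul, mul_ite, mul_one, mul_zero,
    Finset.sum_ite_eq, Finset.mem_univ, if_true, PiLp.inner_apply]
  simp [mul_comm]

end Pool.Agent.Lib_helper77
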