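import Mathlib
import Pool.Agent.Lib_helper77.CurvPinch

/-!
An algebraic curvature tensor with optimal pinching, and the metric realising it.
-/

set_option autoImplicit false
set_option maxSynthPendingDepth 3

open scoped Manifold ContDiff Topology

namespace Pool.Agent.Lib_helper77

section Alg

variable {d : ℕ}

/-- The standard two-form on the first `2 * (d / 2)` coordinates. -/
noncomputable def Om (x y : EuclideanSpace ℝ (Fin d)) : ℝ :=
  ∑ i : Fin (d / 2), (x ⟨2 * i, by omega⟩ * y ⟨2 * i + 1, by omega⟩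
    - x ⟨2 * i + 1, by omega⟩ * y ⟨2 * i, by omega⟩)

theorem Om_add (x x' y : EuclideanSpace ℝ (Fin d)) : Om (x + x') y = Om x y + Om x' y := by
  unfold Om
  rw [← Finset.sum_add_distrib]
  apply Finset.sum_congr rfl
  intro i _
  simp only [PiLp.add_apply]
  ring

theorem Om_smul (c : ℝ) (x y : EuclideanSpace ℝ (Fin d)) : Om (c • x) y = c * Om x y := by
  unfold Om
  rw [Finset.mul_sum]
  apply Finset.sum_congr rfl
  intro i _
  simp only [PiLp.smul_apply, smul_eq_mul]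
  ring

theorem Om_swap (x y : EuclideanSpace ℝ (Fin d)) : Om y x = - Om x y := by
  unfold Om
  rw [← Finset.sum_neg_distrib]
  apply Finset.sum_congr rfl
  intro i _
  ring

/-- A sum over pairs of coordinates is at most the sum over all coordinates. -/
theorem pair_sum_le (f : Fin d → ℝ) (hf : ∀ i, 0 ≤ f i) :
    ∑ i : Fin (d / 2), (f ⟨2 * i, by omega⟩ + f ⟨2 * i + 1, by omega⟩) ≤ ∑ i, f i := by
  classical
  let φ : Fin (d / 2) × Fin 2 → Fin d := fun q => ⟨2 * q.1 + q.2, by omega⟩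
  have hφ : Function.Injective φ := by
    rintro ⟨i, a⟩ ⟨j, b⟩ hij
    simp only [φ, Fin.mk.injEq] at hij
    have h1 : i = j := by ext; omega
    have h2 : a = b := by ext; omega
    rw [h1, h2]
  have h1 : ∑ i : Fin (d / 2), (f ⟨2 * i, by omega⟩ + f ⟨2 * i + 1, by omega⟩)
      = ∑ q : Fin (d / 2) × Fin 2, f (φ q) := by
    rw [Fintype.sum_prod_type]
    apply Finset.sum_congr rfl
    intro i _
    rw [Fin.sum_univ_two]
    rfl
  rw [h1, ← Finset.sum_image (f := f) (g := φ) (fun a _ b _ hab => hφ hab)]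
  exact Finset.sum_le_sum_of_subset_of_nonneg (Finset.subset_univ _) (fun i _ _ => hf i)

theorem Om_bound (x y : EuclideanSpace ℝ (Fin d)) : |Om x y| ≤ ‖x‖ * ‖y‖ := by
  set A : Fin (d / 2) → ℝ := fun i => Real.sqrt (x ⟨2 * i, by omega⟩ ^ 2 + x ⟨2 * i + 1, by omega⟩ ^ 2)
    with hA
  set B : Fin (d / 2) → ℝ := fun i => Real.sqrt (y ⟨2 * i, by omega⟩ ^ 2 + y ⟨2 * i + 1, by omega⟩ ^ 2)
    with hB
  have hA2 : ∀ i, A i ^ 2 = x ⟨2 * i, by omega⟩ ^ 2 + x ⟨2 * i + 1, by omega⟩ ^ 2 := fun i =>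
    Real.sq_sqrt (by positivity)
  have hB2 : ∀ i, B i ^ 2 = y ⟨2 * i, by omega⟩ ^ 2 + y ⟨2 * i + 1, by omega⟩ ^ 2 := fun i =>
    Real.sq_sqrt (by positivity)
  have hA0 : ∀ i, 0 ≤ A i := fun i => Real.sqrt_nonneg _
  have hB0 : ∀ i, 0 ≤ B i := fun i => Real.sqrt_nonneg _
  have h1 : |Om x y| ≤ ∑ i, A i * B i := by
    unfold Om
    refine (Finset.abs_sum_le_sum_abs _ _).trans (Finset.sum_le_sum fun i _ => ?_)
    apply abs_le_of_sq_le_sq _ (mul_nonneg (hA0 i) (hB0 i))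
    rw [mul_pow, hA2, hB2]
    nlinarith [sq_nonneg (x ⟨2 * i, by omega⟩ * y ⟨2 * i, by omega⟩
      + x ⟨2 * i + 1, by omega⟩ * y ⟨2 * i + 1, by omega⟩)]
  refine h1.trans ?_
  have h2 := Finset.sum_mul_sq_le_sq_mul_sq Finset.univ A B
  have hx : ∑ i, A i ^ 2 ≤ ‖x‖ ^ 2 := by
    rw [EuclideanSpace.norm_sq_eq]
    simp only [hA2]
    refine (pair_sum_le (fun i => x i ^ 2) (fun i => sq_nonneg _)).trans (le_of_eq ?_)
    simp
  have hy : ∑ i, B i ^ 2 ≤ ‖y‖ ^ 2 := by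
    rw [EuclideanSpace.norm_sq_eq]
    simp only [hB2]
    refine (pair_sum_le (fun i => y i ^ 2) (fun i => sq_nonneg _)).trans (le_of_eq ?_)
    simp
  have h3 : (∑ i, A i * B i) ^ 2 ≤ (‖x‖ * ‖y‖) ^ 2 := by
    rw [mul_pow]
    refine h2.trans ?_
    exact mul_le_mul hx hy (Finset.sum_nonneg fun i _ => sq_nonneg _) (by positivity)
  exact (abs_le_of_sq_le_sq' h3 (by positivity)).2

/-- The extremal algebraic curvature tensor. -/
noncomputable def Rex (x y z w : EuclideanSpace ℝ (Fin d)) : ℝ :=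
  (2 * ((d / 2 : ℕ) : ℝ) + 1) * (inner ℝ x z * inner ℝ y w - inner ℝ x w * inner ℝ y z)
    - (Om x z * Om y w - Om x w * Om y z + 2 * Om x y * Om z w)

theorem Om_add_right (x y y' : EuclideanSpace ℝ (Fin d)) : Om x (y + y') = Om x y + Om x y' := by
  rw [Om_swap (y + y') x, Om_add, Om_swap y x, Om_swap y' x]; ring

theorem Om_smul_right (c : ℝ) (x y : EuclideanSpace ℝ (Fin d)) : Om x (c • y) = c * Om x y := by
  rw [Om_swap (c • y) x, Om_smul, Om_swap y x]; ring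

theorem Rex_alg : AlgCurv (Rex (d := d)) where
  add1 u u' v w z := by
    unfold Rex
    simp only [inner_add_left, Om_add]
    ring
  smul1 c u v w z := by
    unfold Rex
    simp only [real_inner_smul_left, Om_smul]
    ring
  anti u v w z := by
    unfold Rex
    rw [Om_swap u v]
    ring
  pair u v w z := by
    unfold Rex
    rw [Om_swap u w, Om_swap v z, Om_swap v w, Om_swap u z, real_inner_comm u w,
      real_inner_comm v z, real_inner_comm v w, real_inner_comm u z]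
    ring
  bianchi u v w z := by
    unfold Rex
    rw [real_inner_comm v w, real_inner_comm z v, real_inner_comm z w, Om_swap v w, Om_swap v z,
      Om_swap w z]
    ring

theorem Rex_bound (x y z w : EuclideanSpace ℝ (Fin d)) :
    |Rex x y z w| ≤ (2 * (2 * ((d / 2 : ℕ) : ℝ) + 1) + 4) * (‖x‖ * ‖y‖ * ‖z‖ * ‖w‖) := by
  have i1 := abs_real_inner_le_norm x z
  have i2 := abs_real_inner_le_norm y w
  have i3 := abs_real_inner_le_norm x w
  have i4 := abs_real_inner_le_norm y z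
  have o1 := Om_bound x z
  have o2 := Om_bound y w
  have o3 := Om_bound x w
  have o4 := Om_bound y z
  have o5 := Om_bound x y
  have o6 := Om_bound z w
  have m1 : |inner ℝ x z * inner ℝ y w| ≤ ‖x‖ * ‖y‖ * ‖z‖ * ‖w‖ := by
    rw [abs_mul]
    calc _ ≤ (‖x‖ * ‖z‖) * (‖y‖ * ‖w‖) := mul_le_mul i1 i2 (abs_nonneg _) (by positivity)
      _ = _ := by ring
  have m2 : |inner ℝ x w * inner ℝ y z| ≤ ‖x‖ * ‖y‖ * ‖z‖ * ‖w‖ := by
    rw [abs_mul]
    calc _ ≤ (‖x‖ * ‖w‖) * (‖y‖ * ‖z‖) := mul_le_mul i3 i4 (abs_nonneg _) (by positivity)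
      _ = _ := by ring
  have m3 : |Om x z * Om y w| ≤ ‖x‖ * ‖y‖ * ‖z‖ * ‖w‖ := by
    rw [abs_mul]
    calc _ ≤ (‖x‖ * ‖z‖) * (‖y‖ * ‖w‖) := mul_le_mul o1 o2 (abs_nonneg _) (by positivity)
      _ = _ := by ring
  have m4 : |Om x w * Om y z| ≤ ‖x‖ * ‖y‖ * ‖z‖ * ‖w‖ := by
    rw [abs_mul]
    calc _ ≤ (‖x‖ * ‖w‖) * (‖y‖ * ‖z‖) := mul_le_mul o3 o4 (abs_nonneg _) (by positivity)
      _ = _ := by ring
  have m5 : |Om x y * Om z w| ≤ ‖x‖ * ‖y‖ * ‖z‖ * ‖w‖ := by
    rw [abs_mul]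
    calc _ ≤ (‖x‖ * ‖y‖) * (‖z‖ * ‖w‖) := mul_le_mul o5 o6 (abs_nonneg _) (by positivity)
      _ = _ := by ring
  unfold Rex
  rw [abs_le] at m1 m2 m3 m4 m5 ⊢
  have hp : (0:ℝ) ≤ ((d / 2 : ℕ) : ℝ) := by positivity
  constructor <;> nlinarith [m1.1, m1.2, m2.1, m2.2, m3.1, m3.2, m4.1, m4.2, m5.1, m5.2]

theorem Rex_orth {x y : EuclideanSpace ℝ (Fin d)} (h : inner ℝ x y = 0) :
    Rex x y x y = (2 * ((d / 2 : ℕ) : ℝ) + 1) * (‖x‖ ^ 2 * ‖y‖ ^ 2) - 3 * Om x y ^ 2 := by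
  unfold Rex
  have h1 : Om x x = 0 := by have := Om_swap x x; linarith
  have h2 : inner ℝ y x = 0 := by rw [real_inner_comm]; exact h
  rw [h1, h, h2, Om_swap x y, real_inner_self_eq_norm_sq, real_inner_self_eq_norm_sq]
  ring

theorem Rex_orth_le {x y : EuclideanSpace ℝ (Fin d)} (h : inner ℝ x y = 0) :
    Rex x y x y ≤ (2 * ((d / 2 : ℕ) : ℝ) + 1) * (‖x‖ ^ 2 * ‖y‖ ^ 2) := by
  rw [Rex_orth h]; nlinarith [sq_nonneg (Om x y)]

theorem Rex_orth_ge {x y : EuclideanSpace ℝ (Fin d)} (h : inner ℝ x y = 0) :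
    (2 * ((d / 2 : ℕ) : ℝ) - 2) * (‖x‖ ^ 2 * ‖y‖ ^ 2) ≤ Rex x y x y := by
  rw [Rex_orth h]
  have h1 : Om x y ^ 2 ≤ (‖x‖ * ‖y‖) ^ 2 := by
    rw [← sq_abs]
    exact pow_le_pow_left₀ (abs_nonneg _) (Om_bound x y) 2
  rw [mul_pow] at h1
  nlinarith

/-- The vectors of the null 2-vector. -/
noncomputable def ee (i : Fin (d / 2)) : EuclideanSpace ℝ (Fin d) :=
  EuclideanSpace.single ⟨2 * i, by omega⟩ 1

/-- The vectors of the null 2-vector. -/
noncomputable def ff (i : Fin (d / 2)) : EuclideanSpace ℝ (Fin d) :=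
  EuclideanSpace.single ⟨2 * i + 1, by omega⟩ 1

theorem Om_ee_ee (i j : Fin (d / 2)) : Om (ee i) (ee (d := d) j) = 0 := by
  unfold Om ee
  apply Finset.sum_eq_zero
  intro k _
  have h1 : ∀ l : Fin (d / 2), (EuclideanSpace.single (⟨2 * l.1, by omega⟩ : Fin d) (1:ℝ))
      (⟨2 * k.1 + 1, by omega⟩ : Fin d) = 0 := by
    intro l
    rw [EuclideanSpace.single_apply, if_neg]
    simp only [Fin.mk.injEq]; omega
  rw [h1, h1]; ring

theorem Om_ff_ff (i j : Fin (d / 2)) : Om (ff i) (ff (d := d) j) = 0 := by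
  unfold Om ff
  apply Finset.sum_eq_zero
  intro k _
  have h1 : ∀ l : Fin (d / 2), (EuclideanSpace.single (⟨2 * l.1 + 1, by omega⟩ : Fin d) (1:ℝ))
      (⟨2 * k.1, by omega⟩ : Fin d) = 0 := by
    intro l
    rw [EuclideanSpace.single_apply, if_neg]
    simp only [Fin.mk.injEq]; omega
  rw [h1, h1]; ring

theorem Om_ee_ff (i j : Fin (d / 2)) : Om (ee i) (ff (d := d) j) = if i = j then 1 else 0 := by
  unfold Om ee ff
  simp only [EuclideanSpace.single_apply, Fin.mk.injEq]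
  rw [Finset.sum_eq_single i]
  · by_cases hij : i = j
    · subst hij; simp
    · have h2 : i.1 ≠ j.1 := fun h => hij (Fin.ext h)
      rw [if_neg hij]
      have h3 : ¬ (2 * i.1 + 1 = 2 * j.1 + 1) := by omega
      have h4 : ¬ (2 * i.1 + 1 = 2 * i.1) := by omega
      simp [h3]
      omega
  · intro k _ hk
    have h2 : k.1 ≠ i.1 := fun h => hk (Fin.ext h)
    have h3 : ¬ (2 * k.1 = 2 * i.1) := by omega
    have h4 : ¬ (2 * k.1 + 1 = 2 * i.1) := by omega
    simp [h3, h4]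
  · intro h; exact absurd (Finset.mem_univ _) h

theorem inner_ee_ee (i j : Fin (d / 2)) : inner ℝ (ee i) (ee (d := d) j) = if i = j then 1 else 0 := by
  unfold ee
  rw [EuclideanSpace.inner_single_left, EuclideanSpace.single_apply]
  by_cases hij : i = j
  · subst hij; simp
  · have h2 : i.1 ≠ j.1 := fun h => hij (Fin.ext h)
    rw [if_neg hij, if_neg]
    · simp
    · simp only [Fin.mk.injEq]; omega

theorem inner_ff_ff (i j : Fin (d / 2)) : inner ℝ (ff i) (ff (d := d) j) = if i = j then 1 else 0 := by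
  unfold ff
  rw [EuclideanSpace.inner_single_left, EuclideanSpace.single_apply]
  by_cases hij : i = j
  · subst hij; simp
  · have h2 : i.1 ≠ j.1 := fun h => hij (Fin.ext h)
    rw [if_neg hij, if_neg]
    · simp
    · simp only [Fin.mk.injEq]; omega

theorem inner_ee_ff (i j : Fin (d / 2)) : inner ℝ (ee i) (ff (d := d) j) = 0 := by
  unfold ee ff
  rw [EuclideanSpace.inner_single_left, EuclideanSpace.single_apply, if_neg]
  · simp
  · simp only [Fin.mk.injEq]; omega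

theorem Rex_null : ∑ i, ∑ j, Rex (ee i) (ff (d := d) i) (ee j) (ff j) = 0 := by
  have h : ∀ i j : Fin (d / 2), Rex (ee i) (ff (d := d) i) (ee j) (ff j)
      = (if i = j then 2 * ((d / 2 : ℕ) : ℝ) else 0) - 2 := by
    intro i j
    unfold Rex
    have h1 : Om (ff (d := d) i) (ee j) = - (if i = j then 1 else 0) := by
      rw [Om_swap (ee j) (ff i), Om_ee_ff]
      by_cases hij : i = j
      · subst hij; simp
      · rw [if_neg hij, if_neg (Ne.symm hij)]
    have h2 : inner ℝ (ff (d := d) i) (ee j) = 0 := by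
      rw [real_inner_comm, inner_ee_ff]
    rw [Om_ee_ee, Om_ff_ff, Om_ee_ff, Om_ee_ff, Om_ee_ff, h1, inner_ee_ee, inner_ff_ff,
      inner_ee_ff, h2]
    by_cases hij : i = j
    · subst hij; simp; ring
    · simp [hij]
  simp only [h, Finset.sum_sub_distrib, Finset.sum_ite_eq, Finset.mem_univ, if_true,
    Finset.sum_const, Finset.card_univ, Fintype.card_fin, nsmul_eq_mul]
  ring

end Alg

end Pool.Agent.Lib_helper77
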