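import Mathlib
import Pool.Agent.Lib_helper77.CurvExample

/-!
The metric with prescribed curvature at the origin.
-/

set_option autoImplicit false
set_option maxSynthPendingDepth 3

open scoped Manifold ContDiff Topology

namespace Pool.Agent.Lib_helper77

section

variable {E : Type} [NormedAddCommGroup E] [InnerProductSpace ℝ E] [FiniteDimensional ℝ E]
  {R : E → E → E → E → ℝ}

/-- The curvature tensor as a continuous bilinear map in arguments one and three. -/
noncomputable def bil13 (h : AlgCurv R) (c e : E) : E →L[ℝ] E →L[ℝ] ℝ :=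
  LinearMap.toContinuousLinearMap
    { toFun := fun y => LinearMap.toContinuousLinearMap
        { toFun := fun y' => R y c y' e
          map_add' := fun a b => h.add3 y c a b e
          map_smul' := fun r a => h.smul3 r y c a e }
      map_add' := fun a b => by ext y'; exact h.add1 a b c y' e
      map_smul' := fun r a => by ext y'; exact h.smul1 r a c y' e }

theorem bil13_apply (h : AlgCurv R) (c e y y' : E) : bil13 h c e y y' = R y c y' e := rfl

theorem hasFDerivAt_quad (h : AlgCurv R) (c e x : E) :
    HasFDerivAt (fun y => R y c y e) (bil13 h c e x + (bil13 h c e).flip x) x := by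
  have h1 := (bil13 h c e).hasFDerivAt_of_bilinear (hasFDerivAt_id x) (hasFDerivAt_id x)
  refine HasFDerivAt.congr_fderiv (f' := _) h1 ?_
  ext a
  simp

/-- The metric field. -/
noncomputable def Gm (R : E → E → E → E → ℝ) (y u v : E) : ℝ := inner ℝ u v - 1 / 3 * R y u y v

theorem fderiv_Gm (h : AlgCurv R) (c e x a : E) :
    fderiv ℝ (fun y => Gm R y c e) x a = - (1 / 3) * (R x c a e + R a c x e) := by
  have h1 : HasFDerivAt (fun y => Gm R y c e)
      (- ((1 / 3 : ℝ) • (bil13 h c e x + (bil13 h c e).flip x))) x := by
    have := ((hasFDerivAt_quad h c e x).const_mul (1 / 3 : ℝ)).const_sub (inner ℝ c e : ℝ)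
    exact this
  rw [h1.fderiv]
  simp [bil13_apply]
  ring

theorem secondDeriv_Gm (h : AlgCurv R) (x a b c e : E) :
    secondDeriv (Gm R) x a b c e = - (1 / 3) * (R a c b e + R b c a e) := by
  unfold secondDeriv
  simp only [fderiv_Gm h]
  have h1 : HasFDerivAt (fun y => - (1 / 3 : ℝ) * (R y c b e + R b c y e))
      ((- (1 / 3 : ℝ)) • ((bil13 h c e).flip b + bil13 h c e b)) x := by
    apply HasFDerivAt.const_mul
    exact ((bil13 h c e).flip b).hasFDerivAt.add (bil13 h c e b).hasFDerivAt
  rw [h1.fderiv]
  simp [bil13_apply]
  ring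

theorem Gm_nice (h : AlgCurv R) {x : E} (hx : ∀ u, u ≠ 0 → 0 < Gm R x u u) : Nice (Gm R) x where
  add y u u' v := by
    unfold Gm
    rw [inner_add_left, h.add2]; ring
  smul y c u v := by
    unfold Gm
    rw [real_inner_smul_left, h.smul2]; ring
  symm y u v := by
    unfold Gm
    rw [real_inner_comm, h.pair]
  pos := hx
  smooth u v := by
    have h1 : ContDiff ℝ 2 (fun y => bil13 h u v y y) :=
      ((bil13 h u v).contDiff).clm_apply contDiff_id
    have h2 : ContDiff ℝ 2 (fun y => Gm R y u v) := by
      unfold Gm
      exact contDiff_const.sub (contDiff_const.mul h1)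
    exact h2.contDiffAt

/-- The second-derivative part of the curvature of `Gm R` is `R`. -/
theorem curv_Gm (h : AlgCurv R) (x u v w z : E) : curvCoord (Gm R) x u v w z = R u v w z
    + Gm R x (christoffel (Gm R) x v w) (christoffel (Gm R) x u z)
    - Gm R x (christoffel (Gm R) x v z) (christoffel (Gm R) x u w) := by
  unfold curvCoord
  simp only [secondDeriv_Gm h]
  have e1 := h.anti u v w z
  have e2 := h.anti2 u v w z
  have e3 := h.anti u v z w
  have e4 := h.bianchi u v w z
  have e5 := h.pair z v u w
  have e6 := h.pair w v u z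
  have e7 := h.anti w v u z
  have e8 := h.anti2 u z v w
  have e9 := h.anti2 u w v z
  have e10 := h.anti u w v z
  have e11 := h.anti u z v w
  have e12 := h.pair v w u z
  have e13 := h.pair v z u w
  have e14 := h.anti v z u w
  have e15 := h.anti v w u z
  have e16 := h.anti2 u w z v
  have e17 := h.anti2 u z w v
  linarith

end

end Pool.Agent.Lib_helper77
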