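import Mathlib
import Pool.Agent.Lib_helper77.CurvMetric

/-!
Curvature estimates for the example metric.
-/

set_option autoImplicit false
set_option maxSynthPendingDepth 3

open scoped Manifold ContDiff Topology

namespace Pool.Agent.Lib_helper77

section Reduce

variable {E : Type} [NormedAddCommGroup E] [InnerProductSpace ℝ E]

/-- The component of `v` orthogonal to `u`. -/
noncomputable def perp (u v : E) : E := v - (inner ℝ u v / ‖u‖ ^ 2 : ℝ) • u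

theorem inner_perp {u : E} (hu : u ≠ 0) (v : E) : inner ℝ u (perp u v) = 0 := by
  unfold perp
  rw [inner_sub_right, inner_smul_right, real_inner_self_eq_norm_sq]
  have : ‖u‖ ^ 2 ≠ 0 := by
    have := norm_pos_iff.mpr hu
    positivity
  field_simp
  ring

theorem li_ne {u v : E} (h : LinearIndependent ℝ ![u, v]) : u ≠ 0 := by
  have := h.ne_zero 0
  simpa using this

theorem perp_ne {u v : E} (h : LinearIndependent ℝ ![u, v]) : perp u v ≠ 0 := by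
  intro h0
  unfold perp at h0
  rw [LinearIndependent.pair_iff] at h
  have := h (-(inner ℝ u v / ‖u‖ ^ 2 : ℝ)) 1 (by rw [← h0]; module)
  exact one_ne_zero this.2

theorem curv_perp {R : E → E → E → E → ℝ} (h : AlgCurv R) (u v : E) :
    R u (perp u v) u (perp u v) = R u v u v := by
  unfold perp
  set c := (inner ℝ u v / ‖u‖ ^ 2 : ℝ)
  have h1 : ∀ w z, R u u w z = 0 := by
    intro w z
    have := h.anti u u w z
    linarith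
  have h2 : ∀ w z, R w z u u = 0 := by
    intro w z
    rw [h.pair]; exact h1 _ _
  rw [sub_eq_add_neg, ← neg_smul, h.add2, h.add4, h.add4, h.smul2, h.smul2, h.smul4, h1, h1, h2]
  ring

theorem gram_perp {G : E → E → E → ℝ} {x : E} (h : Nice G x) (u v : E) :
    G x u u * G x (perp u v) (perp u v) - G x u (perp u v) ^ 2
      = G x u u * G x v v - G x u v ^ 2 := by
  unfold perp
  set c := (inner ℝ u v / ‖u‖ ^ 2 : ℝ)
  rw [sub_eq_add_neg v (c • u), ← neg_smul, h.add, h.add_right, h.add_right, h.add_right, h.smul, h.smul,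
    h.smul_right, h.smul_right, h.symm x v u]
  ring

end Reduce

section Est

variable {d : ℕ}

/-- The constant in the bound for `Rex`. -/
noncomputable def Cd (d : ℕ) : ℝ := 2 * (2 * ((d / 2 : ℕ) : ℝ) + 1) + 4

theorem Cd_pos : 0 < Cd d := by unfold Cd; positivity

/-- The example metric. -/
noncomputable def Gx (d : ℕ) : EuclideanSpace ℝ (Fin d) → EuclideanSpace ℝ (Fin d) →
    EuclideanSpace ℝ (Fin d) → ℝ := Gm (Rex (d := d))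

theorem Gx_sub_inner (x u v : EuclideanSpace ℝ (Fin d)) :
    |Gx d x u v - inner ℝ u v| ≤ Cd d / 3 * ‖x‖ ^ 2 * (‖u‖ * ‖v‖) := by
  have h := Rex_bound x u x v
  unfold Gx Gm
  have : (inner ℝ u v - 1 / 3 * Rex x u x v - inner ℝ u v : ℝ) = - (1 / 3 * Rex x u x v) := by ring
  rw [this, abs_neg, abs_mul, abs_of_pos (by norm_num : (0:ℝ) < 1 / 3)]
  have : (2 * (2 * ((d / 2 : ℕ) : ℝ) + 1) + 4) = Cd d := rfl
  rw [this] at h
  nlinarith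

theorem Gx_diag (x u : EuclideanSpace ℝ (Fin d)) :
    (1 - Cd d / 3 * ‖x‖ ^ 2) * ‖u‖ ^ 2 ≤ Gx d x u u ∧
      Gx d x u u ≤ (1 + Cd d / 3 * ‖x‖ ^ 2) * ‖u‖ ^ 2 := by
  have h := Gx_sub_inner x u u
  rw [real_inner_self_eq_norm_sq, abs_le] at h
  constructor <;> nlinarith [h.1, h.2]

theorem Gx_pos {x : EuclideanSpace ℝ (Fin d)} (hx : Cd d / 3 * ‖x‖ ^ 2 ≤ 1 / 2)
    (u : EuclideanSpace ℝ (Fin d)) : ‖u‖ ^ 2 / 2 ≤ Gx d x u u := by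
  have h := (Gx_diag x u).1
  nlinarith [sq_nonneg ‖u‖]

theorem Gx_nice {x : EuclideanSpace ℝ (Fin d)} (hx : Cd d / 3 * ‖x‖ ^ 2 ≤ 1 / 2) :
    Nice (Gx d) x := by
  apply Gm_nice Rex_alg
  intro u hu
  have h1 := Gx_pos hx u
  have h2 := norm_pos_iff.mpr hu
  have h3 : 0 < ‖u‖ ^ 2 / 2 := by positivity
  exact lt_of_lt_of_le h3 h1

theorem Gx_abs_le {x : EuclideanSpace ℝ (Fin d)} (hx : Cd d / 3 * ‖x‖ ^ 2 ≤ 1 / 2)
    (u v : EuclideanSpace ℝ (Fin d)) : |Gx d x u v| ≤ 3 / 2 * (‖u‖ * ‖v‖) := by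
  have h := Gx_sub_inner x u v
  have h2 := abs_real_inner_le_norm u v
  have h3 : |Gx d x u v| ≤ |Gx d x u v - inner ℝ u v| + |inner ℝ u v| := by
    have := abs_add_le (Gx d x u v - inner ℝ u v) (inner ℝ u v)
    simpa using this
  have h4 : 0 ≤ ‖u‖ * ‖v‖ := by positivity
  nlinarith

theorem cf_bound (x u v w : EuclideanSpace ℝ (Fin d)) :
    |christoffelFirst (Gx d) x u v w| ≤ Cd d * ‖x‖ * (‖u‖ * ‖v‖ * ‖w‖) := by
  unfold christoffelFirst Gx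
  rw [fderiv_Gm Rex_alg, fderiv_Gm Rex_alg, fderiv_Gm Rex_alg]
  have b1 := Rex_bound x v u w
  have b2 := Rex_bound u v x w
  have b3 := Rex_bound x u v w
  have b4 := Rex_bound v u x w
  have b5 := Rex_bound x u w v
  have b6 := Rex_bound w u x v
  have : (2 * (2 * ((d / 2 : ℕ) : ℝ) + 1) + 4) = Cd d := rfl
  rw [this, abs_le] at b1 b2 b3 b4 b5 b6
  rw [abs_le]
  set K := Cd d * ‖x‖ * (‖u‖ * ‖v‖ * ‖w‖) with hK
  have e1 : Cd d * (‖x‖ * ‖v‖ * ‖u‖ * ‖w‖) = K := by rw [hK]; ring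
  have e2 : Cd d * (‖u‖ * ‖v‖ * ‖x‖ * ‖w‖) = K := by rw [hK]; ring
  have e3 : Cd d * (‖x‖ * ‖u‖ * ‖v‖ * ‖w‖) = K := by rw [hK]; ring
  have e4 : Cd d * (‖v‖ * ‖u‖ * ‖x‖ * ‖w‖) = K := by rw [hK]; ring
  have e5 : Cd d * (‖x‖ * ‖u‖ * ‖w‖ * ‖v‖) = K := by rw [hK]; ring
  have e6 : Cd d * (‖w‖ * ‖u‖ * ‖x‖ * ‖v‖) = K := by rw [hK]; ring
  rw [e1] at b1
  rw [e2] at b2
  rw [e3] at b3
  rw [e4] at b4
  rw [e5] at b5
  rw [e6] at b6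
  constructor <;> linarith [b1.1, b1.2, b2.1, b2.2, b3.1, b3.2, b4.1, b4.2, b5.1, b5.2, b6.1, b6.2]

theorem christoffel_bound {x : EuclideanSpace ℝ (Fin d)} (hx : Cd d / 3 * ‖x‖ ^ 2 ≤ 1 / 2)
    (u v : EuclideanSpace ℝ (Fin d)) :
    ‖christoffel (Gx d) x u v‖ ≤ 2 * Cd d * ‖x‖ * (‖u‖ * ‖v‖) := by
  set Γ := christoffel (Gx d) x u v with hΓ
  have h1 := (Gx_nice hx).christoffel_spec u v Γ
  rw [← hΓ] at h1
  have h2 := Gx_pos hx Γ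
  have h3 := cf_bound x u v Γ
  rw [h1] at h2
  have h4 := (abs_le.mp h3).2
  by_contra hcon
  push Not at hcon
  have h5 : 0 ≤ 2 * Cd d * ‖x‖ * (‖u‖ * ‖v‖) := by
    have := Cd_pos (d := d)
    positivity
  have h6 : 0 < ‖Γ‖ := lt_of_le_of_lt h5 hcon
  nlinarith

theorem T_bound {x : EuclideanSpace ℝ (Fin d)} (hx : Cd d / 3 * ‖x‖ ^ 2 ≤ 1 / 2)
    (u v : EuclideanSpace ℝ (Fin d)) :
    |curvCoord (Gx d) x u v u v - Rex u v u v| ≤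
      12 * Cd d ^ 2 * ‖x‖ ^ 2 * (‖u‖ ^ 2 * ‖v‖ ^ 2) := by
  have h0 := curv_Gm (Rex_alg (d := d)) x u v u v
  have h1 : curvCoord (Gx d) x u v u v - Rex u v u v =
      Gx d x (christoffel (Gx d) x v u) (christoffel (Gx d) x u v)
      - Gx d x (christoffel (Gx d) x v v) (christoffel (Gx d) x u u) := by
    unfold Gx
    rw [h0]; ring
  rw [h1]
  have hC := Cd_pos (d := d)
  have a1 := Gx_abs_le hx (christoffel (Gx d) x v u) (christoffel (Gx d) x u v)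
  have a2 := Gx_abs_le hx (christoffel (Gx d) x v v) (christoffel (Gx d) x u u)
  have c1 := christoffel_bound hx v u
  have c2 := christoffel_bound hx u v
  have c3 := christoffel_bound hx v v
  have c4 := christoffel_bound hx u u
  have p1 : ‖christoffel (Gx d) x v u‖ * ‖christoffel (Gx d) x u v‖ ≤
      (2 * Cd d * ‖x‖ * (‖v‖ * ‖u‖)) * (2 * Cd d * ‖x‖ * (‖u‖ * ‖v‖)) :=
    mul_le_mul c1 c2 (norm_nonneg _) (by positivity)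
  have p2 : ‖christoffel (Gx d) x v v‖ * ‖christoffel (Gx d) x u u‖ ≤
      (2 * Cd d * ‖x‖ * (‖v‖ * ‖v‖)) * (2 * Cd d * ‖x‖ * (‖u‖ * ‖u‖)) :=
    mul_le_mul c3 c4 (norm_nonneg _) (by positivity)
  refine (abs_sub _ _).trans ?_
  have e1 : (2 * Cd d * ‖x‖ * (‖v‖ * ‖u‖)) * (2 * Cd d * ‖x‖ * (‖u‖ * ‖v‖))
      = 4 * Cd d ^ 2 * ‖x‖ ^ 2 * (‖u‖ ^ 2 * ‖v‖ ^ 2) := by ring
  have e2 : (2 * Cd d * ‖x‖ * (‖v‖ * ‖v‖)) * (2 * Cd d * ‖x‖ * (‖u‖ * ‖u‖))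
      = 4 * Cd d ^ 2 * ‖x‖ ^ 2 * (‖u‖ ^ 2 * ‖v‖ ^ 2) := by ring
  rw [e1] at p1
  rw [e2] at p2
  linarith

/-- Bounds for the sectional curvature of orthogonal pairs. -/
theorem sec_bounds_orth {x : EuclideanSpace ℝ (Fin d)} (hx : Cd d / 3 * ‖x‖ ^ 2 < 1 / 2)
    {u v : EuclideanSpace ℝ (Fin d)} (hu : u ≠ 0) (hv : v ≠ 0) (huv : inner ℝ u v = 0)
    (ha : 0 < 2 * ((d / 2 : ℕ) : ℝ) - 2 - 12 * Cd d ^ 2 * ‖x‖ ^ 2) :
    (2 * ((d / 2 : ℕ) : ℝ) - 2 - 12 * Cd d ^ 2 * ‖x‖ ^ 2) / (1 + Cd d / 3 * ‖x‖ ^ 2) ^ 2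
      ≤ curvCoord (Gx d) x u v u v / (Gx d x u u * Gx d x v v - Gx d x u v ^ 2) ∧
    curvCoord (Gx d) x u v u v / (Gx d x u u * Gx d x v v - Gx d x u v ^ 2)
      ≤ (2 * ((d / 2 : ℕ) : ℝ) + 1 + 12 * Cd d ^ 2 * ‖x‖ ^ 2) / (1 - 2 * (Cd d / 3 * ‖x‖ ^ 2)) := by
  set η := Cd d / 3 * ‖x‖ ^ 2 with hη
  set N := ‖u‖ ^ 2 * ‖v‖ ^ 2 with hN
  have hη0 : 0 ≤ η := by
    have := Cd_pos (d := d)
    positivity
  have hNpos : 0 < N := by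
    have := norm_pos_iff.mpr hu
    have := norm_pos_iff.mpr hv
    positivity
  have hT := abs_le.mp (T_bound hx.le u v)
  have hR1 := Rex_orth_le huv
  have hR2 := Rex_orth_ge huv
  obtain ⟨du1, du2⟩ := Gx_diag x u
  obtain ⟨dv1, dv2⟩ := Gx_diag x v
  have duv := Gx_sub_inner x u v
  rw [huv, sub_zero] at duv
  rw [← hη] at du1 du2 dv1 dv2 duv
  rw [← hN] at hT hR1 hR2
  have hu2 : 0 ≤ ‖u‖ ^ 2 := by positivity
  have hv2 : 0 ≤ ‖v‖ ^ 2 := by positivity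
  have hg1 : 0 ≤ Gx d x u v ^ 2 := sq_nonneg _
  have hg2 : Gx d x u v ^ 2 ≤ η ^ 2 * N := by
    have : Gx d x u v ^ 2 ≤ (η * (‖u‖ * ‖v‖)) ^ 2 := by
      rw [← sq_abs]
      exact pow_le_pow_left₀ (abs_nonneg _) duv 2
    calc _ ≤ _ := this
      _ = η ^ 2 * N := by rw [hN]; ring
  have hlow : (1 - 2 * η) * N ≤ Gx d x u u * Gx d x v v - Gx d x u v ^ 2 := by
    have h1 : ((1 - η) * ‖u‖ ^ 2) * ((1 - η) * ‖v‖ ^ 2) ≤ Gx d x u u * Gx d x v v :=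
      mul_le_mul du1 dv1 (mul_nonneg (by linarith) hv2) (le_trans (mul_nonneg (by linarith) hu2) du1)
    have h2 : ((1 - η) * ‖u‖ ^ 2) * ((1 - η) * ‖v‖ ^ 2) = (1 - η) ^ 2 * N := by rw [hN]; ring
    nlinarith
  have hhigh : Gx d x u u * Gx d x v v - Gx d x u v ^ 2 ≤ (1 + η) ^ 2 * N := by
    have h1 : Gx d x u u * Gx d x v v ≤ ((1 + η) * ‖u‖ ^ 2) * ((1 + η) * ‖v‖ ^ 2) :=
      mul_le_mul du2 dv2 (le_trans (mul_nonneg (by linarith) hv2) dv1) (by positivity)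
    have h2 : ((1 + η) * ‖u‖ ^ 2) * ((1 + η) * ‖v‖ ^ 2) = (1 + η) ^ 2 * N := by rw [hN]; ring
    linarith
  have hgpos : 0 < Gx d x u u * Gx d x v v - Gx d x u v ^ 2 :=
    lt_of_lt_of_le (mul_pos (by linarith) hNpos) hlow
  have hc1 : (2 * ((d / 2 : ℕ) : ℝ) - 2 - 12 * Cd d ^ 2 * ‖x‖ ^ 2) * N
      ≤ curvCoord (Gx d) x u v u v := by linarith [hT.1]
  have hc2 : curvCoord (Gx d) x u v u v
      ≤ (2 * ((d / 2 : ℕ) : ℝ) + 1 + 12 * Cd d ^ 2 * ‖x‖ ^ 2) * N := by linarith [hT.2]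
  constructor
  · rw [div_le_div_iff₀ (by positivity) hgpos]
    calc (2 * ((d / 2 : ℕ) : ℝ) - 2 - 12 * Cd d ^ 2 * ‖x‖ ^ 2) *
          (Gx d x u u * Gx d x v v - Gx d x u v ^ 2)
        ≤ (2 * ((d / 2 : ℕ) : ℝ) - 2 - 12 * Cd d ^ 2 * ‖x‖ ^ 2) * ((1 + η) ^ 2 * N) :=
          mul_le_mul_of_nonneg_left hhigh ha.le
      _ = ((2 * ((d / 2 : ℕ) : ℝ) - 2 - 12 * Cd d ^ 2 * ‖x‖ ^ 2) * N) * (1 + η) ^ 2 := by ring
      _ ≤ curvCoord (Gx d) x u v u v * (1 + η) ^ 2 :=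
          mul_le_mul_of_nonneg_right hc1 (by positivity)
  · have hA : 0 < 2 * ((d / 2 : ℕ) : ℝ) + 1 + 12 * Cd d ^ 2 * ‖x‖ ^ 2 := by positivity
    rw [div_le_div_iff₀ hgpos (by linarith)]
    calc curvCoord (Gx d) x u v u v * (1 - 2 * η)
        ≤ ((2 * ((d / 2 : ℕ) : ℝ) + 1 + 12 * Cd d ^ 2 * ‖x‖ ^ 2) * N) * (1 - 2 * η) :=
          mul_le_mul_of_nonneg_right hc2 (by linarith)
      _ = (2 * ((d / 2 : ℕ) : ℝ) + 1 + 12 * Cd d ^ 2 * ‖x‖ ^ 2) * ((1 - 2 * η) * N) := by ring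
      _ ≤ _ := mul_le_mul_of_nonneg_left hlow hA.le

theorem sec_bounds {x : EuclideanSpace ℝ (Fin d)} (hx : Cd d / 3 * ‖x‖ ^ 2 < 1 / 2)
    {u v : EuclideanSpace ℝ (Fin d)} (huv : LinearIndependent ℝ ![u, v])
    (ha : 0 < 2 * ((d / 2 : ℕ) : ℝ) - 2 - 12 * Cd d ^ 2 * ‖x‖ ^ 2) :
    (2 * ((d / 2 : ℕ) : ℝ) - 2 - 12 * Cd d ^ 2 * ‖x‖ ^ 2) / (1 + Cd d / 3 * ‖x‖ ^ 2) ^ 2
      ≤ curvCoord (Gx d) x u v u v / (Gx d x u u * Gx d x v v - Gx d x u v ^ 2) ∧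
    curvCoord (Gx d) x u v u v / (Gx d x u u * Gx d x v v - Gx d x u v ^ 2)
      ≤ (2 * ((d / 2 : ℕ) : ℝ) + 1 + 12 * Cd d ^ 2 * ‖x‖ ^ 2) / (1 - 2 * (Cd d / 3 * ‖x‖ ^ 2)) := by
  have hN := Gx_nice hx.le
  have h := sec_bounds_orth hx (li_ne huv) (perp_ne huv) (inner_perp (li_ne huv) v) ha
  rw [curv_perp hN.algCurv, gram_perp hN] at h
  exact h

/-- A radius on which the metric is `δ`-pinched. -/
theorem exists_radius {δ : ℝ} (hδ0 : 0 < δ)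
    (hδ : δ < (2 * ((d / 2 : ℕ) : ℝ) - 2) / (2 * ((d / 2 : ℕ) : ℝ) + 1)) :
    ∃ r : ℝ, 0 < r ∧ ∀ x : EuclideanSpace ℝ (Fin d), ‖x‖ < r →
      Cd d / 3 * ‖x‖ ^ 2 < 1 / 2 ∧ 0 < 2 * ((d / 2 : ℕ) : ℝ) - 2 - 12 * Cd d ^ 2 * ‖x‖ ^ 2 ∧
      δ * ((2 * ((d / 2 : ℕ) : ℝ) + 1 + 12 * Cd d ^ 2 * ‖x‖ ^ 2) / (1 - 2 * (Cd d / 3 * ‖x‖ ^ 2)))
        ≤ (2 * ((d / 2 : ℕ) : ℝ) - 2 - 12 * Cd d ^ 2 * ‖x‖ ^ 2) / (1 + Cd d / 3 * ‖x‖ ^ 2) ^ 2 := by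
  set p : ℝ := ((d / 2 : ℕ) : ℝ) with hp
  set C := Cd d
  have hp0 : 0 ≤ p := by positivity
  have hk : (0:ℝ) < 2 * p + 1 := by positivity
  have hδ' : δ * (2 * p + 1) < 2 * p - 2 := by rwa [lt_div_iff₀ hk] at hδ
  have hp2 : 0 < 2 * p - 2 := lt_trans (mul_pos hδ0 hk) hδ'
  have c1 : Continuous (fun t : ℝ => C / 3 * t ^ 2) := by fun_prop
  have c2 : Continuous (fun t : ℝ => 2 * p - 2 - 12 * C ^ 2 * t ^ 2) := by fun_prop
  have c3 : ContinuousAt (fun t : ℝ => δ * ((2 * p + 1 + 12 * C ^ 2 * t ^ 2) /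
      (1 - 2 * (C / 3 * t ^ 2)))) 0 := by
    apply ContinuousAt.mul continuousAt_const
    apply ContinuousAt.div (by fun_prop) (by fun_prop)
    norm_num
  have c4 : ContinuousAt (fun t : ℝ => (2 * p - 2 - 12 * C ^ 2 * t ^ 2) /
      (1 + C / 3 * t ^ 2) ^ 2) 0 := by
    apply ContinuousAt.div (by fun_prop) (by fun_prop)
    norm_num
  have e1 : ∀ᶠ t in 𝓝 (0:ℝ), C / 3 * t ^ 2 < 1 / 2 :=
    c1.continuousAt.eventually_lt continuousAt_const (by norm_num)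
  have e2 : ∀ᶠ t in 𝓝 (0:ℝ), 0 < 2 * p - 2 - 12 * C ^ 2 * t ^ 2 :=
    continuousAt_const.eventually_lt c2.continuousAt (by simpa using hp2)
  have e3 : ∀ᶠ t in 𝓝 (0:ℝ), δ * ((2 * p + 1 + 12 * C ^ 2 * t ^ 2) / (1 - 2 * (C / 3 * t ^ 2)))
      < (2 * p - 2 - 12 * C ^ 2 * t ^ 2) / (1 + C / 3 * t ^ 2) ^ 2 :=
    c3.eventually_lt c4 (by simpa using hδ')
  obtain ⟨r, hr, h⟩ := Metric.eventually_nhds_iff.mp (e1.and (e2.and e3))
  refine ⟨r, hr, fun x hx => ?_⟩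
  have := h (y := ‖x‖) (by simpa using hx)
  exact ⟨this.1, this.2.1, this.2.2.le⟩

/-- At the origin the curvature is `Rex`. -/
theorem curv_origin (u v w z : EuclideanSpace ℝ (Fin d)) :
    curvCoord (Gx d) 0 u v w z = Rex u v w z := by
  have hx : Cd d / 3 * ‖(0 : EuclideanSpace ℝ (Fin d))‖ ^ 2 ≤ 1 / 2 := by norm_num
  have h0 : ∀ a b : EuclideanSpace ℝ (Fin d), christoffel (Gx d) 0 a b = 0 := by
    intro a b
    have := christoffel_bound hx a b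
    rw [norm_zero] at this
    simpa using this
  have hN := Gx_nice hx
  have h1 := curv_Gm (Rex_alg (d := d)) 0 u v w z
  have h2 : curvCoord (Gx d) 0 u v w z = _ := h1
  rw [h2]
  have h3 : ∀ a b, Gm (Rex (d := d)) 0 (christoffel (Gm Rex) 0 a b) = Gm (Rex (d := d)) 0 0 := by
    intro a b
    congr 1
    exact h0 a b
  rw [h3, h3]
  have h4 : ∀ c, Gm (Rex (d := d)) 0 0 c = 0 := by
    intro c
    have := hN.smul 0 0 0 c
    simpa [Gx] using this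
  rw [h4, h4]
  ring

end Est

end Pool.Agent.Lib_helper77
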