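import Mathlib
import Pool.Agent.Lib_helper77.CurvPinch

/-!
The coordinate expression of a Riemannian metric.
-/

set_option autoImplicit false
set_option maxSynthPendingDepth 3

open scoped Manifold ContDiff Topology
open Bundle Set

namespace Pool.Agent.Lib_helper77

variable {E : Type} [NormedAddCommGroup E] [NormedSpace ℝ E]
  {M : Type} [TopologicalSpace M] [ChartedSpace E M] [IsManifold 𝓘(ℝ, E) ∞ M]

theorem symm_eq_mfderiv (p : M) {y : E} (hy : y ∈ (extChartAt 𝓘(ℝ, E) p).target) (u : E) :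
    (trivializationAt E (fun x : M => TangentSpace 𝓘(ℝ, E) x) p).symm
      ((extChartAt 𝓘(ℝ, E) p).symm y) u
    = mfderiv 𝓘(ℝ, E) 𝓘(ℝ, E) (extChartAt 𝓘(ℝ, E) p).symm y u := by
  have hs : (extChartAt 𝓘(ℝ, E) p).symm y ∈ (chartAt E p).source := by
    have := (extChartAt 𝓘(ℝ, E) p).map_target hy
    rwa [extChartAt_source] at this
  have h1 := TangentBundle.symmL_trivializationAt (I := 𝓘(ℝ, E)) hs
  rw [(extChartAt 𝓘(ℝ, E) p).right_inv hy] at h1
  have h2 : Set.range (𝓘(ℝ, E) : E → E) = univ := by simp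
  rw [h2, mfderivWithin_univ] at h1
  have h3 := congrArg (fun L : E →L[ℝ] E => L u) h1
  refine Eq.trans ?_ h3
  exact ((trivializationAt E (fun x : M => TangentSpace 𝓘(ℝ, E) x) p).symmL_apply
    (R := ℝ) (by simpa using hs) u).symm

theorem coordMetric_eventually (g : RMetric E M) (p : M) (u v : E) :
    (fun y => coordMetric g p y u v) =ᶠ[𝓝 (extChartAt 𝓘(ℝ, E) p p)]
    (fun y => ContinuousLinearMap.inCoordinates E (fun x : M => TangentSpace 𝓘(ℝ, E) x) (E →L[ℝ] ℝ)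
      (fun x : M => TangentSpace 𝓘(ℝ, E) x →L[ℝ] ℝ) p ((extChartAt 𝓘(ℝ, E) p).symm y) p
      ((extChartAt 𝓘(ℝ, E) p).symm y) (g.inner ((extChartAt 𝓘(ℝ, E) p).symm y)) u v) := by
  filter_upwards [extChartAt_target_mem_nhds (I := 𝓘(ℝ, E)) p] with y hy
  have hs : (extChartAt 𝓘(ℝ, E) p).symm y ∈ (chartAt E p).source := by
    have := (extChartAt 𝓘(ℝ, E) p).map_target hy
    rwa [extChartAt_source] at this
  have h1 := inCoordinates_apply_eq₂ (𝕜 := ℝ)
    (F₁ := E) (E₁ := fun x : M => TangentSpace 𝓘(ℝ, E) x) (F₂ := E)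
    (E₂ := fun x : M => TangentSpace 𝓘(ℝ, E) x) (F₃ := ℝ) (E₃ := Bundle.Trivial M ℝ)
    (x₀ := p) (x := (extChartAt 𝓘(ℝ, E) p).symm y)
    (ϕ := g.inner ((extChartAt 𝓘(ℝ, E) p).symm y)) (v := u) (w := v) (by simpa using hs)
    (by simpa using hs) (by simp)
  refine Eq.trans ?_ h1.symm
  rw [symm_eq_mfderiv p hy u, symm_eq_mfderiv p hy v]
  simp [coordMetric]

theorem coordMetric_smooth (g : RMetric E M) (p : M) (u v : E) :
    ContDiffAt ℝ ∞ (fun y => coordMetric g p y u v) (extChartAt 𝓘(ℝ, E) p p) := by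
  have h1 := g.contMDiff p
  rw [contMDiffAt_hom_bundle] at h1
  have h2 := h1.2
  have h3 : ContMDiffAt 𝓘(ℝ, E) 𝓘(ℝ, E) ∞ (extChartAt 𝓘(ℝ, E) p).symm (extChartAt 𝓘(ℝ, E) p p) :=
    (contMDiffOn_extChartAt_symm (n := ∞) p).contMDiffAt (extChartAt_target_mem_nhds p)
  have h4 := ContMDiffAt.comp_of_eq h2 h3 (by simp)
  have h5 := contMDiffAt_iff_contDiffAt.mp h4
  have h6 := (h5.clm_apply contDiffAt_const (g := fun _ => u)).clm_apply
    (contDiffAt_const (c := v))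
  exact h6.congr_of_eventuallyEq (coordMetric_eventually g p u v)

theorem coordMetric_at (g : RMetric E M) (p : M) (u v : E) :
    coordMetric g p (extChartAt 𝓘(ℝ, E) p p) u v = g.inner p u v := by
  have h1 := mfderivWithin_range_extChartAt_symm (I := 𝓘(ℝ, E)) (x := p)
  have h2 : Set.range (𝓘(ℝ, E) : E → E) = univ := by simp
  rw [h2, mfderivWithin_univ] at h1
  have h3 : ∀ w : E, (mfderiv 𝓘(ℝ, E) 𝓘(ℝ, E) (extChartAt 𝓘(ℝ, E) p).symm
      (extChartAt 𝓘(ℝ, E) p p) w : E) = w := by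
    intro w
    exact congrArg (fun L : E →L[ℝ] E => L w) h1
  let gE : M → E → E → ℝ := fun q a b => g.inner q a b
  have h4 : coordMetric g p (extChartAt 𝓘(ℝ, E) p p) u v
      = gE ((extChartAt 𝓘(ℝ, E) p).symm (extChartAt 𝓘(ℝ, E) p p))
        (mfderiv 𝓘(ℝ, E) 𝓘(ℝ, E) (extChartAt 𝓘(ℝ, E) p).symm (extChartAt 𝓘(ℝ, E) p p) u : E)
        (mfderiv 𝓘(ℝ, E) 𝓘(ℝ, E) (extChartAt 𝓘(ℝ, E) p).symm (extChartAt 𝓘(ℝ, E) p p) v : E) := rfl
  rw [h4, h3, h3, extChartAt_to_inv]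

theorem coordMetric_nice (g : RMetric E M) (p : M) :
    Nice (coordMetric g p) (extChartAt 𝓘(ℝ, E) p p) where
  add y u u' v := by
    let L : E →L[ℝ] E := mfderiv 𝓘(ℝ, E) 𝓘(ℝ, E) (extChartAt 𝓘(ℝ, E) p).symm y
    let B : E →L[ℝ] E →L[ℝ] ℝ := g.inner ((extChartAt 𝓘(ℝ, E) p).symm y)
    change B (L (u + u')) (L v) = B (L u) (L v) + B (L u') (L v)
    rw [map_add, map_add]; rfl
  smul y c u v := by
    let L : E →L[ℝ] E := mfderiv 𝓘(ℝ, E) 𝓘(ℝ, E) (extChartAt 𝓘(ℝ, E) p).symm y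
    let B : E →L[ℝ] E →L[ℝ] ℝ := g.inner ((extChartAt 𝓘(ℝ, E) p).symm y)
    change B (L (c • u)) (L v) = c * B (L u) (L v)
    rw [map_smul, map_smul]; rfl
  symm y u v := g.symm _ _ _
  pos u hu := by
    rw [coordMetric_at]
    exact g.pos p u hu
  smooth u v := (coordMetric_smooth g p u v).of_le ENat.LEInfty.out

end Pool.Agent.Lib_helper77
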