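import Mathlib
import Pool.Agent.Lib_helper77.CurvEst
import Pool.Agent.Lib_helper77.CurvManifold

/-!
Lower bound: the pinched manifold without positive curvature operator.
-/

set_option autoImplicit false
set_option maxSynthPendingDepth 3

open scoped Manifold ContDiff Topology
open Bundle Set

namespace Pool.Agent.Lib_helper77

section Field

variable {E : Type} [NormedAddCommGroup E] [InnerProductSpace ℝ E] [FiniteDimensional ℝ E]
  {R : E → E → E → E → ℝ}

/-- The form `(u, v) ↦ R y u y' v`. -/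
noncomputable def q3 (h : AlgCurv R) (y y' : E) : E →L[ℝ] E →L[ℝ] ℝ :=
  LinearMap.toContinuousLinearMap
    { toFun := fun u => LinearMap.toContinuousLinearMap
        { toFun := fun v => R y u y' v
          map_add' := fun a b => h.add4 y u y' a b
          map_smul' := fun r a => h.smul4 r y u y' a }
      map_add' := fun a b => by ext v; exact h.add2 y a b y' v
      map_smul' := fun r a => by ext v; exact h.smul2 r y a y' v }

/-- The bilinear map `(y, y') ↦ q3 y y'`. -/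
noncomputable def q4 (h : AlgCurv R) : E →L[ℝ] E →L[ℝ] E →L[ℝ] E →L[ℝ] ℝ :=
  LinearMap.toContinuousLinearMap
    { toFun := fun y => LinearMap.toContinuousLinearMap
        { toFun := fun y' => q3 h y y'
          map_add' := fun a b => by ext u v; exact h.add3 y u a b v
          map_smul' := fun r a => by ext u v; exact h.smul3 r y u a v }
      map_add' := fun a b => by ext y' u v; exact h.add1 a b u y' v
      map_smul' := fun r a => by ext y' u v; exact h.smul1 r a u y' v }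

/-- The inner product as a bilinear map. -/
noncomputable def inL (E : Type) [NormedAddCommGroup E] [InnerProductSpace ℝ E]
    [FiniteDimensional ℝ E] : E →L[ℝ] E →L[ℝ] ℝ :=
  LinearMap.toContinuousLinearMap
    { toFun := fun u => LinearMap.toContinuousLinearMap
        { toFun := fun v => inner ℝ u v
          map_add' := fun a b => inner_add_right _ _ _
          map_smul' := fun r a => inner_smul_right _ _ _ }
      map_add' := fun a b => by ext v; exact inner_add_left _ _ _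
      map_smul' := fun r a => by ext v; exact real_inner_smul_left _ _ _ }

/-- The metric field with values in continuous bilinear forms. -/
noncomputable def GmL (h : AlgCurv R) (y : E) : E →L[ℝ] E →L[ℝ] ℝ :=
  inL E - (1 / 3 : ℝ) • q4 h y y

theorem GmL_apply (h : AlgCurv R) (y u v : E) : GmL h y u v = Gm R y u v := rfl

theorem GmL_smooth (h : AlgCurv R) : ContDiff ℝ ∞ (GmL h) := by
  unfold GmL
  apply ContDiff.sub contDiff_const
  apply ContDiff.const_smul
  exact (q4 h).contDiff.clm_apply contDiff_id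

end Field

section Ball

variable {d : ℕ}

/-- The open ball of radius `r`. -/
def ballO (d : ℕ) (r : ℝ) : TopologicalSpace.Opens (EuclideanSpace ℝ (Fin d)) :=
  ⟨Metric.ball 0 r, Metric.isOpen_ball⟩

theorem extChart_coe {r : ℝ} (p q : ballO d r) :
    extChartAt 𝓘(ℝ, EuclideanSpace ℝ (Fin d)) p q = q.1 := rfl

theorem extChart_fun {r : ℝ} (p q : ballO d r) :
    (extChartAt 𝓘(ℝ, EuclideanSpace ℝ (Fin d)) p : ballO d r → EuclideanSpace ℝ (Fin d))
      = extChartAt 𝓘(ℝ, EuclideanSpace ℝ (Fin d)) q := rfl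

theorem extChart_source {r : ℝ} (p : ballO d r) :
    (extChartAt 𝓘(ℝ, EuclideanSpace ℝ (Fin d)) p).source = univ := by
  rw [extChartAt_source, TopologicalSpace.Opens.chartAt_eq, OpenPartialHomeomorph.subtypeRestr_source]
  simp

theorem extChart_target_nhds {r : ℝ} (p q : ballO d r) :
    (extChartAt 𝓘(ℝ, EuclideanSpace ℝ (Fin d)) p).target ∈ 𝓝 q.1 := by
  have h := extChartAt_target_mem_nhds' (I := 𝓘(ℝ, EuclideanSpace ℝ (Fin d))) (x := p) (y := q.1)
  apply h
  have : q ∈ (extChartAt 𝓘(ℝ, EuclideanSpace ℝ (Fin d)) p).source := by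
    rw [extChart_source]; trivial
  exact (extChartAt 𝓘(ℝ, EuclideanSpace ℝ (Fin d)) p).map_source this

theorem symm_val {r : ℝ} (p : ballO d r) {x : EuclideanSpace ℝ (Fin d)}
    (hx : x ∈ (extChartAt 𝓘(ℝ, EuclideanSpace ℝ (Fin d)) p).target) :
    ((extChartAt 𝓘(ℝ, EuclideanSpace ℝ (Fin d)) p).symm x).1 = x :=
  (extChartAt 𝓘(ℝ, EuclideanSpace ℝ (Fin d)) p).right_inv hx

theorem mfderiv_symm_eq {r : ℝ} (p : ballO d r) {x : EuclideanSpace ℝ (Fin d)}
    (hx : x ∈ (extChartAt 𝓘(ℝ, EuclideanSpace ℝ (Fin d)) p).target)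
    (u : EuclideanSpace ℝ (Fin d)) :
    (mfderiv 𝓘(ℝ, EuclideanSpace ℝ (Fin d)) 𝓘(ℝ, EuclideanSpace ℝ (Fin d))
      (extChartAt 𝓘(ℝ, EuclideanSpace ℝ (Fin d)) p).symm x u : EuclideanSpace ℝ (Fin d)) = u := by
  have h1 := mfderiv_extChartAt_comp_mfderivWithin_extChartAt_symm
    (I := 𝓘(ℝ, EuclideanSpace ℝ (Fin d))) hx
  have h2 : Set.range (𝓘(ℝ, EuclideanSpace ℝ (Fin d)) : EuclideanSpace ℝ (Fin d) →
    EuclideanSpace ℝ (Fin d)) = univ := by simp
  rw [h2, mfderivWithin_univ] at h1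
  rw [extChart_fun p ((extChartAt 𝓘(ℝ, EuclideanSpace ℝ (Fin d)) p).symm x),
    mfderiv_extChartAt_self] at h1
  exact congrArg (fun L : EuclideanSpace ℝ (Fin d) →L[ℝ] EuclideanSpace ℝ (Fin d) => L u) h1

theorem triv_symm {r : ℝ} (p b : ballO d r) (u : EuclideanSpace ℝ (Fin d)) :
    ((trivializationAt (EuclideanSpace ℝ (Fin d))
      (fun x : ballO d r => TangentSpace 𝓘(ℝ, EuclideanSpace ℝ (Fin d)) x) p).symm b u :
      EuclideanSpace ℝ (Fin d)) = u := by
  let F : ballO d r → EuclideanSpace ℝ (Fin d) → EuclideanSpace ℝ (Fin d) := fun b u =>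
    (trivializationAt (EuclideanSpace ℝ (Fin d))
      (fun x : ballO d r => TangentSpace 𝓘(ℝ, EuclideanSpace ℝ (Fin d)) x) p).symm b u
  have hy : b.1 ∈ (extChartAt 𝓘(ℝ, EuclideanSpace ℝ (Fin d)) p).target := by
    have : b ∈ (extChartAt 𝓘(ℝ, EuclideanSpace ℝ (Fin d)) p).source := by
      rw [extChart_source]; trivial
    exact (extChartAt 𝓘(ℝ, EuclideanSpace ℝ (Fin d)) p).map_source this
  have h1 : F ((extChartAt 𝓘(ℝ, EuclideanSpace ℝ (Fin d)) p).symm b.1) u = u :=
    (symm_eq_mfderiv p hy u).trans (mfderiv_symm_eq p hy u)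
  have h2 : (extChartAt 𝓘(ℝ, EuclideanSpace ℝ (Fin d)) p).symm b.1 = b :=
    Subtype.ext (symm_val p hy)
  rw [h2] at h1
  exact h1

theorem ball_norm {r : ℝ} (b : ballO d r) : ‖b.1‖ < r := by
  have := b.2
  change b.1 ∈ Metric.ball 0 r at this
  rwa [mem_ball_zero_iff] at this

theorem Gx_isVonN {x : EuclideanSpace ℝ (Fin d)} (hx : Cd d / 3 * ‖x‖ ^ 2 ≤ 1 / 2) :
    Bornology.IsVonNBounded ℝ {v : EuclideanSpace ℝ (Fin d) | Gx d x v v < 1} := by
  rw [NormedSpace.isVonNBounded_iff]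
  apply (Metric.isBounded_ball (x := (0 : EuclideanSpace ℝ (Fin d))) (r := 2)).subset
  intro v hv
  have h1 := Gx_pos hx v
  have h2 : Gx d x v v < 1 := hv
  rw [mem_ball_zero_iff]
  nlinarith [norm_nonneg v]

/-- The example metric on the ball. -/
noncomputable def gBall (d : ℕ) (r : ℝ)
    (hr : ∀ x : EuclideanSpace ℝ (Fin d), ‖x‖ < r → Cd d / 3 * ‖x‖ ^ 2 ≤ 1 / 2) :
    RMetric (EuclideanSpace ℝ (Fin d)) (ballO d r) where
  inner b := (GmL (Rex_alg (d := d)) b.1 :
    EuclideanSpace ℝ (Fin d) →L[ℝ] EuclideanSpace ℝ (Fin d) →L[ℝ] ℝ)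
  symm b v w := by
    have hb : ‖b.1‖ < r := ball_norm b
    exact (Gx_nice (hr b.1 hb)).symm b.1 v w
  pos b v hv := by
    have hb : ‖b.1‖ < r := ball_norm b
    exact (Gx_nice (hr b.1 hb)).pos v hv
  isVonNBounded b := by
    have hb : ‖b.1‖ < r := ball_norm b
    exact Gx_isVonN (hr b.1 hb)
  contMDiff := by
    intro p
    rw [contMDiffAt_hom_bundle]
    refine ⟨contMDiffAt_id, ?_⟩
    have h1 : ContMDiffAt 𝓘(ℝ, EuclideanSpace ℝ (Fin d))
        𝓘(ℝ, EuclideanSpace ℝ (Fin d) →L[ℝ] EuclideanSpace ℝ (Fin d) →L[ℝ] ℝ) ∞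
        (fun b : ballO d r => GmL (Rex_alg (d := d)) b.1) p :=
      (GmL_smooth (Rex_alg (d := d))).contMDiff.contMDiffAt.comp p contMDiff_subtype_val.contMDiffAt
    refine h1.congr_of_eventuallyEq (Filter.Eventually.of_forall fun b => ?_)
    ext u v
    have hs : b ∈ (chartAt (EuclideanSpace ℝ (Fin d)) p).source := by
      have := extChart_source p
      rw [extChartAt_source] at this
      rw [this]; trivial
    have h2 := inCoordinates_apply_eq₂ (𝕜 := ℝ)
      (F₁ := EuclideanSpace ℝ (Fin d))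
      (E₁ := fun x : ballO d r => TangentSpace 𝓘(ℝ, EuclideanSpace ℝ (Fin d)) x)
      (F₂ := EuclideanSpace ℝ (Fin d))
      (E₂ := fun x : ballO d r => TangentSpace 𝓘(ℝ, EuclideanSpace ℝ (Fin d)) x) (F₃ := ℝ)
      (E₃ := Bundle.Trivial (ballO d r) ℝ)
      (x₀ := p) (x := b)
      (ϕ := GmL (Rex_alg (d := d)) b.1) (v := u) (w := v) (by simpa using hs)
      (by simpa using hs) (by simp)
    refine Eq.trans h2 ?_
    have e1 := triv_symm p b u
    have e2 := triv_symm p b v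
    rw [e1, e2]
    simp
    rfl

theorem coordMetric_gBall {r : ℝ}
    (hr : ∀ x : EuclideanSpace ℝ (Fin d), ‖x‖ < r → Cd d / 3 * ‖x‖ ^ 2 ≤ 1 / 2)
    (p : ballO d r) {x : EuclideanSpace ℝ (Fin d)}
    (hx : x ∈ (extChartAt 𝓘(ℝ, EuclideanSpace ℝ (Fin d)) p).target)
    (u v : EuclideanSpace ℝ (Fin d)) : coordMetric (gBall d r hr) p x u v = Gx d x u v := by
  have h1 : coordMetric (gBall d r hr) p x u v
      = Gx d ((extChartAt 𝓘(ℝ, EuclideanSpace ℝ (Fin d)) p).symm x).1
        (mfderiv 𝓘(ℝ, EuclideanSpace ℝ (Fin d)) 𝓘(ℝ, EuclideanSpace ℝ (Fin d))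
          (extChartAt 𝓘(ℝ, EuclideanSpace ℝ (Fin d)) p).symm x u : EuclideanSpace ℝ (Fin d))
        (mfderiv 𝓘(ℝ, EuclideanSpace ℝ (Fin d)) 𝓘(ℝ, EuclideanSpace ℝ (Fin d))
          (extChartAt 𝓘(ℝ, EuclideanSpace ℝ (Fin d)) p).symm x v : EuclideanSpace ℝ (Fin d)) := rfl
  rw [h1, symm_val p hx, mfderiv_symm_eq p hx, mfderiv_symm_eq p hx]

end Ball

section Congr

variable {E : Type} [NormedAddCommGroup E] [NormedSpace ℝ E]

theorem curvCoord_congr {G₁ G₂ : E → E → E → ℝ} {x : E}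
    (h : ∀ u v, (fun y => G₁ y u v) =ᶠ[𝓝 x] (fun y => G₂ y u v)) (u v w z : E) :
    curvCoord G₁ x u v w z = curvCoord G₂ x u v w z := by
  have h0 : ∀ u v, G₁ x u v = G₂ x u v := fun u v => (h u v).self_of_nhds
  have h1 : ∀ a b c, fderiv ℝ (fun y => G₁ y a b) x c = fderiv ℝ (fun y => G₂ y a b) x c := by
    intro a b c
    rw [(h a b).fderiv_eq]
  have h2 : ∀ a b c, christoffelFirst G₁ x a b c = christoffelFirst G₂ x a b c := by
    intro a b c
    unfold christoffelFirst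
    rw [h1, h1, h1]
  have h3 : ∀ a b, christoffel G₁ x a b = christoffel G₂ x a b := by
    intro a b
    unfold christoffel
    simp only [h0, h2]
  have h4 : ∀ a b c e, secondDeriv G₁ x a b c e = secondDeriv G₂ x a b c e := by
    intro a b c e
    unfold secondDeriv
    have : (fun y => fderiv ℝ (fun y' => G₁ y' c e) y b) =ᶠ[𝓝 x]
        (fun y => fderiv ℝ (fun y' => G₂ y' c e) y b) := by
      filter_upwards [Filter.EventuallyEq.fderiv (𝕜 := ℝ) (h c e)] with y hy
      rw [hy]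
    rw [this.fderiv_eq]
  unfold curvCoord
  rw [h4, h4, h4, h4, h0, h0, h3, h3, h3, h3]

end Congr

section Final

variable {d : ℕ}

theorem riemann_gBall {r : ℝ}
    (hr : ∀ x : EuclideanSpace ℝ (Fin d), ‖x‖ < r → Cd d / 3 * ‖x‖ ^ 2 ≤ 1 / 2)
    (p : ballO d r) (u v w z : EuclideanSpace ℝ (Fin d)) :
    riemann (gBall d r hr) p u v w z = curvCoord (Gx d) p.1 u v w z := by
  have h1 : riemann (gBall d r hr) p u v w z
      = curvCoord (coordMetric (gBall d r hr) p) p.1 u v w z := rfl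
  rw [h1]
  apply curvCoord_congr
  intro a b
  filter_upwards [extChart_target_nhds p p] with y hy
  exact coordMetric_gBall hr p hy a b

theorem sectional_gBall {r : ℝ}
    (hr : ∀ x : EuclideanSpace ℝ (Fin d), ‖x‖ < r → Cd d / 3 * ‖x‖ ^ 2 ≤ 1 / 2)
    (p : ballO d r) (u v : EuclideanSpace ℝ (Fin d)) :
    sectional (gBall d r hr) p u v = curvCoord (Gx d) p.1 u v u v /
      (Gx d p.1 u u * Gx d p.1 v v - Gx d p.1 u v ^ 2) := by
  have h1 : sectional (gBall d r hr) p u v = riemann (gBall d r hr) p u v u v /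
      (Gx d p.1 u u * Gx d p.1 v v - Gx d p.1 u v ^ 2) := rfl
  rw [h1, riemann_gBall]

/-- The first two coordinates. -/
noncomputable def firstTwo (hd : 2 ≤ d) : EuclideanSpace ℝ (Fin d) →ₗ[ℝ] (Fin 2 → ℝ) where
  toFun x := ![x ⟨0, by omega⟩, x ⟨1, by omega⟩]
  map_add' x y := by ext i; fin_cases i <;> simp
  map_smul' c x := by ext i; fin_cases i <;> simp

/-- The determinant of the first two coordinates, as an alternating map. -/
noncomputable def detForm (hd : 2 ≤ d) : (EuclideanSpace ℝ (Fin d)) [⋀^Fin 2]→ₗ[ℝ] ℝ :=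
  (Matrix.detRowAlternating : (Fin 2 → ℝ) [⋀^Fin 2]→ₗ[ℝ] ℝ).compLinearMap (firstTwo hd)

theorem detForm_apply (hd : 2 ≤ d) (x y : EuclideanSpace ℝ (Fin d)) :
    detForm hd ![x, y] = x ⟨0, by omega⟩ * y ⟨1, by omega⟩ - x ⟨1, by omega⟩ * y ⟨0, by omega⟩ := by
  unfold detForm
  rw [AlternatingMap.compLinearMap_apply]
  change Matrix.det _ = _
  rw [Matrix.det_fin_two]
  simp [firstTwo]

theorem sum_wedge_ne (hd : 2 ≤ d) :
    ∑ i : Fin (d / 2), exteriorPower.ιMulti ℝ 2 ![ee i, ff (d := d) i] ≠ 0 := by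
  intro h
  have h1 := congrArg (exteriorPower.alternatingMapLinearEquiv (detForm hd)) h
  rw [map_sum, map_zero] at h1
  simp only [exteriorPower.alternatingMapLinearEquiv_apply_ιMulti, detForm_apply] at h1
  have hpos : 0 < d / 2 := by omega
  rw [Finset.sum_eq_single ⟨0, hpos⟩] at h1
  · unfold ee ff at h1
    simp at h1
  · intro i _ hi
    have hi' : i.1 ≠ 0 := fun h0 => hi (Fin.ext h0)
    unfold ee ff
    have e1 : ¬ (0 = 2 * i.1) := by omega
    have e2 : ¬ (1 = 2 * i.1) := by omega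
    simp [PiLp.single_apply, e1, e2]
  · intro h0; exact absurd (Finset.mem_univ _) h0

theorem lower {δ : ℝ} (hd : 4 ≤ d) (h : δ ∈ pinchSet d) :
    (2 * ((d / 2 : ℕ) : ℝ) - 2) / (2 * ((d / 2 : ℕ) : ℝ) + 1) ≤ δ := by
  by_contra hcon
  push Not at hcon
  obtain ⟨hδ0, hδ1, H⟩ := h
  obtain ⟨r, hr0, hr⟩ := exists_radius (d := d) hδ0 hcon
  have hr' : ∀ x : EuclideanSpace ℝ (Fin d), ‖x‖ < r → Cd d / 3 * ‖x‖ ^ 2 ≤ 1 / 2 :=
    fun x hx => (hr x hx).1.le
  have hpin : Pinched (gBall d r hr') δ := by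
    intro p
    have hp := hr p.1 (ball_norm p)
    constructor
    · intro u v huv
      rw [sectional_gBall]
      refine lt_of_lt_of_le ?_ (sec_bounds hp.1 huv hp.2.1).1
      have h1 := hp.2.1
      have h2 : 0 < (1 + Cd d / 3 * ‖p.1‖ ^ 2) ^ 2 := by
        have := Cd_pos (d := d)
        positivity
      exact div_pos h1 h2
    · intro u v u' v' huv huv'
      rw [sectional_gBall, sectional_gBall]
      refine le_trans ?_ (sec_bounds hp.1 huv hp.2.1).1
      refine le_trans ?_ hp.2.2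
      exact mul_le_mul_of_nonneg_left (sec_bounds hp.1 huv' hp.2.1).2 hδ0.le
  have hneg := H (ballO d r) (gBall d r hr') hpin ⟨0, by
    change (0 : EuclideanSpace ℝ (Fin d)) ∈ Metric.ball 0 r
    simpa using hr0⟩ (d / 2) (fun i => ee i) (fun i => ff i) (sum_wedge_ne (by omega))
  have hzero : ∀ i j : Fin (d / 2), riemann (gBall d r hr') ⟨0, by
      change (0 : EuclideanSpace ℝ (Fin d)) ∈ Metric.ball 0 r
      simpa using hr0⟩ (ee i) (ff i) (ee j) (ff j) = Rex (ee i) (ff (d := d) i) (ee j) (ff j) := by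
    intro i j
    rw [riemann_gBall]
    exact curv_origin _ _ _ _
  simp only [hzero, Rex_null] at hneg
  exact lt_irrefl _ hneg

end Final

end Pool.Agent.Lib_helper77
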