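import Mathlib
import Pool.Agent.Lib_helper77.CurvManifold

/-!
Upper bound: pinching above the critical constant implies positivity of the curvature operator.
-/

set_option autoImplicit false
set_option maxSynthPendingDepth 3

open scoped Manifold ContDiff Topology
open Bundle Set

namespace Pool.Agent.Lib_helper77

theorem li_map {V W : Type} [AddCommGroup V] [Module ℝ V] [AddCommGroup W] [Module ℝ W]
    (Φ : V ≃ₗ[ℝ] W) {u v : V} (h : LinearIndependent ℝ ![u, v]) :
    LinearIndependent ℝ ![Φ u, Φ v] := by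
  rw [LinearIndependent.pair_iff] at h ⊢
  intro s t hst
  apply h
  apply Φ.injective
  rw [map_add, map_smul, map_smul, hst, map_zero]

theorem wedge_map {V W : Type} [AddCommGroup V] [Module ℝ V] [AddCommGroup W] [Module ℝ W]
    (Φ : V →ₗ[ℝ] W) (u v : V) : exteriorPower.map 2 Φ (wedge u v) = wedge (Φ u) (Φ v) := by
  unfold wedge
  rw [exteriorPower.map_apply_ιMulti]
  congr 1
  ext i
  fin_cases i <;> rfl

theorem AlgCurv.comp {V W : Type} [AddCommGroup V] [Module ℝ V] [AddCommGroup W] [Module ℝ W]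
    {R : W → W → W → W → ℝ} (h : AlgCurv R) (Φ : V →ₗ[ℝ] W) :
    AlgCurv (fun u v w z => R (Φ u) (Φ v) (Φ w) (Φ z)) where
  add1 u u' v w z := by simp only [map_add]; exact h.add1 _ _ _ _ _
  smul1 c u v w z := by simp only [map_smul]; exact h.smul1 _ _ _ _ _
  anti u v w z := h.anti _ _ _ _
  pair u v w z := h.pair _ _ _ _
  bianchi u v w z := h.bianchi _ _ _ _

/-- Pinching implies positivity, for a curvature tensor `R` and an inner product `B`. -/
theorem pinch_bil {V : Type} [AddCommGroup V] [Module ℝ V] [FiniteDimensional ℝ V] {d : ℕ}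
    (hd : Module.finrank ℝ V = d) (hd2 : 2 ≤ d) (B : V →ₗ[ℝ] V →ₗ[ℝ] ℝ)
    (hsymm : ∀ u v, B u v = B v u) (hBpos : ∀ u, u ≠ 0 → 0 < B u u)
    {R : V → V → V → V → ℝ} (h : AlgCurv R) {δ : ℝ} (hδ0 : 0 < δ) (hδ1 : δ ≤ 1)
    (hδ : (2 * ((d / 2 : ℕ) : ℝ) - 2) / (2 * ((d / 2 : ℕ) : ℝ) + 1) < δ)
    (hpos : ∀ u v : V, LinearIndependent ℝ ![u, v] →
      0 < R u v u v / (B u u * B v v - B u v ^ 2))
    (hpin : ∀ u v u' v' : V, LinearIndependent ℝ ![u, v] → LinearIndependent ℝ ![u', v'] →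
      δ * (R u' v' u' v' / (B u' u' * B v' v' - B u' v' ^ 2))
        ≤ R u v u v / (B u u * B v v - B u v ^ 2))
    {A : Type} [Fintype A] (u v : A → V) (hω : ∑ a, wedge (u a) (v a) ≠ 0) :
    0 < ∑ a, ∑ b, R (u a) (v a) (u b) (v b) := by
  obtain ⟨Φ, hΦ⟩ := exists_isom hd B hsymm hBpos
  have key := pinch_inner (V := EuclideanSpace ℝ (Fin d)) (by simp) hd2 (h.comp Φ.toLinearMap)
    hδ0 hδ1 hδ (fun a b hab => by
      have := hpos (Φ a) (Φ b) (li_map Φ hab)
      rw [hΦ, hΦ, hΦ] at this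
      exact this)
    (fun a b a' b' hab hab' => by
      have := hpin (Φ a) (Φ b) (Φ a') (Φ b') (li_map Φ hab) (li_map Φ hab')
      rw [hΦ, hΦ, hΦ, hΦ, hΦ, hΦ] at this
      exact this)
    (fun a => Φ.symm (u a)) (fun a => Φ.symm (v a)) (by
      intro h0
      apply hω
      have := congrArg (exteriorPower.map 2 Φ.toLinearMap) h0
      rw [map_sum, map_zero] at this
      rw [← this]
      apply Finset.sum_congr rfl
      intro a _
      rw [wedge_map]
      simp)
  simpa using key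

theorem mem_pinchSet {d : ℕ} (hd2 : 2 ≤ d) {δ : ℝ} (hδ0 : 0 < δ) (hδ1 : δ ≤ 1)
    (hδ : (2 * ((d / 2 : ℕ) : ℝ) - 2) / (2 * ((d / 2 : ℕ) : ℝ) + 1) < δ) : δ ∈ pinchSet d := by
  refine ⟨hδ0, hδ1, ?_⟩
  intro M _ _ _ _ _ g hg p n u v hω
  have hN := coordMetric_nice g p
  have hR := hN.algCurv
  have hB : ∀ a b : EuclideanSpace ℝ (Fin d), hN.bil a b = g.inner p a b := by
    intro a b
    exact coordMetric_at g p a b
  exact pinch_bil (V := EuclideanSpace ℝ (Fin d)) (d := d) (by simp) hd2 hN.bil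
    (fun a b => by rw [hB, hB]; exact g.symm p a b)
    (fun a ha => by rw [hB]; exact g.pos p a ha) hR hδ0 hδ1 hδ
    (fun a b hab => by
      rw [hB, hB, hB]
      exact (hg p).1 a b hab)
    (fun a b a' b' hab hab' => by
      rw [hB, hB, hB, hB, hB, hB]
      exact (hg p).2 a b a' b' hab hab')
    u v hω

end Pool.Agent.Lib_helper77
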