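import Mathlib

/-!
Algebraic functions on a parameter space, as a subring of the ring of all real functions.
-/

set_option autoImplicit false

namespace Pool.Agent.Lib_helper77

open Polynomial

variable {P τ : Type}

/-- Evaluation of polynomials in the coordinates `ev p`, as a ring homomorphism to functions. -/
noncomputable def evHom (ev : P → τ → ℝ) : MvPolynomial τ ℝ →+* (P → ℝ) :=
  RingHom.pi fun p => MvPolynomial.eval (ev p)

/-- The ring of functions of `p` which are algebraic over the polynomials in `ev p`. -/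
noncomputable def algSub (ev : P → τ → ℝ) : Subring (P → ℝ) :=
  letI : Algebra (MvPolynomial τ ℝ) (P → ℝ) := (evHom ev).toAlgebra
  (Subalgebra.algebraicClosure (MvPolynomial τ ℝ) (P → ℝ)).toSubring

theorem mem_algSub_iff {ev : P → τ → ℝ} {f : P → ℝ} :
    f ∈ algSub ev ↔ ∃ Φ : Polynomial (MvPolynomial τ ℝ), Φ ≠ 0 ∧
      ∀ p, Φ.eval₂ (MvPolynomial.eval (ev p)) (f p) = 0 := by
  let : Algebra (MvPolynomial τ ℝ) (P → ℝ) := (evHom ev).toAlgebra
  have h1 : f ∈ algSub ev ↔ IsAlgebraic (MvPolynomial τ ℝ) f := Iff.rfl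
  rw [h1]
  have key : ∀ (Φ : Polynomial (MvPolynomial τ ℝ)) (p : P),
      (Polynomial.aeval f Φ) p = Φ.eval₂ (MvPolynomial.eval (ev p)) (f p) := by
    intro Φ p
    have : (Pi.evalRingHom (fun _ : P => ℝ) p) (Polynomial.aeval f Φ)
        = Φ.eval₂ ((Pi.evalRingHom (fun _ : P => ℝ) p).comp (evHom ev)) (f p) := by
      rw [Polynomial.aeval_def, Polynomial.hom_eval₂]
      rfl
    exact this
  constructor
  · rintro ⟨Φ, h0, h⟩
    refine ⟨Φ, h0, fun p => ?_⟩
    rw [← key, h]; rfl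
  · rintro ⟨Φ, h0, h⟩
    refine ⟨Φ, h0, ?_⟩
    ext p
    rw [key, h]; rfl

variable {ev : P → τ → ℝ} {f g : P → ℝ}

theorem poly_mem (q : MvPolynomial τ ℝ) : (fun p => MvPolynomial.eval (ev p) q) ∈ algSub ev := by
  let : Algebra (MvPolynomial τ ℝ) (P → ℝ) := (evHom ev).toAlgebra
  exact isAlgebraic_algebraMap (R := MvPolynomial τ ℝ) (A := P → ℝ) q

theorem coord_mem (i : τ) : (fun p => ev p i) ∈ algSub ev := by
  simpa using poly_mem (ev := ev) (MvPolynomial.X i)

theorem const_mem (c : ℝ) : (fun _ => c) ∈ algSub ev := by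
  simpa using poly_mem (ev := ev) (MvPolynomial.C c)

theorem add_mem' (hf : f ∈ algSub ev) (hg : g ∈ algSub ev) : (fun p => f p + g p) ∈ algSub ev :=
  add_mem hf hg

theorem sub_mem' (hf : f ∈ algSub ev) (hg : g ∈ algSub ev) : (fun p => f p - g p) ∈ algSub ev :=
  sub_mem hf hg

theorem neg_mem' (hf : f ∈ algSub ev) : (fun p => - f p) ∈ algSub ev :=
  neg_mem hf

theorem mul_mem' (hf : f ∈ algSub ev) (hg : g ∈ algSub ev) : (fun p => f p * g p) ∈ algSub ev :=
  mul_mem hf hg

theorem pow_mem' (hf : f ∈ algSub ev) (n : ℕ) : (fun p => f p ^ n) ∈ algSub ev :=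
  pow_mem hf n

theorem sum_mem' {ι : Type} (s : Finset ι) {F : ι → P → ℝ} (h : ∀ i ∈ s, F i ∈ algSub ev) :
    (fun p => ∑ i ∈ s, F i p) ∈ algSub ev := by
  have := sum_mem (S := algSub ev) h
  convert this using 1
  ext p
  simp

theorem of_sq_mem (hf : (fun p => f p ^ 2) ∈ algSub ev) : f ∈ algSub ev := by
  let : Algebra (MvPolynomial τ ℝ) (P → ℝ) := (evHom ev).toAlgebra
  have h1 : IsAlgebraic (MvPolynomial τ ℝ) (f ^ 2) := hf
  exact h1.of_pow (by norm_num)

theorem idem_mem (h : ∀ p, f p = 0 ∨ f p = 1) : f ∈ algSub ev := by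
  rw [mem_algSub_iff]
  refine ⟨X ^ 2 - X, ?_, ?_⟩
  · intro h0
    have : (X ^ 2 - X : Polynomial (MvPolynomial τ ℝ)).coeff 2 = 0 := by rw [h0]; simp
    simp [coeff_X] at this
  · intro p
    rcases h p with h | h <;> simp [h]

theorem ite_mem (s : Set P) [DecidablePred (· ∈ s)] (hf : f ∈ algSub ev) (hg : g ∈ algSub ev) :
    (fun p => if p ∈ s then f p else g p) ∈ algSub ev := by
  have h1 : (fun p => if p ∈ s then (1:ℝ) else 0) ∈ algSub ev := by
    apply idem_mem
    intro p
    by_cases h : p ∈ s <;> simp [h]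
  have h2 : (fun p => if p ∈ s then (0:ℝ) else 1) ∈ algSub ev := by
    apply idem_mem
    intro p
    by_cases h : p ∈ s <;> simp [h]
  have := add_mem' (mul_mem' h1 hf) (mul_mem' h2 hg)
  convert this using 1
  ext p
  by_cases h : p ∈ s <;> simp [h]

theorem abs_mem' (hf : f ∈ algSub ev) : (fun p => |f p|) ∈ algSub ev := by
  apply of_sq_mem
  simpa using pow_mem' hf 2

theorem max_mem' (hf : f ∈ algSub ev) (hg : g ∈ algSub ev) :
    (fun p => max (f p) (g p)) ∈ algSub ev := by
  have := mul_mem' (const_mem (2⁻¹ : ℝ)) (add_mem' (add_mem' hf hg) (abs_mem' (sub_mem' hf hg)))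
  convert this using 1
  ext p
  rcases le_total (f p) (g p) with h | h
  · rw [max_eq_right h, abs_of_nonpos (by linarith)]; ring
  · rw [max_eq_left h, abs_of_nonneg (by linarith)]; ring

theorem min_mem' (hf : f ∈ algSub ev) (hg : g ∈ algSub ev) :
    (fun p => min (f p) (g p)) ∈ algSub ev := by
  have := mul_mem' (const_mem (2⁻¹ : ℝ)) (sub_mem' (add_mem' hf hg) (abs_mem' (sub_mem' hf hg)))
  convert this using 1
  ext p
  rcases le_total (f p) (g p) with h | h
  · rw [min_eq_left h, abs_of_nonpos (by linarith)]; ring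
  · rw [min_eq_right h, abs_of_nonneg (by linarith)]; ring

theorem sqrt_mem' (hf : f ∈ algSub ev) : (fun p => Real.sqrt (f p)) ∈ algSub ev := by
  apply of_sq_mem
  have := max_mem' hf (const_mem (ev := ev) 0)
  convert this using 1
  ext p
  rcases le_total (f p) 0 with h | h
  · rw [max_eq_right h, Real.sqrt_eq_zero_of_nonpos h]; simp
  · rw [max_eq_left h, Real.sq_sqrt h]

theorem inv_mem' (hf : f ∈ algSub ev) : (fun p => (f p)⁻¹) ∈ algSub ev := by
  rw [mem_algSub_iff] at hf ⊢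
  obtain ⟨Φ, h0, h⟩ := hf
  refine ⟨X * Φ.reverse, mul_ne_zero X_ne_zero (reverse_eq_zero.not.mpr h0), fun p => ?_⟩
  rw [eval₂_mul, eval₂_X]
  by_cases hp : f p = 0
  · simp [hp]
  · let : Invertible (f p) := invertibleOfNonzero hp
    have h2 := (eval₂_reverse_eq_zero_iff (MvPolynomial.eval (ev p)) (f p) Φ).mpr (h p)
    rw [invOf_eq_inv] at h2
    rw [h2, mul_zero]

theorem div_mem' (hf : f ∈ algSub ev) (hg : g ∈ algSub ev) :
    (fun p => f p / g p) ∈ algSub ev := by
  simpa [div_eq_mul_inv] using mul_mem' hf (inv_mem' hg)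

theorem polyEval_mem (hf : f ∈ algSub ev) (q : Polynomial ℝ) :
    (fun p => q.eval (f p)) ∈ algSub ev := by
  simp_rw [Polynomial.eval_eq_sum_range]
  exact sum_mem' _ fun i _ => mul_mem' (const_mem _) (pow_mem' hf _)

/-- The clamp of `x` to the interval `[-r, r]`. -/
noncomputable def clamp (r x : ℝ) : ℝ := max (-r) (min r x)

theorem clamp_mem' (hf : f ∈ algSub ev) (hg : g ∈ algSub ev) :
    (fun p => clamp (f p) (g p)) ∈ algSub ev :=
  max_mem' (neg_mem' hf) (min_mem' hf hg)

end Pool.Agent.Lib_helper77
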