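import Mathlib
import Pool.Agent.Lib_helper77.AlgFun

/-!
Integrals over a ball cut by a half-space.
-/

set_option autoImplicit false

namespace Pool.Agent.Lib_helper77

open MeasureTheory Set

/-- Sum of squares of the coordinates. -/
noncomputable def nsq {n : ℕ} (x : Fin n → ℝ) : ℝ := ∑ i, x i ^ 2

/-- Standard dot product. -/
noncomputable def dot {n : ℕ} (a x : Fin n → ℝ) : ℝ := ∑ i, a i * x i

theorem nsq_nonneg {n : ℕ} (x : Fin n → ℝ) : 0 ≤ nsq x :=
  Finset.sum_nonneg fun _ _ => sq_nonneg _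

theorem nsq_eq_zero {n : ℕ} {x : Fin n → ℝ} : nsq x = 0 ↔ x = 0 := by
  unfold nsq
  rw [Finset.sum_eq_zero_iff_of_nonneg (fun i _ => sq_nonneg _)]
  constructor
  · intro h; ext i; simpa using h i (Finset.mem_univ _)
  · rintro rfl; simp

theorem nsq_pos {n : ℕ} {x : Fin n → ℝ} (h : x ≠ 0) : 0 < nsq x :=
  lt_of_le_of_ne (nsq_nonneg x) (fun h' => h (nsq_eq_zero.mp h'.symm))

theorem dot_eq_inner {n : ℕ} (a x : EuclideanSpace ℝ (Fin n)) :
    dot a.ofLp x.ofLp = inner ℝ a x := by
  simp [dot, PiLp.inner_apply, mul_comm]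

theorem nsq_eq_norm {n : ℕ} (x : EuclideanSpace ℝ (Fin n)) : nsq x.ofLp = ‖x‖ ^ 2 := by
  rw [EuclideanSpace.norm_sq_eq]
  simp [nsq]

theorem exists_rot {N : ℕ} (n c : Fin (N + 1) → ℝ) (hn : n ≠ 0) (hc : dot n c = 0) :
    ∃ e : (Fin (N + 1) → ℝ) ≃ᵐ (Fin (N + 1) → ℝ), MeasurePreserving e volume volume ∧
      ∀ z, nsq (e z) = nsq z ∧ dot n (e z) = Real.sqrt (nsq n) * z 0 ∧
        dot c (e z) = Real.sqrt (nsq c) * z (Fin.last N) := by
  classical
  set E := EuclideanSpace ℝ (Fin (N + 1)) with hE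
  have main : ∃ b : OrthonormalBasis (Fin (N + 1)) ℝ E,
      (∀ y : E, inner ℝ (WithLp.toLp 2 n : E) y = Real.sqrt (nsq n) * inner ℝ (b 0) y) ∧
      (∀ y : E, inner ℝ (WithLp.toLp 2 c : E) y = Real.sqrt (nsq c) * inner ℝ (b (Fin.last N)) y) := by
    have hnu : (Real.sqrt (nsq n)) ≠ 0 := (Real.sqrt_pos.mpr (nsq_pos hn)).ne'
    have hnn : ‖(WithLp.toLp 2 n : E)‖ = Real.sqrt (nsq n) := by
      have := nsq_eq_norm (WithLp.toLp 2 n : E)
      rw [show nsq n = ‖(WithLp.toLp 2 n : E)‖ ^ 2 from this, Real.sqrt_sq (norm_nonneg _)]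
    have hcn : ‖(WithLp.toLp 2 c : E)‖ = Real.sqrt (nsq c) := by
      have := nsq_eq_norm (WithLp.toLp 2 c : E)
      rw [show nsq c = ‖(WithLp.toLp 2 c : E)‖ ^ 2 from this, Real.sqrt_sq (norm_nonneg _)]
    by_cases hc0 : c = 0
    · let v : Fin (N + 1) → E := fun _ => (Real.sqrt (nsq n))⁻¹ • (WithLp.toLp 2 n : E)
      have hv : Orthonormal ℝ (({0} : Set (Fin (N + 1))).domRestrict v) := by
        constructor
        · intro i
          simp only [Set.domRestrict_apply, v, norm_smul, hnn, norm_inv, Real.norm_eq_abs,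
            abs_of_nonneg (Real.sqrt_nonneg _)]
          exact inv_mul_cancel₀ hnu
        · intro i j hij
          exact absurd (Subsingleton.elim i j) hij
      obtain ⟨b, hb⟩ := hv.exists_orthonormalBasis_extension_of_card_eq (by rw [Fintype.card_fin]; exact finrank_euclideanSpace_fin)
      refine ⟨b, ?_, ?_⟩
      · intro y
        rw [hb 0 (by simp), inner_smul_left]
        simp only [v, conj_trivial]
        rw [← mul_assoc, mul_inv_cancel₀ hnu, one_mul]
      · intro y
        subst hc0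
        simp [nsq]
    · have hga : (Real.sqrt (nsq c)) ≠ 0 := (Real.sqrt_pos.mpr (nsq_pos hc0)).ne'
      have hN : (Fin.last N) ≠ 0 := by
        intro h0
        have hN0 : N = 0 := by
          have := congrArg Fin.val h0
          simpa using this
        subst hN0
        have h1 : n 0 * c 0 = 0 := by simpa [dot] using hc
        rcases mul_eq_zero.mp h1 with h | h
        · exact hn (by ext i; rw [show i = 0 from Fin.ext (by omega)]; simpa using h)
        · exact hc0 (by ext i; rw [show i = 0 from Fin.ext (by omega)]; simpa using h)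
      let v : Fin (N + 1) → E := fun i => if i = 0 then (Real.sqrt (nsq n))⁻¹ • (WithLp.toLp 2 n : E)
        else (Real.sqrt (nsq c))⁻¹ • (WithLp.toLp 2 c : E)
      have hinner : inner ℝ (WithLp.toLp 2 n : E) (WithLp.toLp 2 c : E) = 0 := by
        rw [← dot_eq_inner]; exact hc
      have hv : Orthonormal ℝ (({0, Fin.last N} : Set (Fin (N + 1))).domRestrict v) := by
        constructor
        · rintro ⟨i, hi⟩
          simp only [Set.domRestrict_apply, v]
          split_ifs
          · simp only [norm_smul, hnn, norm_inv, Real.norm_eq_abs,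
              abs_of_nonneg (Real.sqrt_nonneg _)]
            exact inv_mul_cancel₀ hnu
          · simp only [norm_smul, hcn, norm_inv, Real.norm_eq_abs,
              abs_of_nonneg (Real.sqrt_nonneg _)]
            exact inv_mul_cancel₀ hga
        · rintro ⟨i, hi⟩ ⟨j, hj⟩ hij
          have hij' : i ≠ j := fun h => hij (Subtype.ext h)
          simp only [Set.domRestrict_apply, v]
          simp only [mem_insert_iff, mem_singleton_iff] at hi hj
          rcases hi with rfl | rfl <;> rcases hj with rfl | rfl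
          · exact absurd rfl hij'
          · simp [hN, inner_smul_left, inner_smul_right, hinner]
          · rw [real_inner_comm]
            simp [hN, inner_smul_left, inner_smul_right, hinner]
          · exact absurd rfl hij'
      obtain ⟨b, hb⟩ := hv.exists_orthonormalBasis_extension_of_card_eq (by rw [Fintype.card_fin]; exact finrank_euclideanSpace_fin)
      refine ⟨b, ?_, ?_⟩
      · intro y
        rw [hb 0 (by simp)]
        simp only [v, if_true]
        rw [inner_smul_left]
        simp only [conj_trivial]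
        rw [← mul_assoc, mul_inv_cancel₀ hnu, one_mul]
      · intro y
        rw [hb (Fin.last N) (by simp)]
        simp only [v, hN, if_false]
        rw [inner_smul_left]
        simp only [conj_trivial]
        rw [← mul_assoc, mul_inv_cancel₀ hga, one_mul]
  obtain ⟨b, hb0, hb1⟩ := main
  let e : (Fin (N + 1) → ℝ) ≃ᵐ (Fin (N + 1) → ℝ) :=
    ((MeasurableEquiv.toLp 2 (Fin (N + 1) → ℝ)).trans b.measurableEquiv.symm).trans
      (MeasurableEquiv.toLp 2 (Fin (N + 1) → ℝ)).symm
  have he : ∀ z, e z = (b.repr.symm (WithLp.toLp 2 z)).ofLp := fun z => rfl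
  refine ⟨e, ?_, ?_⟩
  · have h1 : MeasurePreserving (MeasurableEquiv.toLp 2 (Fin (N + 1) → ℝ)) volume volume :=
      PiLp.volume_preserving_toLp (Fin (N + 1))
    have h2 : MeasurePreserving b.measurableEquiv.symm volume volume :=
      b.measurePreserving_measurableEquiv.symm
    have h3 : MeasurePreserving (MeasurableEquiv.toLp 2 (Fin (N + 1) → ℝ)).symm volume volume :=
      PiLp.volume_preserving_ofLp (Fin (N + 1))
    exact (h1.trans h2).trans h3
  · intro z
    have hz : ∀ i, inner ℝ (b i) (b.repr.symm (WithLp.toLp 2 z)) = z i := by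
      intro i
      rw [← b.repr_apply_apply]
      simp
    refine ⟨?_, ?_, ?_⟩
    · rw [he, nsq_eq_norm, LinearIsometryEquiv.norm_map, ← nsq_eq_norm]
    · rw [he]
      have := dot_eq_inner (WithLp.toLp 2 n : E) (b.repr.symm (WithLp.toLp 2 z))
      rw [hb0, hz] at this
      exact this
    · rw [he]
      have := dot_eq_inner (WithLp.toLp 2 c : E) (b.repr.symm (WithLp.toLp 2 z))
      rw [hb1, hz] at this
      exact this

/-- The last coordinate, or zero in dimension zero. -/
noncomputable def lst {N : ℕ} (z : Fin N → ℝ) : ℝ := if h : 0 < N then z ⟨N - 1, by omega⟩ else 0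

theorem lst_smul {N : ℕ} (r : ℝ) (z : Fin N → ℝ) : lst (r • z) = r * lst z := by
  unfold lst
  split_ifs <;> simp

theorem lst_neg {N : ℕ} (z : Fin N → ℝ) : lst (-z) = - lst z := by
  unfold lst
  split_ifs <;> simp

theorem continuous_lst {N : ℕ} : Continuous (lst (N := N)) := by
  unfold lst
  split_ifs
  · exact continuous_apply _
  · exact continuous_const

theorem continuous_nsq {N : ℕ} : Continuous (nsq (n := N)) := by
  unfold nsq
  fun_prop

theorem continuous_dot {N : ℕ} (a : Fin N → ℝ) : Continuous (dot a) := by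
  unfold dot
  fun_prop

theorem nsq_smul {N : ℕ} (r : ℝ) (z : Fin N → ℝ) : nsq (r • z) = r ^ 2 * nsq z := by
  simp [nsq, mul_pow, Finset.mul_sum]

theorem nsq_neg {N : ℕ} (z : Fin N → ℝ) : nsq (-z) = nsq z := by
  simp [nsq]

theorem nsq_cons {N : ℕ} (p : ℝ) (z : Fin N → ℝ) :
    nsq (Fin.cons p z : Fin (N + 1) → ℝ) = p ^ 2 + nsq z := by
  simp [nsq, Fin.sum_univ_succ]

theorem dot_cons {N : ℕ} (p q : ℝ) (a z : Fin N → ℝ) :
    dot (Fin.cons p a : Fin (N + 1) → ℝ) (Fin.cons q z : Fin (N + 1) → ℝ) = p * q + dot a z := by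
  simp [dot, Fin.sum_univ_succ]

/-- Integral of a power of the last coordinate over a ball. -/
noncomputable def dI (N i : ℕ) (ρ : ℝ) : ℝ :=
  ∫ z : Fin N → ℝ, ({z | nsq z ≤ ρ} : Set (Fin N → ℝ)).indicator (fun z => lst z ^ i) z

theorem dI_scale (N i : ℕ) {ρ : ℝ} (hρ : 0 < ρ) :
    dI N i ρ = Real.sqrt ρ ^ (N + i) * dI N i 1 := by
  have hs : 0 < Real.sqrt ρ := Real.sqrt_pos.mpr hρ
  have h := Measure.integral_comp_smul (volume : Measure (Fin N → ℝ))
    (({z | nsq z ≤ ρ} : Set (Fin N → ℝ)).indicator (fun z => lst z ^ i)) (Real.sqrt ρ)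
  have h2 : ∀ z : Fin N → ℝ,
      ({z | nsq z ≤ ρ} : Set (Fin N → ℝ)).indicator (fun z => lst z ^ i) (Real.sqrt ρ • z)
        = Real.sqrt ρ ^ i * ({z | nsq z ≤ 1} : Set (Fin N → ℝ)).indicator (fun z => lst z ^ i) z := by
    intro z
    have : nsq (Real.sqrt ρ • z) ≤ ρ ↔ nsq z ≤ 1 := by
      rw [nsq_smul, Real.sq_sqrt hρ.le]
      constructor
      · intro h
        by_contra h'
        push Not at h'
        nlinarith
      · intro h
        nlinarith
    by_cases hz : nsq z ≤ 1
    · rw [indicator_of_mem (by simpa using this.mpr hz), indicator_of_mem (by simpa using hz),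
        lst_smul, mul_pow]
    · rw [indicator_of_notMem (by simpa using (this.not.mpr hz)),
        indicator_of_notMem (by simpa using hz), mul_zero]
  simp_rw [h2] at h
  rw [integral_const_mul] at h
  have h3 : Module.finrank ℝ (Fin N → ℝ) = N := by simp
  rw [h3, abs_of_pos (by positivity), smul_eq_mul] at h
  have h4 : dI N i ρ = Real.sqrt ρ ^ N * ((Real.sqrt ρ ^ N)⁻¹ * dI N i ρ) := by
    rw [← mul_assoc, mul_inv_cancel₀ (by positivity), one_mul]
  rw [h4]
  unfold dI
  rw [← h]
  ring

theorem dI_odd (N i : ℕ) (hi : Odd i) (ρ : ℝ) : dI N i ρ = 0 := by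
  have h := integral_neg_eq_self
    (({z | nsq z ≤ ρ} : Set (Fin N → ℝ)).indicator (fun z => lst z ^ i)) (volume)
  have h2 : ∀ z : Fin N → ℝ,
      ({z | nsq z ≤ ρ} : Set (Fin N → ℝ)).indicator (fun z => lst z ^ i) (-z)
        = - ({z | nsq z ≤ ρ} : Set (Fin N → ℝ)).indicator (fun z => lst z ^ i) z := by
    intro z
    by_cases hz : nsq z ≤ ρ
    · rw [indicator_of_mem (by simpa [nsq_neg] using hz), indicator_of_mem (by simpa using hz),
        lst_neg, hi.neg_pow]
    · rw [indicator_of_notMem (by simpa [nsq_neg] using hz),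
        indicator_of_notMem (by simpa using hz), neg_zero]
  simp_rw [h2] at h
  rw [integral_neg] at h
  unfold dI
  linarith

theorem dI_eq (N i : ℕ) (hN : Even N) {ρ : ℝ} (hρ : 0 < ρ) :
    dI N i ρ = dI N i 1 * ρ ^ ((N + i) / 2) := by
  rcases Nat.even_or_odd i with hi | hi
  · rw [dI_scale N i hρ, mul_comm]
    congr 1
    obtain ⟨l, hl⟩ := hN.add hi
    rw [hl]
    have : (l + l) / 2 = l := by omega
    rw [this, ← two_mul, pow_mul, Real.sq_sqrt hρ.le]
  · rw [dI_odd N i hi, dI_odd N i hi, zero_mul]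

theorem dI_neg (N i : ℕ) {ρ : ℝ} (hρ : ρ < 0) : dI N i ρ = 0 := by
  unfold dI
  have : ({z | nsq z ≤ ρ} : Set (Fin N → ℝ)) = ∅ := by
    ext z
    simp only [mem_setOf_eq, mem_empty_iff_false, iff_false, not_le]
    exact lt_of_lt_of_le hρ (nsq_nonneg z)
  rw [this]
  simp

theorem exists_rot' {N : ℕ} (n c : Fin (N + 1) → ℝ) (hn : n ≠ 0) (hc : dot n c = 0) :
    ∃ e : (Fin (N + 1) → ℝ) ≃ᵐ (Fin (N + 1) → ℝ), MeasurePreserving e volume volume ∧
      ∀ z, nsq (e z) = nsq z ∧ dot n (e z) = Real.sqrt (nsq n) * z 0 ∧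
        dot c (e z) = Real.sqrt (nsq c) * lst (Fin.tail z) := by
  obtain ⟨e, he, h⟩ := exists_rot n c hn hc
  refine ⟨e, he, fun z => ⟨(h z).1, (h z).2.1, ?_⟩⟩
  rw [(h z).2.2]
  rcases Nat.eq_zero_or_pos N with h0 | h0
  · subst h0
    have h1 : n 0 * c 0 = 0 := by simpa [dot] using hc
    have hc0 : c = 0 := by
      rcases mul_eq_zero.mp h1 with h | h
      · exact absurd (by ext i; rw [show i = 0 from Fin.ext (by omega)]; simpa using h) hn
      · ext i; rw [show i = 0 from Fin.ext (by omega)]; simpa using h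
    rw [hc0]
    simp [nsq]
  · congr 1
    unfold lst
    rw [dif_pos h0]
    unfold Fin.tail
    congr 1
    ext
    simp
    omega

theorem integral_cons {N : ℕ} (F : (Fin (N + 1) → ℝ) → ℝ) :
    ∫ z, F z = ∫ q : ℝ × (Fin N → ℝ), F (Fin.cons q.1 q.2) := by
  have h := (volume_preserving_piFinSuccAbove (fun _ : Fin (N + 1) => ℝ) 0).symm
  rw [← h.integral_comp' (g := F)]
  congr 1
  ext q
  congr 1
  ext i
  refine Fin.cases ?_ (fun i => ?_) i
  · simp [MeasurableEquiv.piFinSuccAbove, Fin.insertNthEquiv]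
  · simp [MeasurableEquiv.piFinSuccAbove, Fin.insertNthEquiv]

theorem nsq_le_isCompact {N : ℕ} (R : ℝ) : IsCompact {z : Fin N → ℝ | nsq z ≤ R} := by
  apply Metric.isCompact_of_isClosed_isBounded
  · exact isClosed_le continuous_nsq continuous_const
  · apply (Metric.isBounded_closedBall (x := (0 : Fin N → ℝ)) (r := Real.sqrt R)).subset
    intro z hz
    rw [mem_closedBall_zero_iff, pi_norm_le_iff_of_nonneg (Real.sqrt_nonneg _)]
    intro i
    rw [Real.norm_eq_abs]
    apply Real.abs_le_sqrt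
    refine le_trans ?_ hz
    exact Finset.single_le_sum (f := fun i => z i ^ 2) (fun i _ => sq_nonneg _) (Finset.mem_univ i)

theorem nsq_prod_le_isCompact {N : ℕ} (R : ℝ) :
    IsCompact {q : ℝ × (Fin N → ℝ) | q.1 ^ 2 + nsq q.2 ≤ R} := by
  apply Metric.isCompact_of_isClosed_isBounded
  · exact isClosed_le ((continuous_fst.pow 2).add (continuous_nsq.comp continuous_snd))
      continuous_const
  · apply (Metric.isBounded_closedBall (x := (0 : ℝ × (Fin N → ℝ))) (r := Real.sqrt R)).subset
    intro q hq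
    simp only [mem_ofPred_eq] at hq
    rw [mem_closedBall_zero_iff, Prod.norm_def]
    apply max_le
    · rw [Real.norm_eq_abs]
      apply Real.abs_le_sqrt
      linarith [nsq_nonneg q.2]
    · rw [pi_norm_le_iff_of_nonneg (Real.sqrt_nonneg _)]
      intro i
      rw [Real.norm_eq_abs]
      apply Real.abs_le_sqrt
      have := Finset.single_le_sum (f := fun i => q.2 i ^ 2) (fun i _ => sq_nonneg _)
        (Finset.mem_univ i)
      have h2 : q.2 i ^ 2 ≤ nsq q.2 := this
      linarith [sq_nonneg q.1]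

theorem clamp_mem_Icc {r x : ℝ} (hr : 0 ≤ r) : clamp r x ∈ Icc (-r) r := by
  unfold clamp
  constructor
  · exact le_max_left _ _
  · exact max_le (by linarith) (min_le_left _ _)

theorem cut_integral {N : ℕ} (hN : Even N) (n c : Fin (N + 1) → ℝ) (hn : n ≠ 0)
    (hc : dot n c = 0) {ε : ℝ} (hε : 0 < ε) (s : ℝ) (i j : ℕ) :
    ∫ z, ({z | nsq z ≤ ε ^ 2 ∧ dot n z ≤ s} : Set (Fin (N + 1) → ℝ)).indicator
        (fun z => dot n z ^ j * dot c z ^ i) z
      = Real.sqrt (nsq n) ^ j * Real.sqrt (nsq c) ^ i * dI N i 1 *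
        ∫ p in (-ε)..(clamp ε (s / Real.sqrt (nsq n))), p ^ j * (ε ^ 2 - p ^ 2) ^ ((N + i) / 2) := by
  obtain ⟨e, he, h⟩ := exists_rot' n c hn hc
  set ν := Real.sqrt (nsq n) with hν
  have hν0 : 0 < ν := Real.sqrt_pos.mpr (nsq_pos hn)
  set γ := Real.sqrt (nsq c) with hγ
  rw [← he.integral_comp' , integral_cons]
  have h1 : ∀ q : ℝ × (Fin N → ℝ),
      ({z | nsq z ≤ ε ^ 2 ∧ dot n z ≤ s} : Set (Fin (N + 1) → ℝ)).indicator
        (fun z => dot n z ^ j * dot c z ^ i) (e (Fin.cons q.1 q.2))
      = ({q | q.1 ^ 2 + nsq q.2 ≤ ε ^ 2 ∧ ν * q.1 ≤ s} : Set (ℝ × (Fin N → ℝ))).indicator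
        (fun q => (ν * q.1) ^ j * (γ * lst q.2) ^ i) q := by
    intro q
    obtain ⟨ha, hb, hc⟩ := h (Fin.cons q.1 q.2)
    simp only [Fin.cons_zero, Fin.tail_cons] at ha hb hc
    rw [nsq_cons] at ha
    by_cases hq : q.1 ^ 2 + nsq q.2 ≤ ε ^ 2 ∧ ν * q.1 ≤ s
    · rw [indicator_of_mem (by simpa [ha, hb] using hq), indicator_of_mem (by simpa using hq),
        hb, hc]
    · rw [indicator_of_notMem (by simpa [ha, hb] using hq),
        indicator_of_notMem (by simpa using hq)]
  simp_rw [h1]
  have hint : Integrable (({q | q.1 ^ 2 + nsq q.2 ≤ ε ^ 2 ∧ ν * q.1 ≤ s} :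
      Set (ℝ × (Fin N → ℝ))).indicator (fun q => (ν * q.1) ^ j * (γ * lst q.2) ^ i))
      (volume.prod volume) := by
    rw [integrable_indicator_iff]
    · apply IntegrableOn.mono_set (t := {q : ℝ × (Fin N → ℝ) | q.1 ^ 2 + nsq q.2 ≤ ε ^ 2})
      · apply ContinuousOn.integrableOn_compact (nsq_prod_le_isCompact _)
        apply Continuous.continuousOn
        exact ((continuous_const.mul continuous_fst).pow _).mul
          ((continuous_const.mul (continuous_lst.comp continuous_snd)).pow _)
      · intro q hq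
        exact hq.1
    · apply MeasurableSet.inter
      · exact (nsq_prod_le_isCompact _).isClosed.measurableSet
      · exact (isClosed_le (continuous_const.mul continuous_fst) continuous_const).measurableSet
  rw [Measure.volume_eq_prod, integral_prod _ hint]
  have h2 : ∀ p : ℝ, ∫ z : Fin N → ℝ, ({q | q.1 ^ 2 + nsq q.2 ≤ ε ^ 2 ∧ ν * q.1 ≤ s} :
      Set (ℝ × (Fin N → ℝ))).indicator (fun q => (ν * q.1) ^ j * (γ * lst q.2) ^ i) (p, z)
      = ({p | ν * p ≤ s} : Set ℝ).indicator
        (fun p => ν ^ j * γ ^ i * (p ^ j * dI N i (ε ^ 2 - p ^ 2))) p := by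
    intro p
    by_cases hp : ν * p ≤ s
    · rw [indicator_of_mem (by simpa using hp)]
      unfold dI
      rw [← integral_const_mul, ← integral_const_mul]
      congr 1
      ext z
      by_cases hz : p ^ 2 + nsq z ≤ ε ^ 2
      · rw [indicator_of_mem (by simpa using ⟨hz, hp⟩),
          indicator_of_mem (by simp only [mem_ofPred_eq]; linarith)]
        simp only
        ring
      · rw [indicator_of_notMem (by simp only [mem_ofPred_eq]; tauto),
          indicator_of_notMem (by simp only [mem_ofPred_eq]; intro h; apply hz; linarith)]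
        ring
    · rw [indicator_of_notMem (by simpa using hp)]
      have : ∀ z : Fin N → ℝ, ({q | q.1 ^ 2 + nsq q.2 ≤ ε ^ 2 ∧ ν * q.1 ≤ s} :
        Set (ℝ × (Fin N → ℝ))).indicator (fun q => (ν * q.1) ^ j * (γ * lst q.2) ^ i) (p, z) = 0 := by
        intro z
        rw [indicator_of_notMem (by simp only [mem_ofPred_eq]; tauto)]
      simp_rw [this]
      simp
  simp_rw [h2]
  have hcl := clamp_mem_Icc (x := s / ν) hε.le
  rw [intervalIntegral.integral_of_le hcl.1, ← integral_indicator measurableSet_Ioc,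
    ← integral_const_mul]
  apply integral_congr_ae
  have hnull : (volume : Measure ℝ) {-ε, ε} = 0 :=
    (Set.Finite.measure_zero (by simp) _)
  filter_upwards [compl_mem_ae_iff.mpr hnull] with p hp
  simp only [mem_compl_iff, mem_insert_iff, mem_singleton_iff, not_or] at hp
  obtain ⟨hp1, hp2⟩ := hp
  by_cases hps : ν * p ≤ s
  · rw [indicator_of_mem (by simpa using hps)]
    have hps' : p ≤ s / ν := by rw [le_div_iff₀ hν0]; linarith
    by_cases hpe : p ^ 2 < ε ^ 2
    · have hpabs := abs_lt_of_sq_lt_sq' hpe hε.le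
      rw [indicator_of_mem]
      · rw [dI_eq N i hN (by linarith)]
        ring
      · refine ⟨hpabs.1, ?_⟩
        unfold clamp
        exact le_max_of_le_right (le_min hpabs.2.le hps')
    · have hpe' : ε ^ 2 < p ^ 2 := by
        rcases lt_or_eq_of_le (not_lt.mp hpe) with h | h
        · exact h
        · rcases (sq_eq_sq_iff_eq_or_eq_neg.mp h.symm) with h | h
          · exact absurd h hp2
          · exact absurd h hp1
      rw [dI_neg N i (by linarith), mul_zero, mul_zero]
      rw [indicator_of_notMem]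
      · simp
      · intro hmem
        have h3 : p ≤ ε := le_trans hmem.2 hcl.2
        nlinarith [hmem.1]
  · rw [indicator_of_notMem (by simpa using hps), indicator_of_notMem, mul_zero]
    intro hmem
    have hps' : s / ν < p := by rw [div_lt_iff₀ hν0]; linarith
    have := hmem.2
    unfold clamp at this
    rcases le_max_iff.mp this with h | h
    · exact absurd hmem.1 (by linarith)
    · exact absurd (le_trans h (min_le_right _ _)) (by linarith)

end Pool.Agent.Lib_helper77
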