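import Mathlib

/-!
A bounded algebraic subset of `ℂ^σ` is finite.
-/

set_option autoImplicit false

open MvPolynomial Ideal

namespace Pool.Agent.Lib_helper77

variable {σ : Type} [Finite σ]

/-- The zero locus of an ideal of `ℂ[X_i]` which is bounded in `ℂ^σ` is finite. -/
theorem finite_of_isBounded_zeroLocus (I : Ideal (MvPolynomial σ ℂ))
    (hb : Bornology.IsBounded (zeroLocus ℂ I)) : (zeroLocus ℂ I).Finite := by
  classical
  have := Fintype.ofFinite σ
  by_cases hI : I = ⊤
  · rw [hI, zeroLocus_top]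
    exact Set.finite_empty
  have hnt : Nontrivial (MvPolynomial σ ℂ ⧸ I) := Ideal.Quotient.nontrivial_iff.2 hI
  have hft : Algebra.FiniteType ℂ (MvPolynomial σ ℂ ⧸ I) :=
    Algebra.FiniteType.of_surjective (Ideal.Quotient.mkₐ ℂ I) (Ideal.Quotient.mkₐ_surjective ℂ I)
  obtain ⟨s, g, ginj, gfin⟩ := exists_finite_inj_algHom_of_fg ℂ (MvPolynomial σ ℂ ⧸ I)
  rcases Nat.eq_zero_or_pos s with hs | hs
  · -- finite-dimensional coordinate ring
    subst hs
    have hfin : Module.Finite ℂ (MvPolynomial σ ℂ ⧸ I) := by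
      have h1 : (g.toRingHom.comp (C : ℂ →+* MvPolynomial (Fin 0) ℂ)).Finite := by
        apply RingHom.Finite.comp gfin
        exact RingHom.Finite.of_surjective _ (C_surjective (Fin 0))
      have h2 : g.toRingHom.comp (C : ℂ →+* MvPolynomial (Fin 0) ℂ)
          = algebraMap ℂ (MvPolynomial σ ℂ ⧸ I) := by
        ext x
        exact g.commutes x
      rw [h2] at h1
      exact RingHom.finite_algebraMap.1 h1
    have hF : Finite ((MvPolynomial σ ℂ ⧸ I) →ₐ[ℂ] ℂ) :=
      Fintype.finite (minpoly.AlgHom.fintype ℂ (MvPolynomial σ ℂ ⧸ I) ℂ)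
    have hsub : zeroLocus ℂ I ⊆ Set.range (fun φ : (MvPolynomial σ ℂ ⧸ I) →ₐ[ℂ] ℂ =>
        fun i : σ => φ (Ideal.Quotient.mk I (X i))) := by
      intro x hx
      refine ⟨Ideal.Quotient.liftₐ I (aeval x) (fun p hp => hx p hp), ?_⟩
      funext i
      have : (Ideal.Quotient.liftₐ I (aeval x) (fun p hp => hx p hp)) (Ideal.Quotient.mk I (X i))
          = aeval x (X i : MvPolynomial σ ℂ) := rfl
      simp only [this, aeval_X]
    exact (Set.finite_range _).subset hsub
  · -- a coordinate function takes all values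
    exfalso
    obtain ⟨p, hp⟩ := Ideal.Quotient.mk_surjective (g (X (⟨0, hs⟩ : Fin s)))
    -- `p` is bounded on the zero locus
    obtain ⟨R, hR⟩ : ∃ R : ℝ, ∀ x ∈ zeroLocus ℂ I, ‖aeval x p‖ ≤ R := by
      have hK : IsCompact (closure (zeroLocus ℂ I)) := hb.isCompact_closure
      have hc : Continuous (fun x : σ → ℂ => aeval x p) := by
        simp only [← MvPolynomial.coe_aeval_eq_eval, MvPolynomial.aeval_eq_eval]
        exact MvPolynomial.continuous_eval p
      obtain ⟨R, hR⟩ := (hK.image hc).isBounded.exists_norm_le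
      exact ⟨R, fun x hx => hR _ ⟨x, subset_closure hx, rfl⟩⟩
    -- the value `R + 1`
    let c : ℂ := ((|R| + 1 : ℝ) : ℂ)
    let m₀ : Ideal (MvPolynomial (Fin s) ℂ) := vanishingIdeal ℂ {fun _ => c}
    have hm₀ : m₀.IsMaximal := isMaximal_iff_eq_vanishingIdeal_singleton.2 ⟨_, rfl⟩
    letI := g.toRingHom.toAlgebra
    have hint : Algebra.IsIntegral (MvPolynomial (Fin s) ℂ) (MvPolynomial σ ℂ ⧸ I) := by
      refine ⟨fun x => ?_⟩
      exact RingHom.Finite.to_isIntegral gfin x
    obtain ⟨Q, hQmax, hQ⟩ := Ideal.exists_ideal_over_maximal_of_isIntegral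
      (S := MvPolynomial σ ℂ ⧸ I) m₀ (by
        have : RingHom.ker (algebraMap (MvPolynomial (Fin s) ℂ) (MvPolynomial σ ℂ ⧸ I)) = ⊥ :=
          (RingHom.injective_iff_ker_eq_bot _).1 ginj
        rw [this]
        exact bot_le)
    have hQ' : (Q.comap (Ideal.Quotient.mk I)).IsMaximal :=
      Ideal.comap_isMaximal_of_surjective _ Ideal.Quotient.mk_surjective
    obtain ⟨x, hx⟩ := isMaximal_iff_eq_vanishingIdeal_singleton.1 hQ'
    have hxI : x ∈ zeroLocus ℂ I := by
      intro q hq
      have h1 : q ∈ Q.comap (Ideal.Quotient.mk I) := by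
        rw [Ideal.mem_comap, Ideal.Quotient.eq_zero_iff_mem.2 hq]
        exact Q.zero_mem
      rw [hx] at h1
      exact h1 x rfl
    have hpc : p - C c ∈ Q.comap (Ideal.Quotient.mk I) := by
      rw [Ideal.mem_comap, map_sub, hp]
      have h1 : (X (⟨0, hs⟩ : Fin s) - C c : MvPolynomial (Fin s) ℂ) ∈ m₀ := by
        intro y hy
        rw [Set.mem_singleton_iff.1 hy]
        simp
      rw [← hQ, Ideal.mem_comap] at h1
      have h2 : algebraMap (MvPolynomial (Fin s) ℂ) (MvPolynomial σ ℂ ⧸ I)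
          (X (⟨0, hs⟩ : Fin s) - C c)
          = g (X (⟨0, hs⟩ : Fin s)) - (Ideal.Quotient.mk I) (C c) := by
        change g (X (⟨0, hs⟩ : Fin s) - C c) = _
        rw [map_sub]
        congr 1
        exact g.commutes c
      rw [h2] at h1
      exact h1
    rw [hx] at hpc
    have h3 := hpc x rfl
    rw [map_sub, sub_eq_zero] at h3
    have h4 := hR x hxI
    rw [h3] at h4
    have h5 : aeval x (C c : MvPolynomial σ ℂ) = c := by simp
    rw [h5] at h4
    have h6 : ‖c‖ = |R| + 1 := by
      rw [Complex.norm_real, Real.norm_eq_abs, abs_of_pos (by positivity)]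
    rw [h6] at h4
    have := le_abs_self R
    linarith

end Pool.Agent.Lib_helper77
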