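import Mathlib
import Pool.Agent.Lib_helper77.BallCut

/-!
The cut-off volume of a tubular neighbourhood of a sphere, as an integral over a ball.
-/

set_option autoImplicit false

namespace Pool.Agent.Lib_helper77

open MeasureTheory Set

/-- Coefficients of the cut-off polynomial. -/
noncomputable def cf (κ l : ℕ) : ℝ := (-1) ^ (κ - l) * (κ.choose l) / (2 * (κ - l) + 1 : ℕ)

/-- Exponents of the cut-off polynomial. -/
def ex (κ l : ℕ) : ℕ := 2 * (κ - l) + 1

/-- The cut-off polynomial. -/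
noncomputable def gp (κ : ℕ) (R c : ℝ) : ℝ :=
  ∑ l ∈ Finset.range (κ + 1), cf κ l * (R ^ (2 * l) * (c ^ (ex κ l) + R ^ (ex κ l)))

/-- Its derivative with respect to the radius. -/
noncomputable def dgp (κ : ℕ) (R c : ℝ) : ℝ :=
  ∑ l ∈ Finset.range (κ + 1), cf κ l * (((2 * l : ℕ) * R ^ (2 * l - 1)) *
    (c ^ (ex κ l) + R ^ (ex κ l)) + R ^ (2 * l) * ((ex κ l : ℕ) * R ^ (ex κ l - 1)))

theorem integral_eq_gp (κ : ℕ) (R c : ℝ) :
    ∫ p in (-R)..c, (R ^ 2 - p ^ 2) ^ κ = gp κ R c := by
  have h : ∀ p : ℝ, (R ^ 2 - p ^ 2) ^ κ = ∑ l ∈ Finset.range (κ + 1),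
      (R ^ (2 * l) * ((-1) ^ (κ - l) * (κ.choose l))) * p ^ (2 * (κ - l)) := by
    intro p
    rw [sub_eq_add_neg, add_pow]
    apply Finset.sum_congr rfl
    intro l _
    rw [neg_pow (p ^ 2), ← pow_mul, ← pow_mul]
    ring
  simp_rw [h]
  rw [intervalIntegral.integral_finsetSum]
  · unfold gp
    apply Finset.sum_congr rfl
    intro l _
    rw [intervalIntegral.integral_const_mul, integral_pow]
    unfold cf ex
    have hodd : Odd (2 * (κ - l) + 1) := ⟨κ - l, rfl⟩
    rw [hodd.neg_pow]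
    push_cast
    field_simp
    ring
  · intro l _
    apply Continuous.intervalIntegrable
    fun_prop

theorem gp_neg (κ : ℕ) (R : ℝ) : gp κ R (-R) = 0 := by
  rw [← integral_eq_gp, intervalIntegral.integral_same]

theorem gp_self (κ : ℕ) (R : ℝ) : gp κ R R = gp κ 1 1 * R ^ (2 * κ + 1) := by
  unfold gp
  rw [Finset.sum_mul]
  apply Finset.sum_congr rfl
  intro l hl
  have hl' : l ≤ κ := by simpa [Nat.lt_succ_iff] using hl
  have : R ^ (2 * κ + 1) = R ^ (2 * l) * R ^ (ex κ l) := by
    rw [← pow_add]; unfold ex; congr 1; omega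
  rw [this]
  simp only [one_pow]
  ring

theorem hasDerivAt_gp (κ : ℕ) (R c : ℝ) : HasDerivAt (fun R => gp κ R c) (dgp κ R c) R := by
  unfold gp dgp
  apply HasDerivAt.fun_sum
  intro l _
  apply HasDerivAt.const_mul
  apply HasDerivAt.fun_mul
  · exact hasDerivAt_pow _ _
  · exact (hasDerivAt_pow (ex κ l) R).const_add _

theorem continuous_gp (κ : ℕ) {X : Type} [TopologicalSpace X] {f g : X → ℝ} (hf : Continuous f)
    (hg : Continuous g) : Continuous (fun x => gp κ (f x) (g x)) := by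
  unfold gp
  fun_prop

theorem continuous_dgp (κ : ℕ) {X : Type} [TopologicalSpace X] {f g : X → ℝ} (hf : Continuous f)
    (hg : Continuous g) : Continuous (fun x => dgp κ (f x) (g x)) := by
  unfold dgp
  fun_prop

/-- The surface measure (up to a constant) of the cut sphere. -/
noncomputable def gs (κ : ℕ) (τ R : ℝ) : ℝ :=
  dgp κ R τ - (if R ≤ τ then dgp κ R τ - gp κ 1 1 * ((2 * κ + 1 : ℕ) * R ^ (2 * κ)) else 0)
    - (if τ ≤ -R then dgp κ R τ else 0)

theorem hasDerivAt_gclamp (κ : ℕ) {τ R : ℝ} (hR : 0 < R) (h : R ≠ |τ|) :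
    HasDerivAt (fun R => gp κ R (clamp R τ)) (gs κ τ R) R := by
  rcases lt_or_gt_of_ne h with h | h
  · rcases lt_or_ge 0 τ with h0 | h0
    · rw [abs_of_pos h0] at h
      have e1 : gs κ τ R = gp κ 1 1 * ((2 * κ + 1 : ℕ) * R ^ (2 * κ)) := by
        unfold gs
        rw [if_pos h.le, if_neg (by linarith)]
        ring
      have e2 : (fun R => gp κ R (clamp R τ)) =ᶠ[nhds R] (fun R => gp κ 1 1 * R ^ (2 * κ + 1)) := by
        filter_upwards [eventually_lt_nhds h, eventually_gt_nhds hR] with r hr1 hr2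
        rw [← gp_self]
        congr 1
        unfold clamp
        rw [min_eq_left hr1.le, max_eq_right (by linarith)]
      rw [e1]
      refine HasDerivAt.congr_of_eventuallyEq ?_ e2
      apply HasDerivAt.const_mul
      exact hasDerivAt_pow (2 * κ + 1) R
    · rw [abs_of_nonpos h0] at h
      have e1 : gs κ τ R = 0 := by
        unfold gs
        rw [if_neg (by linarith), if_pos (by linarith)]
        ring
      have e2 : (fun R => gp κ R (clamp R τ)) =ᶠ[nhds R] (fun _ => 0) := by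
        filter_upwards [eventually_lt_nhds h, eventually_gt_nhds hR] with r hr1 hr2
        rw [← gp_neg κ r]
        congr 1
        unfold clamp
        rw [min_eq_right (by linarith), max_eq_left (by linarith)]
      rw [e1]
      exact HasDerivAt.congr_of_eventuallyEq (hasDerivAt_const _ _) e2
  · have h1 := abs_lt.mp h
    have e1 : gs κ τ R = dgp κ R τ := by
      unfold gs
      rw [if_neg (by linarith), if_neg (by linarith)]
      ring
    have e2 : (fun R => gp κ R (clamp R τ)) =ᶠ[nhds R] (fun R => gp κ R τ) := by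
      filter_upwards [eventually_gt_nhds h] with r hr1
      have h2 := abs_lt.mp hr1
      congr 1
      unfold clamp
      rw [min_eq_right (by linarith), max_eq_right (by linarith)]
    rw [e1]
    exact HasDerivAt.congr_of_eventuallyEq (hasDerivAt_gp κ R τ) e2

theorem continuous_gclamp (κ : ℕ) (τ : ℝ) : Continuous (fun R => gp κ R (clamp R τ)) := by
  apply continuous_gp κ continuous_id
  unfold clamp
  fun_prop

theorem measurable_gs (κ : ℕ) (τ : ℝ) : Measurable (gs κ τ) := by
  unfold gs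
  apply Measurable.sub
  · apply Measurable.sub
    · exact (continuous_dgp κ continuous_id continuous_const).measurable
    · apply Measurable.ite measurableSet_Iic _ measurable_const
      exact ((continuous_dgp κ continuous_id continuous_const).sub (by fun_prop)).measurable
  · apply Measurable.ite _ _ measurable_const
    · exact measurableSet_le measurable_const measurable_neg
    · exact (continuous_dgp κ continuous_id continuous_const).measurable

theorem intervalIntegrable_gs (κ : ℕ) (τ a b : ℝ) : IntervalIntegrable (gs κ τ) volume a b := by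
  have h1 : IntervalIntegrable (fun R => dgp κ R τ) volume a b :=
    (continuous_dgp κ continuous_id continuous_const).intervalIntegrable _ _
  have h2 : IntervalIntegrable (fun R => dgp κ R τ - gp κ 1 1 * ((2 * κ + 1 : ℕ) * R ^ (2 * κ)))
      volume a b :=
    ((continuous_dgp κ continuous_id continuous_const).sub (by fun_prop)).intervalIntegrable _ _
  unfold gs
  apply IntervalIntegrable.sub
  · apply IntervalIntegrable.sub h1
    rw [intervalIntegrable_iff] at h2 ⊢
    have := IntegrableOn.indicator h2 (t := {R | R ≤ τ}) measurableSet_Iic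
    exact this
  · rw [intervalIntegrable_iff] at h1 ⊢
    have := IntegrableOn.indicator h1 (t := {R | τ ≤ -R})
      (measurableSet_le measurable_const measurable_neg)
    exact this

theorem integral_gs (κ : ℕ) (τ : ℝ) {w : ℝ} (h0 : 0 ≤ w) (h1 : w < 1) :
    ∫ v in (-w)..w, gs κ τ (1 + v) = gp κ (1 + w) (clamp (1 + w) τ) -
      gp κ (1 - w) (clamp (1 - w) τ) := by
  rw [intervalIntegral.integral_comp_add_left (fun R => gs κ τ R)]
  have h := integral_eq_of_hasDerivAt_off_countable (fun R => gp κ R (clamp R τ)) (gs κ τ)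
    (a := 1 + -w) (b := 1 + w) (countable_singleton |τ|) (continuous_gclamp κ τ).continuousOn
    ?_ (intervalIntegrable_gs κ τ _ _)
  · rw [h]; rfl
  · intro x hx
    rw [min_eq_left (by linarith), max_eq_right (by linarith)] at hx
    exact hasDerivAt_gclamp κ (by linarith [hx.1.1]) (by simpa using hx.2)

theorem volume_cut (κ : ℕ) (a : Fin (2 * κ + 1) → ℝ) (ha : a ≠ 0) {R : ℝ} (hR : 0 < R) (s : ℝ) :
    (volume : Measure (Fin (2 * κ + 1) → ℝ)).real {x | nsq x ≤ R ^ 2 ∧ dot a x ≤ s}
      = dI (2 * κ) 0 1 * gp κ R (clamp R (s / Real.sqrt (nsq a))) := by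
  have h := cut_integral (N := 2 * κ) (even_two_mul κ) a 0 ha (by simp [dot]) hR s 0 0
  simp only [pow_zero, mul_one, one_mul, add_zero] at h
  have h2 : 2 * κ / 2 = κ := by omega
  rw [h2, integral_eq_gp] at h
  rw [← h, ← integral_indicator_one]
  · rfl
  · apply MeasurableSet.inter
    · exact (isClosed_le continuous_nsq continuous_const).measurableSet
    · exact (isClosed_le (continuous_dot a) continuous_const).measurableSet

theorem sphere_null {n : ℕ} {R : ℝ} (hR : 0 < R) :
    (volume : Measure (Fin n → ℝ)) {x | nsq x = R ^ 2} = 0 := by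
  have h1 := Measure.addHaar_sphere_of_ne_zero (volume : Measure (EuclideanSpace ℝ (Fin n))) 0 hR.ne'
  have h2 := (PiLp.volume_preserving_toLp (Fin n)).measure_preimage
    (s := Metric.sphere (0 : EuclideanSpace ℝ (Fin n)) R)
    (Metric.isClosed_sphere.measurableSet.nullMeasurableSet)
  rw [h1] at h2
  rw [← h2]
  congr 1
  ext x
  have h3 := nsq_eq_norm (WithLp.toLp 2 x : EuclideanSpace ℝ (Fin n))
  simp only [mem_ofPred_eq, mem_preimage, mem_sphere_iff_norm, sub_zero]
  change nsq x = _ at h3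
  rw [h3]
  rw [sq_eq_sq₀ (norm_nonneg _) hR.le]

theorem volume_cut_lt (κ : ℕ) (a : Fin (2 * κ + 1) → ℝ) (ha : a ≠ 0) {R : ℝ} (hR : 0 < R) (s : ℝ) :
    (volume : Measure (Fin (2 * κ + 1) → ℝ)).real {x | nsq x < R ^ 2 ∧ dot a x ≤ s}
      = dI (2 * κ) 0 1 * gp κ R (clamp R (s / Real.sqrt (nsq a))) := by
  rw [← volume_cut κ a ha hR s]
  apply measureReal_congr
  have := sphere_null (n := 2 * κ + 1) hR
  filter_upwards [compl_mem_ae_iff.mpr this] with x hx
  simp only [mem_compl_iff, mem_ofPred_eq] at hx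
  apply propext
  change (nsq x < R ^ 2 ∧ dot a x ≤ s) ↔ (nsq x ≤ R ^ 2 ∧ dot a x ≤ s)
  constructor
  · rintro ⟨h1, h2⟩; exact ⟨h1.le, h2⟩
  · rintro ⟨h1, h2⟩; exact ⟨lt_of_le_of_ne h1 hx, h2⟩

/-- The slice of the cut tube. -/
theorem volume_slice (κ : ℕ) (a : Fin (2 * κ + 1) → ℝ) (ha : a ≠ 0) {w : ℝ} (hw : 0 ≤ w)
    (hw1 : w < 1) (s : ℝ) :
    (volume : Measure (Fin (2 * κ + 1) → ℝ)).real
        {x | (Real.sqrt (nsq x) - 1) ^ 2 ≤ w ^ 2 ∧ dot a x ≤ s}
      = dI (2 * κ) 0 1 * ∫ v in (-w)..w, gs κ (s / Real.sqrt (nsq a)) (1 + v) := by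
  rw [integral_gs κ _ hw hw1, mul_sub, ← volume_cut κ a ha (by linarith) s,
    ← volume_cut_lt κ a ha (by linarith) s]
  have hset : {x : Fin (2 * κ + 1) → ℝ | (Real.sqrt (nsq x) - 1) ^ 2 ≤ w ^ 2 ∧ dot a x ≤ s}
      = {x | nsq x ≤ (1 + w) ^ 2 ∧ dot a x ≤ s} \ {x | nsq x < (1 - w) ^ 2 ∧ dot a x ≤ s} := by
    ext x
    simp only [mem_ofPred_eq, mem_sdiff, not_and, not_le]
    have h1 : (Real.sqrt (nsq x) - 1) ^ 2 ≤ w ^ 2 ↔ nsq x ≤ (1 + w) ^ 2 ∧ (1 - w) ^ 2 ≤ nsq x := by
      have hs := Real.sqrt_nonneg (nsq x)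
      have hsq := Real.sq_sqrt (nsq_nonneg x)
      constructor
      · intro h
        have h' := abs_le_of_sq_le_sq' h hw
        constructor
        · rw [← hsq]; nlinarith
        · rw [← hsq]; nlinarith
      · rintro ⟨h2, h3⟩
        have h4 : Real.sqrt (nsq x) ≤ 1 + w := Real.sqrt_le_iff.mpr ⟨by linarith, h2⟩
        have h5 : 1 - w ≤ Real.sqrt (nsq x) := Real.le_sqrt_of_sq_le h3
        nlinarith
    rw [h1]
    constructor
    · rintro ⟨⟨h2, h3⟩, h4⟩
      exact ⟨⟨h2, h4⟩, fun h5 => absurd h5 (not_lt.mpr h3)⟩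
    · rintro ⟨⟨h2, h3⟩, h4⟩
      refine ⟨⟨h2, ?_⟩, h3⟩
      by_contra h5
      exact absurd h3 (not_le.mpr (h4 (not_le.mp h5)))
  have hfin : (volume : Measure (Fin (2 * κ + 1) → ℝ)) {x | nsq x ≤ (1 + w) ^ 2 ∧ dot a x ≤ s} ≠ ⊤ := by
    have hK : (volume : Measure (Fin (2 * κ + 1) → ℝ)) {x | nsq x ≤ (1 + w) ^ 2} ≠ ⊤ :=
      (nsq_le_isCompact ((1 + w) ^ 2)).measure_lt_top.ne
    apply ne_top_of_le_ne_top hK
    apply measure_mono
    intro x hx
    exact hx.1
  rw [hset, measureReal_sdiff ?_ ?_ hfin]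
  · intro x hx
    refine ⟨?_, hx.2⟩
    have h1 := hx.1
    nlinarith
  · apply MeasurableSet.inter
    · exact (isOpen_lt continuous_nsq continuous_const).measurableSet
    · exact (isClosed_le (continuous_dot a) continuous_const).measurableSet

/-- The integrand on the ball. -/
noncomputable def tg (κ : ℕ) {m : ℕ} (α : ℝ) (b : Fin m → ℝ) (t : ℝ) (v : ℝ) (y : Fin m → ℝ) : ℝ :=
  gs κ ((t - dot b y) / α) (1 + v)

theorem tg_integrable (κ m : ℕ) (α : ℝ) (b : Fin m → ℝ) (t ε : ℝ) :
    Integrable (({q | q.1 ^ 2 + nsq q.2 ≤ ε ^ 2} : Set (ℝ × (Fin m → ℝ))).indicator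
      (fun q => tg κ α b t q.1 q.2)) (volume.prod volume) := by
  have hK := nsq_prod_le_isCompact (N := m) (ε ^ 2)
  rw [integrable_indicator_iff hK.isClosed.measurableSet]
  have c1 : Continuous (fun q : ℝ × (Fin m → ℝ) => (t - dot b q.2) / α) :=
    (continuous_const.sub ((continuous_dot b).comp continuous_snd)).div_const _
  have c2 : Continuous (fun q : ℝ × (Fin m → ℝ) => 1 + q.1) := continuous_const.add continuous_fst
  have c3 : Continuous (fun q : ℝ × (Fin m → ℝ) => dgp κ (1 + q.1) ((t - dot b q.2) / α)) :=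
    continuous_dgp κ c2 c1
  have c4 : Continuous (fun q : ℝ × (Fin m → ℝ) => dgp κ (1 + q.1) ((t - dot b q.2) / α)
      - gp κ 1 1 * ((2 * κ + 1 : ℕ) * (1 + q.1) ^ (2 * κ))) :=
    c3.sub (continuous_const.mul (continuous_const.mul (c2.pow _)))
  have i3 := c3.continuousOn.integrableOn_compact (μ := (volume : Measure ℝ).prod volume) hK
  have i4 := c4.continuousOn.integrableOn_compact (μ := (volume : Measure ℝ).prod volume) hK
  have m1 : MeasurableSet {q : ℝ × (Fin m → ℝ) | 1 + q.1 ≤ (t - dot b q.2) / α} :=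
    (isClosed_le c2 c1).measurableSet
  have m2 : MeasurableSet {q : ℝ × (Fin m → ℝ) | (t - dot b q.2) / α ≤ -(1 + q.1)} :=
    (isClosed_le c1 c2.neg).measurableSet
  exact (i3.sub (i4.indicator m1)).sub (i3.indicator m2)

theorem volume_tube (κ m : ℕ) (a : Fin (2 * κ + 1) → ℝ) (ha : a ≠ 0) (b : Fin m → ℝ) (t : ℝ)
    {ε : ℝ} (hε : 0 < ε) (hε1 : ε < 1) :
    (volume : Measure ((Fin (2 * κ + 1) → ℝ) × (Fin m → ℝ))).real
      {p | (Real.sqrt (nsq p.1) - 1) ^ 2 + nsq p.2 ≤ ε ^ 2 ∧ dot a p.1 + dot b p.2 ≤ t}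
    = dI (2 * κ) 0 1 * ∫ z : Fin (m + 1) → ℝ,
        ({z | nsq z ≤ ε ^ 2} : Set (Fin (m + 1) → ℝ)).indicator
          (fun z => tg κ (Real.sqrt (nsq a)) b t (z 0) (Fin.tail z)) z := by
  set α := Real.sqrt (nsq a) with hα
  have hclosed : IsClosed {p : (Fin (2 * κ + 1) → ℝ) × (Fin m → ℝ) |
      (Real.sqrt (nsq p.1) - 1) ^ 2 + nsq p.2 ≤ ε ^ 2 ∧ dot a p.1 + dot b p.2 ≤ t} := by
    have h1 : IsClosed {p : (Fin (2 * κ + 1) → ℝ) × (Fin m → ℝ) |
      (Real.sqrt (nsq p.1) - 1) ^ 2 + nsq p.2 ≤ ε ^ 2} := by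
      apply isClosed_le _ continuous_const
      exact (((Real.continuous_sqrt.comp (continuous_nsq.comp continuous_fst)).sub
        continuous_const).pow 2).add (continuous_nsq.comp continuous_snd)
    have h2 : IsClosed {p : (Fin (2 * κ + 1) → ℝ) × (Fin m → ℝ) | dot a p.1 + dot b p.2 ≤ t} := by
      apply isClosed_le _ continuous_const
      exact ((continuous_dot a).comp continuous_fst).add ((continuous_dot b).comp continuous_snd)
    exact h1.inter h2
  have hbdd : Bornology.IsBounded {p : (Fin (2 * κ + 1) → ℝ) × (Fin m → ℝ) |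
      (Real.sqrt (nsq p.1) - 1) ^ 2 + nsq p.2 ≤ ε ^ 2 ∧ dot a p.1 + dot b p.2 ≤ t} := by
    apply ((nsq_le_isCompact (N := 2 * κ + 1) (2 ^ 2)).prod
      (nsq_le_isCompact (N := m) (ε ^ 2))).isBounded.subset
    rintro ⟨x, y⟩ ⟨h1, h2⟩
    simp only at h1
    constructor
    · change nsq x ≤ 2 ^ 2
      have h3 : (Real.sqrt (nsq x) - 1) ^ 2 ≤ 1 ^ 2 := by nlinarith [nsq_nonneg y]
      have h4 := abs_le_of_sq_le_sq' h3 (by norm_num)
      rw [← Real.sq_sqrt (nsq_nonneg x)]
      nlinarith [Real.sqrt_nonneg (nsq x)]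
    · change nsq y ≤ ε ^ 2
      nlinarith [sq_nonneg (Real.sqrt (nsq x) - 1)]
  have hfin := (Metric.isCompact_of_isClosed_isBounded hclosed hbdd).measure_lt_top
    (μ := ((volume : Measure (Fin (2 * κ + 1) → ℝ)).prod (volume : Measure (Fin m → ℝ))))
  have hR : ∫ z : Fin (m + 1) → ℝ, ({z | nsq z ≤ ε ^ 2} : Set (Fin (m + 1) → ℝ)).indicator
          (fun z => tg κ α b t (z 0) (Fin.tail z)) z
      = ∫ q, ({q | q.1 ^ 2 + nsq q.2 ≤ ε ^ 2} : Set (ℝ × (Fin m → ℝ))).indicator
      (fun q => tg κ α b t q.1 q.2) q ∂((volume : Measure ℝ).prod (volume : Measure (Fin m → ℝ))) := by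
    rw [integral_cons, Measure.volume_eq_prod]
    congr 1
    ext q
    by_cases hq : q.1 ^ 2 + nsq q.2 ≤ ε ^ 2
    · rw [indicator_of_mem (by simpa [nsq_cons] using hq), indicator_of_mem (by simpa using hq)]
      simp
    · rw [indicator_of_notMem (by simpa [nsq_cons] using hq),
        indicator_of_notMem (by simpa using hq)]
  rw [hR, integral_prod_symm _ (tg_integrable κ m α b t ε), ← integral_indicator_one hclosed.measurableSet,
    Measure.volume_eq_prod, integral_prod_symm, ← integral_const_mul]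
  · congr 1
    ext y
    have hL : ∀ x, ({p : (Fin (2 * κ + 1) → ℝ) × (Fin m → ℝ) |
      (Real.sqrt (nsq p.1) - 1) ^ 2 + nsq p.2 ≤ ε ^ 2 ∧ dot a p.1 + dot b p.2 ≤ t}).indicator
      (1 : (Fin (2 * κ + 1) → ℝ) × (Fin m → ℝ) → ℝ) (x, y)
      = ({x : Fin (2 * κ + 1) → ℝ | (Real.sqrt (nsq x) - 1) ^ 2 ≤ ε ^ 2 - nsq y ∧
          dot a x ≤ t - dot b y}).indicator 1 x := by
      intro x
      by_cases hx : (Real.sqrt (nsq x) - 1) ^ 2 ≤ ε ^ 2 - nsq y ∧ dot a x ≤ t - dot b y
      · rw [indicator_of_mem, indicator_of_mem (by simpa using hx)]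
        · rfl
        · exact ⟨by simp only; linarith [hx.1], by simp only; linarith [hx.2]⟩
      · rw [indicator_of_notMem, indicator_of_notMem (by simpa using hx)]
        rintro ⟨h1, h2⟩
        simp only at h1 h2
        exact hx ⟨by linarith, by linarith⟩
    simp_rw [hL]
    by_cases hy : nsq y ≤ ε ^ 2
    · set w := Real.sqrt (ε ^ 2 - nsq y) with hw
      have hwsq : w ^ 2 = ε ^ 2 - nsq y := Real.sq_sqrt (by linarith)
      have hw0 : 0 ≤ w := Real.sqrt_nonneg _
      have hw1 : w < 1 := by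
        by_contra h
        push Not at h
        nlinarith [nsq_nonneg y]
      rw [integral_indicator_one]
      · rw [← hwsq, volume_slice κ a ha hw0 hw1]
        congr 1
        rw [intervalIntegral.integral_of_le (by linarith), ← integral_Icc_eq_integral_Ioc,
          ← integral_indicator measurableSet_Icc]
        congr 1
        ext v
        by_cases hv : v ^ 2 + nsq y ≤ ε ^ 2
        · have hv2 : v ^ 2 ≤ w ^ 2 := by linarith
          have hv3 := abs_le_of_sq_le_sq' hv2 hw0
          rw [indicator_of_mem (by exact ⟨hv3.1, hv3.2⟩),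
            indicator_of_mem (by simpa using hv)]
          rfl
        · rw [indicator_of_notMem, indicator_of_notMem (by simpa using hv)]
          rintro ⟨h1, h2⟩
          apply hv
          nlinarith
      · apply MeasurableSet.inter
        · refine (isClosed_le (f := fun x : Fin (2 * κ + 1) → ℝ => (Real.sqrt (nsq x) - 1) ^ 2)
            ?_ continuous_const).measurableSet
          exact ((Real.continuous_sqrt.comp continuous_nsq).sub continuous_const).pow 2
        · exact (isClosed_le (continuous_dot a) continuous_const).measurableSet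
    · have e1 : ∀ x : Fin (2 * κ + 1) → ℝ, ({x : Fin (2 * κ + 1) → ℝ |
          (Real.sqrt (nsq x) - 1) ^ 2 ≤ ε ^ 2 - nsq y ∧ dot a x ≤ t - dot b y}).indicator
          (1 : (Fin (2 * κ + 1) → ℝ) → ℝ) x = 0 := by
        intro x
        rw [indicator_of_notMem]
        rintro ⟨h1, h2⟩
        apply hy
        nlinarith [sq_nonneg (Real.sqrt (nsq x) - 1)]
      have e2 : ∀ v : ℝ, ({q | q.1 ^ 2 + nsq q.2 ≤ ε ^ 2} : Set (ℝ × (Fin m → ℝ))).indicator
          (fun q => tg κ α b t q.1 q.2) (v, y) = 0 := by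
        intro v
        rw [indicator_of_notMem]
        intro h1
        apply hy
        have h2 : v ^ 2 + nsq y ≤ ε ^ 2 := h1
        nlinarith [sq_nonneg v]
      simp_rw [e1, e2]
      simp
  · rw [integrable_indicator_iff hclosed.measurableSet]
    exact integrableOn_const hfin.ne

end Pool.Agent.Lib_helper77
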