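import Mathlib
import Pool.Agent.Lib_helper77.Shell

/-!
Families of polynomial integrands with algebraic coefficients, integrated over cut balls.
-/

set_option autoImplicit false

namespace Pool.Agent.Lib_helper77

open MeasureTheory Set

variable {P τ : Type} {ev : P → τ → ℝ}

/-- Evaluation of an algebraic function at a parameter. -/
noncomputable def evalAt (ev : P → τ → ℝ) (p : P) : algSub ev →+* ℝ :=
  (Pi.evalRingHom (fun _ : P => ℝ) p).comp (algSub ev).subtype

theorem evalAt_apply (p : P) (f : algSub ev) : evalAt ev p f = (f : P → ℝ) p := rfl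

/-- The ring homomorphism giving polynomial families. -/
noncomputable def famHom (ev : P → τ → ℝ) {N : ℕ} (n c : P → Fin (N + 1) → ℝ) :
    MvPolynomial (Fin 2) (algSub ev) →+* (P × (Fin (N + 1) → ℝ) → ℝ) :=
  RingHom.pi fun q => MvPolynomial.eval₂Hom (evalAt ev q.1) ![dot (n q.1) q.2, dot (c q.1) q.2]

theorem famHom_apply {N : ℕ} (n c : P → Fin (N + 1) → ℝ) (Q : MvPolynomial (Fin 2) (algSub ev))
    (p : P) (z : Fin (N + 1) → ℝ) :
    famHom ev n c Q (p, z) = ∑ d ∈ Q.support, ((Q.coeff d : algSub ev) : P → ℝ) p *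
      (dot (n p) z ^ d 0 * dot (c p) z ^ d 1) := by
  change MvPolynomial.eval₂ (evalAt ev p) ![dot (n p) z, dot (c p) z] Q = _
  rw [MvPolynomial.eval₂_eq']
  apply Finset.sum_congr rfl
  intro d _
  rw [Fin.prod_univ_two, evalAt_apply]
  rfl

theorem primitive_poly (f : Polynomial ℝ) (a : ℝ) :
    ∃ F : Polynomial ℝ, ∀ x, ∫ p in a..x, f.eval p = F.eval x := by
  have h1 : ∀ x, ∫ p in a..x, f.eval p = ∑ i ∈ Finset.range (f.natDegree + 1),
      f.coeff i * ((x ^ (i + 1) - a ^ (i + 1)) / (i + 1)) := by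
    intro x
    simp_rw [Polynomial.eval_eq_sum_range]
    rw [intervalIntegral.integral_finsetSum]
    · apply Finset.sum_congr rfl
      intro i _
      rw [intervalIntegral.integral_const_mul, integral_pow]
    · intro i _
      apply Continuous.intervalIntegrable
      fun_prop
  refine ⟨∑ i ∈ Finset.range (f.natDegree + 1), Polynomial.C (f.coeff i / (i + 1)) *
      (Polynomial.X ^ (i + 1) - Polynomial.C (a ^ (i + 1))), fun x => ?_⟩
  rw [h1, Polynomial.eval_finsetSum]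
  apply Finset.sum_congr rfl
  intro i _
  simp only [Polynomial.eval_mul, Polynomial.eval_C, Polynomial.eval_sub, Polynomial.eval_pow,
    Polynomial.eval_X]
  ring

theorem measurableSet_cut {N : ℕ} (n : Fin (N + 1) → ℝ) (ε s : ℝ) :
    MeasurableSet {z : Fin (N + 1) → ℝ | nsq z ≤ ε ^ 2 ∧ dot n z ≤ s} :=
  ((isClosed_le continuous_nsq continuous_const).inter
    (isClosed_le (continuous_dot n) continuous_const)).measurableSet

theorem integrable_cut {N : ℕ} (n : Fin (N + 1) → ℝ) (ε s : ℝ) {F : (Fin (N + 1) → ℝ) → ℝ}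
    (hF : Continuous F) :
    Integrable (({z | nsq z ≤ ε ^ 2 ∧ dot n z ≤ s} : Set (Fin (N + 1) → ℝ)).indicator F) := by
  rw [integrable_indicator_iff (measurableSet_cut n ε s)]
  apply IntegrableOn.mono_set (hF.continuousOn.integrableOn_compact (nsq_le_isCompact (ε ^ 2)))
  intro z hz
  exact hz.1

theorem fam_integral_mem {N : ℕ} (hN : Even N) (n c : P → Fin (N + 1) → ℝ) (hn : ∀ p, n p ≠ 0)
    (hc : ∀ p, dot (n p) (c p) = 0) (hn2 : (fun p => nsq (n p)) ∈ algSub ev)
    (hc2 : (fun p => nsq (c p)) ∈ algSub ev) {ε : ℝ} (hε : 0 < ε) {s : P → ℝ}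
    (hs : s ∈ algSub ev) {h : P × (Fin (N + 1) → ℝ) → ℝ} (hh : h ∈ (famHom ev n c).range) :
    (fun p => ∫ z, ({z | nsq z ≤ ε ^ 2 ∧ dot (n p) z ≤ s p} : Set (Fin (N + 1) → ℝ)).indicator
      (fun z => h (p, z)) z) ∈ algSub ev := by
  obtain ⟨Q, rfl⟩ := hh
  have key : ∀ p, ∫ z, ({z | nsq z ≤ ε ^ 2 ∧ dot (n p) z ≤ s p} :
      Set (Fin (N + 1) → ℝ)).indicator (fun z => famHom ev n c Q (p, z)) z
      = ∑ d ∈ Q.support, ((Q.coeff d : algSub ev) : P → ℝ) p *
        (Real.sqrt (nsq (n p)) ^ d 0 * Real.sqrt (nsq (c p)) ^ d 1 * dI N (d 1) 1 *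
        ∫ x in (-ε)..(clamp ε (s p / Real.sqrt (nsq (n p)))),
          x ^ d 0 * (ε ^ 2 - x ^ 2) ^ ((N + d 1) / 2)) := by
    intro p
    have h1 : ∀ z, ({z | nsq z ≤ ε ^ 2 ∧ dot (n p) z ≤ s p} :
        Set (Fin (N + 1) → ℝ)).indicator (fun z => famHom ev n c Q (p, z)) z
        = ∑ d ∈ Q.support, ((Q.coeff d : algSub ev) : P → ℝ) p *
          ({z | nsq z ≤ ε ^ 2 ∧ dot (n p) z ≤ s p} : Set (Fin (N + 1) → ℝ)).indicator
          (fun z => dot (n p) z ^ d 0 * dot (c p) z ^ d 1) z := by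
      intro z
      by_cases hz : nsq z ≤ ε ^ 2 ∧ dot (n p) z ≤ s p
      · rw [indicator_of_mem (by exact hz), famHom_apply]
        apply Finset.sum_congr rfl
        intro d _
        rw [indicator_of_mem (by exact hz)]
      · rw [indicator_of_notMem (by exact hz)]
        symm
        apply Finset.sum_eq_zero
        intro d _
        rw [indicator_of_notMem (by exact hz), mul_zero]
    simp_rw [h1]
    rw [integral_finsetSum]
    · apply Finset.sum_congr rfl
      intro d _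
      rw [integral_const_mul, cut_integral hN (n p) (c p) (hn p) (hc p) hε]
    · intro d _
      apply Integrable.const_mul
      apply integrable_cut
      exact ((continuous_dot _).pow _).mul ((continuous_dot _).pow _)
  simp_rw [key]
  apply sum_mem'
  intro d _
  apply mul_mem' (SetLike.coe_mem _)
  apply mul_mem'
  · apply mul_mem' _ (const_mem _)
    exact mul_mem' (pow_mem' (sqrt_mem' hn2) _) (pow_mem' (sqrt_mem' hc2) _)
  · obtain ⟨F, hF⟩ := primitive_poly (Polynomial.X ^ d 0 *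
      (Polynomial.C (ε ^ 2) - Polynomial.X ^ 2) ^ ((N + d 1) / 2)) (-ε)
    have : ∀ x, ∫ p in (-ε)..x, p ^ d 0 * (ε ^ 2 - p ^ 2) ^ ((N + d 1) / 2) = F.eval x := by
      intro x
      rw [← hF]
      simp
    simp_rw [this]
    apply polyEval_mem
    exact clamp_mem' (const_mem _) (div_mem' hs (sqrt_mem' hn2))

theorem dot_le {n : ℕ} (a x : Fin n → ℝ) : dot a x ≤ Real.sqrt (nsq a) * Real.sqrt (nsq x) := by
  have h1 := dot_eq_inner (WithLp.toLp 2 a : EuclideanSpace ℝ (Fin n)) (WithLp.toLp 2 x)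
  have h2 := nsq_eq_norm (WithLp.toLp 2 a : EuclideanSpace ℝ (Fin n))
  have h3 := nsq_eq_norm (WithLp.toLp 2 x : EuclideanSpace ℝ (Fin n))
  change dot a x = _ at h1
  change nsq a = _ at h2
  change nsq x = _ at h3
  rw [h1, h2, h3, Real.sqrt_sq (norm_nonneg _), Real.sqrt_sq (norm_nonneg _)]
  exact real_inner_le_norm _ _

theorem fam_integral_mem_uncut {N : ℕ} (hN : Even N) (n c : P → Fin (N + 1) → ℝ)
    (hn : ∀ p, n p ≠ 0)
    (hc : ∀ p, dot (n p) (c p) = 0) (hn2 : (fun p => nsq (n p)) ∈ algSub ev)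
    (hc2 : (fun p => nsq (c p)) ∈ algSub ev) {ε : ℝ} (hε : 0 < ε)
    {h : P × (Fin (N + 1) → ℝ) → ℝ} (hh : h ∈ (famHom ev n c).range) :
    (fun p => ∫ z, ({z | nsq z ≤ ε ^ 2} : Set (Fin (N + 1) → ℝ)).indicator
      (fun z => h (p, z)) z) ∈ algSub ev := by
  have hs : (fun p => Real.sqrt (nsq (n p)) * ε) ∈ algSub ev :=
    mul_mem' (sqrt_mem' hn2) (const_mem _)
  have := fam_integral_mem hN n c hn hc hn2 hc2 hε hs hh
  convert this using 5 with p _
  ext z
  constructor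
  · intro hz
    have hz' : nsq z ≤ ε ^ 2 := hz
    refine ⟨hz', (dot_le _ _).trans ?_⟩
    apply mul_le_mul_of_nonneg_left _ (Real.sqrt_nonneg _)
    rw [← Real.sqrt_sq hε.le]
    exact Real.sqrt_le_sqrt hz'
  · intro hz
    exact hz.1

theorem dgp_mem {X : Type} (S : Subring (X → ℝ)) (hconst : ∀ c : ℝ, (fun _ => c) ∈ S) (κ : ℕ)
    {R T : X → ℝ} (hR : R ∈ S) (hT : T ∈ S) : (fun x => dgp κ (R x) (T x)) ∈ S := by
  have h : (∑ l ∈ Finset.range (κ + 1), (fun _ => cf κ l : X → ℝ) *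
      ((((fun _ => ((2 * l : ℕ) : ℝ)) : X → ℝ) * R ^ (2 * l - 1)) * (T ^ (ex κ l) + R ^ (ex κ l)) +
        R ^ (2 * l) * (((fun _ => ((ex κ l : ℕ) : ℝ)) : X → ℝ) * R ^ (ex κ l - 1)))) ∈ S := by
    apply sum_mem
    intro l _
    apply mul_mem (hconst _)
    apply add_mem
    · exact mul_mem (mul_mem (hconst _) (pow_mem hR _)) (add_mem (pow_mem hT _) (pow_mem hR _))
    · exact mul_mem (pow_mem hR _) (mul_mem (hconst _) (pow_mem hR _))
  convert h using 1
  ext x
  simp [dgp]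

section
variable {N : ℕ} (n c : P → Fin (N + 1) → ℝ)

theorem fam_const_mem {f : P → ℝ} (hf : f ∈ algSub ev) :
    (fun q : P × (Fin (N + 1) → ℝ) => f q.1) ∈ (famHom ev n c).range := by
  refine ⟨MvPolynomial.C ⟨f, hf⟩, ?_⟩
  ext q
  simp [famHom, evalAt]

theorem fam_dotn_mem :
    (fun q : P × (Fin (N + 1) → ℝ) => dot (n q.1) q.2) ∈ (famHom ev n c).range := by
  refine ⟨MvPolynomial.X 0, ?_⟩
  ext q
  simp [famHom]

theorem fam_dotc_mem :
    (fun q : P × (Fin (N + 1) → ℝ) => dot (c q.1) q.2) ∈ (famHom ev n c).range := by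
  refine ⟨MvPolynomial.X 1, ?_⟩
  ext q
  simp [famHom]

end

end Pool.Agent.Lib_helper77
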