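import Mathlib
import Pool.Agent.Lib_helper77.PolyFam

/-!
The cut-off volume of the tube is an algebraic function.
-/

set_option autoImplicit false

namespace Pool.Agent.Lib_helper77

open MeasureTheory Set

/-- Parameters: a nonzero vector `a`, a vector `b` and a real number `t`. -/
abbrev Par (k m : ℕ) : Type := {p : (Fin k → ℝ) × (Fin m → ℝ) × ℝ // p.1 ≠ 0}

/-- The coordinates of a parameter. -/
noncomputable def parEv {k m : ℕ} (p : Par k m) : (Fin k ⊕ Fin m) ⊕ Fin 1 → ℝ :=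
  Sum.elim (Sum.elim p.1.1 p.1.2.1) ![p.1.2.2]

variable {k m : ℕ}

theorem parA_mem (i : Fin k) : (fun p : Par k m => p.1.1 i) ∈ algSub (parEv (k := k) (m := m)) :=
  coord_mem (ev := parEv (k := k) (m := m)) (Sum.inl (Sum.inl i))

theorem parB_mem (i : Fin m) : (fun p : Par k m => p.1.2.1 i) ∈ algSub (parEv (k := k) (m := m)) :=
  coord_mem (ev := parEv (k := k) (m := m)) (Sum.inl (Sum.inr i))

theorem parT_mem : (fun p : Par k m => p.1.2.2) ∈ algSub (parEv (k := k) (m := m)) :=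
  coord_mem (ev := parEv (k := k) (m := m)) (Sum.inr 0)

theorem nsq_mem {P τ : Type} {ev : P → τ → ℝ} {n : ℕ} {v : P → Fin n → ℝ}
    (h : ∀ i, (fun p => v p i) ∈ algSub ev) : (fun p => nsq (v p)) ∈ algSub ev := by
  unfold nsq
  exact sum_mem' _ fun i _ => pow_mem' (h i) 2

/-- The length of `a`. -/
noncomputable def al (p : Par k m) : ℝ := Real.sqrt (nsq p.1.1)

theorem al_pos (p : Par k m) : 0 < al p := Real.sqrt_pos.mpr (nsq_pos p.2)

theorem al_mem : (al (k := k) (m := m)) ∈ algSub (parEv (k := k) (m := m)) :=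
  sqrt_mem' (nsq_mem fun i => parA_mem i)

/-- The normal vector of the cutting hyperplane, with a sign. -/
noncomputable def nv (σ : ℝ) (p : Par k m) : Fin (m + 1) → ℝ := Fin.cons (al p) (σ • p.1.2.1)

theorem nv_ne (σ : ℝ) (p : Par k m) : nv σ p ≠ 0 := by
  intro h
  have := congrFun h 0
  simp only [nv, Fin.cons_zero, Pi.zero_apply] at this
  exact (al_pos p).ne' this

theorem nv_mem (σ : ℝ) (i : Fin (m + 1)) :
    (fun p : Par k m => nv σ p i) ∈ algSub (parEv (k := k) (m := m)) := by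
  refine Fin.cases ?_ (fun i => ?_) i
  · simpa [nv] using al_mem
  · simpa [nv] using mul_mem' (const_mem σ) (parB_mem i)

/-- The second vector. -/
noncomputable def cv (σ : ℝ) (p : Par k m) : Fin (m + 1) → ℝ :=
  Fin.cons (1 - al p ^ 2 / nsq (nv σ p)) ((-(al p / nsq (nv σ p)) * σ) • p.1.2.1)

theorem cv_mem (σ : ℝ) (i : Fin (m + 1)) :
    (fun p : Par k m => cv σ p i) ∈ algSub (parEv (k := k) (m := m)) := by
  have h1 : (fun p : Par k m => nsq (nv σ p)) ∈ algSub (parEv (k := k) (m := m)) :=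
    nsq_mem (nv_mem σ)
  refine Fin.cases ?_ (fun i => ?_) i
  · simpa [cv] using sub_mem' (const_mem 1) (div_mem' (pow_mem' al_mem 2) h1)
  · have := mul_mem' (mul_mem' (neg_mem' (div_mem' al_mem h1)) (const_mem σ)) (parB_mem i)
    simpa [cv] using this

theorem dot_smul_left {n : ℕ} (r : ℝ) (a x : Fin n → ℝ) : dot (r • a) x = r * dot a x := by
  simp [dot, Finset.mul_sum, mul_assoc]

theorem dot_smul_right {n : ℕ} (r : ℝ) (a x : Fin n → ℝ) : dot a (r • x) = r * dot a x := by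
  simp only [dot, Finset.mul_sum, Pi.smul_apply, smul_eq_mul]
  apply Finset.sum_congr rfl
  intro i _
  ring

theorem dot_self {n : ℕ} (a : Fin n → ℝ) : dot a a = nsq a := by
  simp [dot, nsq, sq]

theorem nsq_nv (σ : ℝ) (p : Par k m) : nsq (nv σ p) = al p ^ 2 + σ ^ 2 * nsq p.1.2.1 := by
  unfold nv
  rw [nsq_cons, nsq_smul]

theorem dot_nv_cv (σ : ℝ) (p : Par k m) : dot (nv σ p) (cv σ p) = 0 := by
  have h0 := nsq_pos (nv_ne σ p)
  have h1 := nsq_nv σ p
  have h2 : dot (nv σ p) (cv σ p) = al p * (1 - al p ^ 2 / nsq (nv σ p)) +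
      dot (σ • p.1.2.1) ((-(al p / nsq (nv σ p)) * σ) • p.1.2.1) := by
    unfold cv
    conv_lhs => rw [show nv σ p = (Fin.cons (al p) (σ • p.1.2.1) : Fin (m + 1) → ℝ) from rfl]
    rw [dot_cons]
    rfl
  rw [h2, dot_smul_left, dot_smul_right, dot_self]
  have h3 : σ ^ 2 * nsq p.1.2.1 = nsq (nv σ p) - al p ^ 2 := by linarith
  have h4 : σ * (-(al p / nsq (nv σ p)) * σ * nsq p.1.2.1)
      = -(al p / nsq (nv σ p)) * (σ ^ 2 * nsq p.1.2.1) := by ring
  rw [h4, h3]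
  field_simp
  ring

theorem zero_coord (σ : ℝ) (p : Par k m) (z : Fin (m + 1) → ℝ) :
    z 0 = al p / nsq (nv σ p) * dot (nv σ p) z + dot (cv σ p) z := by
  obtain ⟨x, y, rfl⟩ : ∃ x y, z = (Fin.cons x y : Fin (m + 1) → ℝ) :=
    ⟨z 0, Fin.tail z, (Fin.cons_self_tail z).symm⟩
  have h0 := nsq_pos (nv_ne σ p)
  have h1 : dot (nv σ p) (Fin.cons x y : Fin (m + 1) → ℝ) = al p * x + σ * dot p.1.2.1 y := by
    unfold nv
    rw [dot_cons, dot_smul_left]
  have h2 : dot (cv σ p) (Fin.cons x y : Fin (m + 1) → ℝ)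
      = (1 - al p ^ 2 / nsq (nv σ p)) * x + (-(al p / nsq (nv σ p)) * σ) * dot p.1.2.1 y := by
    unfold cv
    rw [dot_cons, dot_smul_left]
  rw [h1, h2, Fin.cons_zero]
  field_simp
  ring

theorem dot_nv (σ : ℝ) (p : Par k m) (z : Fin (m + 1) → ℝ) :
    dot (nv σ p) z = al p * z 0 + σ * dot p.1.2.1 (Fin.tail z) := by
  obtain ⟨x, y, rfl⟩ : ∃ x y, z = (Fin.cons x y : Fin (m + 1) → ℝ) :=
    ⟨z 0, Fin.tail z, (Fin.cons_self_tail z).symm⟩
  unfold nv
  rw [dot_cons, dot_smul_left]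
  simp

/-- The ring of polynomial families for the sign `σ`. -/
noncomputable abbrev fam (k m : ℕ) (σ : ℝ) : Subring (Par k m × (Fin (m + 1) → ℝ) → ℝ) :=
  (famHom (parEv (k := k) (m := m)) (nv σ) (cv σ)).range

theorem z0_mem (σ : ℝ) : (fun q : Par k m × (Fin (m + 1) → ℝ) => q.2 0) ∈ fam k m σ := by
  have h1 : (fun p : Par k m => nsq (nv σ p)) ∈ algSub (parEv (k := k) (m := m)) :=
    nsq_mem (nv_mem σ)
  have h2 := fam_const_mem (nv (k := k) (m := m) σ) (cv σ) (div_mem' al_mem h1)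
  have h3 := fam_dotn_mem (ev := parEv (k := k) (m := m)) (nv σ) (cv σ)
  have h4 := fam_dotc_mem (ev := parEv (k := k) (m := m)) (nv σ) (cv σ)
  have := add_mem (mul_mem h2 h3) h4
  convert this using 1
  ext q
  exact zero_coord σ q.1 q.2

theorem dotb_mem {σ : ℝ} (hσ : σ * σ = 1) :
    (fun q : Par k m × (Fin (m + 1) → ℝ) => dot q.1.1.2.1 (Fin.tail q.2)) ∈ fam k m σ := by
  have h2 := fam_const_mem (ev := parEv (k := k) (m := m)) (nv (k := k) (m := m) σ) (cv σ)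
    (const_mem σ)
  have h3 := fam_dotn_mem (ev := parEv (k := k) (m := m)) (nv σ) (cv σ)
  have h4 := fam_const_mem (nv (k := k) (m := m) σ) (cv σ) al_mem
  have := mul_mem h2 (sub_mem h3 (mul_mem h4 (z0_mem σ)))
  convert this using 1
  ext q
  simp only [Pi.mul_apply, Pi.sub_apply]
  rw [dot_nv]
  linear_combination (-(dot q.1.1.2.1 (Fin.tail q.2))) * hσ

theorem tau_mem {σ : ℝ} (hσ : σ * σ = 1) :
    (fun q : Par k m × (Fin (m + 1) → ℝ) => (q.1.1.2.2 - dot q.1.1.2.1 (Fin.tail q.2)) / al q.1)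
      ∈ fam k m σ := by
  have h2 := fam_const_mem (nv (k := k) (m := m) σ) (cv σ) parT_mem
  have h3 := fam_const_mem (nv (k := k) (m := m) σ) (cv σ) (inv_mem' al_mem)
  have := mul_mem (sub_mem h2 (dotb_mem hσ)) h3
  convert this using 1
  ext q
  simp [div_eq_mul_inv]

theorem R_mem (σ : ℝ) : (fun q : Par k m × (Fin (m + 1) → ℝ) => 1 + q.2 0) ∈ fam k m σ :=
  add_mem (one_mem _) (z0_mem σ)

theorem dgp_fam_mem (κ : ℕ) {σ : ℝ} (hσ : σ * σ = 1) :
    (fun q : Par k m × (Fin (m + 1) → ℝ) => dgp κ (1 + q.2 0)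
      ((q.1.1.2.2 - dot q.1.1.2.1 (Fin.tail q.2)) / al q.1)) ∈ fam k m σ :=
  dgp_mem (fam k m σ) (fun c => fam_const_mem (nv σ) (cv σ) (const_mem c)) κ (R_mem σ) (tau_mem hσ)

theorem top_fam_mem (κ : ℕ) (σ : ℝ) :
    (fun q : Par k m × (Fin (m + 1) → ℝ) => gp κ 1 1 * ((2 * κ + 1 : ℕ) * (1 + q.2 0) ^ (2 * κ)))
      ∈ fam k m σ := by
  have := mul_mem (fam_const_mem (nv σ) (cv σ) (const_mem (gp κ 1 1)))
    (mul_mem (fam_const_mem (nv σ) (cv σ) (const_mem ((2 * κ + 1 : ℕ) : ℝ)))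
      (pow_mem (R_mem (k := k) (m := m) σ) (2 * κ)))
  exact this

theorem continuous_tail {N : ℕ} : Continuous (Fin.tail : (Fin (N + 1) → ℝ) → (Fin N → ℝ)) := by
  unfold Fin.tail
  fun_prop

theorem tube_alg (κ m : ℕ) (hm : Even m) {ε : ℝ} (hε : 0 < ε) (hε1 : ε < 1) :
    (fun p : Par (2 * κ + 1) m =>
      (volume : Measure ((Fin (2 * κ + 1) → ℝ) × (Fin m → ℝ))).real
      {q | (Real.sqrt (nsq q.1) - 1) ^ 2 + nsq q.2 ≤ ε ^ 2 ∧
        dot p.1.1 q.1 + dot p.1.2.1 q.2 ≤ p.1.2.2})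
      ∈ algSub (parEv (k := 2 * κ + 1) (m := m)) := by
  have h1 : ∀ p : Par (2 * κ + 1) m,
      (volume : Measure ((Fin (2 * κ + 1) → ℝ) × (Fin m → ℝ))).real
      {q | (Real.sqrt (nsq q.1) - 1) ^ 2 + nsq q.2 ≤ ε ^ 2 ∧
        dot p.1.1 q.1 + dot p.1.2.1 q.2 ≤ p.1.2.2}
      = dI (2 * κ) 0 1 * ∫ z : Fin (m + 1) → ℝ,
        ({z | nsq z ≤ ε ^ 2} : Set (Fin (m + 1) → ℝ)).indicator
          (fun z => tg κ (al p) p.1.2.1 p.1.2.2 (z 0) (Fin.tail z)) z := fun p =>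
    volume_tube κ m p.1.1 p.2 p.1.2.1 p.1.2.2 hε hε1
  simp_rw [h1]
  apply mul_mem' (const_mem _)
  -- split into three integrals
  have h2 : ∀ p : Par (2 * κ + 1) m, ∫ z : Fin (m + 1) → ℝ,
        ({z | nsq z ≤ ε ^ 2} : Set (Fin (m + 1) → ℝ)).indicator
          (fun z => tg κ (al p) p.1.2.1 p.1.2.2 (z 0) (Fin.tail z)) z
      = (∫ z : Fin (m + 1) → ℝ, ({z | nsq z ≤ ε ^ 2} : Set (Fin (m + 1) → ℝ)).indicator
          (fun z => dgp κ (1 + z 0) ((p.1.2.2 - dot p.1.2.1 (Fin.tail z)) / al p)) z)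
        - (∫ z : Fin (m + 1) → ℝ, ({z | nsq z ≤ ε ^ 2 ∧ dot (nv 1 p) z ≤ p.1.2.2 - al p} :
            Set (Fin (m + 1) → ℝ)).indicator
          (fun z => dgp κ (1 + z 0) ((p.1.2.2 - dot p.1.2.1 (Fin.tail z)) / al p)
            - gp κ 1 1 * ((2 * κ + 1 : ℕ) * (1 + z 0) ^ (2 * κ))) z)
        - (∫ z : Fin (m + 1) → ℝ, ({z | nsq z ≤ ε ^ 2 ∧ dot (nv (-1) p) z ≤ -p.1.2.2 - al p} :
            Set (Fin (m + 1) → ℝ)).indicator
          (fun z => dgp κ (1 + z 0) ((p.1.2.2 - dot p.1.2.1 (Fin.tail z)) / al p)) z) := by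
    intro p
    have c1 : Continuous (fun z : Fin (m + 1) → ℝ =>
        (p.1.2.2 - dot p.1.2.1 (Fin.tail z)) / al p) :=
      (continuous_const.sub ((continuous_dot _).comp continuous_tail)).div_const _
    have c2 : Continuous (fun z : Fin (m + 1) → ℝ => 1 + z 0) :=
      continuous_const.add (continuous_apply 0)
    have c3 : Continuous (fun z : Fin (m + 1) → ℝ =>
        dgp κ (1 + z 0) ((p.1.2.2 - dot p.1.2.1 (Fin.tail z)) / al p)) := continuous_dgp κ c2 c1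
    have c4 : Continuous (fun z : Fin (m + 1) → ℝ =>
        dgp κ (1 + z 0) ((p.1.2.2 - dot p.1.2.1 (Fin.tail z)) / al p)
        - gp κ 1 1 * ((2 * κ + 1 : ℕ) * (1 + z 0) ^ (2 * κ))) :=
      c3.sub (continuous_const.mul (continuous_const.mul (c2.pow _)))
    have i1 : Integrable (({z | nsq z ≤ ε ^ 2} : Set (Fin (m + 1) → ℝ)).indicator
          (fun z => dgp κ (1 + z 0) ((p.1.2.2 - dot p.1.2.1 (Fin.tail z)) / al p))) := by
      rw [integrable_indicator_iff (nsq_le_isCompact _).isClosed.measurableSet]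
      exact c3.continuousOn.integrableOn_compact (nsq_le_isCompact _)
    have i2 := integrable_cut (nv 1 p) ε (p.1.2.2 - al p) c4
    have i3 := integrable_cut (nv (-1) p) ε (-p.1.2.2 - al p) c3
    have i12 : Integrable (fun z => ({z | nsq z ≤ ε ^ 2} : Set (Fin (m + 1) → ℝ)).indicator
          (fun z => dgp κ (1 + z 0) ((p.1.2.2 - dot p.1.2.1 (Fin.tail z)) / al p)) z
        - ({z | nsq z ≤ ε ^ 2 ∧ dot (nv 1 p) z ≤ p.1.2.2 - al p} :
            Set (Fin (m + 1) → ℝ)).indicator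
          (fun z => dgp κ (1 + z 0) ((p.1.2.2 - dot p.1.2.1 (Fin.tail z)) / al p)
            - gp κ 1 1 * ((2 * κ + 1 : ℕ) * (1 + z 0) ^ (2 * κ))) z) := i1.sub i2
    rw [← integral_sub i1 i2, ← integral_sub i12 i3]
    congr 1
    ext z
    have ha := al_pos p
    by_cases hz : nsq z ≤ ε ^ 2
    · rw [indicator_of_mem (by exact hz)]
      rw [indicator_of_mem (by exact hz)]
      have e1 : dot (nv 1 p) z ≤ p.1.2.2 - al p ↔
          1 + z 0 ≤ (p.1.2.2 - dot p.1.2.1 (Fin.tail z)) / al p := by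
        rw [dot_nv, le_div_iff₀ ha]
        constructor <;> intro h <;> linarith
      have e2 : dot (nv (-1) p) z ≤ -p.1.2.2 - al p ↔
          (p.1.2.2 - dot p.1.2.1 (Fin.tail z)) / al p ≤ -(1 + z 0) := by
        rw [dot_nv, div_le_iff₀ ha]
        constructor <;> intro h <;> linarith
      unfold tg gs
      congr 1
      · congr 1
        by_cases h : 1 + z 0 ≤ (p.1.2.2 - dot p.1.2.1 (Fin.tail z)) / al p
        · rw [if_pos h, indicator_of_mem (by exact ⟨hz, e1.mpr h⟩)]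
        · rw [if_neg h, indicator_of_notMem]
          rintro ⟨_, h'⟩
          exact h (e1.mp h')
      · by_cases h : (p.1.2.2 - dot p.1.2.1 (Fin.tail z)) / al p ≤ -(1 + z 0)
        · rw [if_pos h, indicator_of_mem (by exact ⟨hz, e2.mpr h⟩)]
        · rw [if_neg h, indicator_of_notMem]
          rintro ⟨_, h'⟩
          exact h (e2.mp h')
    · rw [indicator_of_notMem (by exact hz)]
      rw [indicator_of_notMem (by exact hz), indicator_of_notMem (by exact fun h => hz h.1),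
        indicator_of_notMem (by exact fun h => hz h.1)]
      ring
  simp_rw [h2]
  apply sub_mem'
  · apply sub_mem'
    · exact fam_integral_mem_uncut hm (nv 1) (cv 1) (nv_ne 1) (dot_nv_cv 1) (nsq_mem (nv_mem 1))
        (nsq_mem (cv_mem 1)) hε (dgp_fam_mem κ (by norm_num))
    · exact fam_integral_mem hm (nv 1) (cv 1) (nv_ne 1) (dot_nv_cv 1) (nsq_mem (nv_mem 1))
        (nsq_mem (cv_mem 1)) hε (sub_mem' parT_mem al_mem)
        (sub_mem (dgp_fam_mem κ (by norm_num)) (top_fam_mem κ 1))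
  · exact fam_integral_mem hm (nv (-1)) (cv (-1)) (nv_ne (-1)) (dot_nv_cv (-1))
      (nsq_mem (nv_mem (-1))) (nsq_mem (cv_mem (-1))) hε
      (sub_mem' (neg_mem' parT_mem) al_mem) (dgp_fam_mem κ (by norm_num))

end Pool.Agent.Lib_helper77
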