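import Mathlib

/-!
Definitions for the algebraic integrability of bodies and for the tube `T_{k,m,ε}`.
-/

set_option autoImplicit false

namespace Pool.Agent.Lib_helper77.TubeDefs

open MeasureTheory Metric

variable {ι : Type*} [Fintype ι]

/-- The cutoff function `V_K^+(ξ,t) = Vol (K ∩ {x : ⟨x,ξ⟩ ≤ t})`. -/
noncomputable def volLe (K : Set (EuclideanSpace ℝ ι)) (ξ : EuclideanSpace ℝ ι) (t : ℝ) : ℝ :=
  (volume (K ∩ {x | inner ℝ x ξ ≤ t})).toReal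

/-- The cutoff function `V_K^-(ξ,t) = Vol (K ∩ {x : ⟨x,ξ⟩ ≥ t})`. -/
noncomputable def volGe (K : Set (EuclideanSpace ℝ ι)) (ξ : EuclideanSpace ℝ ι) (t : ℝ) : ℝ :=
  (volume (K ∩ {x | t ≤ inner ℝ x ξ})).toReal

/-- The value `Φ(ξ,t,w)` of a polynomial in the variables `ξ_i`, `t`, `w`. -/
noncomputable def val (Φ : MvPolynomial (ι ⊕ Fin 2) ℝ) (ξ : EuclideanSpace ℝ ι) (t w : ℝ) : ℝ :=
  MvPolynomial.eval (Sum.elim (fun i => ξ i) ![t, w]) Φ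

/-- The body `K` is algebraically integrable: `K` is compact with non-empty interior, and some
non-zero polynomial `Φ` has `Φ(ξ,t,V_K^±(ξ,t)) = 0` for all `ξ ≠ 0` (unit vectors or not) and
all `t`, where `Φ(ξ,t,·)` is not the zero polynomial for a dense set of pairs of a unit vector
`ξ` and a number `t`. -/
def AlgebraicallyIntegrable (K : Set (EuclideanSpace ℝ ι)) : Prop :=
  IsCompact K ∧ (interior K).Nonempty ∧
  ∃ Φ : MvPolynomial (ι ⊕ Fin 2) ℝ, Φ ≠ 0 ∧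
    (∀ (ξ : EuclideanSpace ℝ ι) (t : ℝ), ξ ≠ 0 →
      val Φ ξ t (volLe K ξ t) = 0 ∧ val Φ ξ t (volGe K ξ t) = 0) ∧
    Dense {p : sphere (0 : EuclideanSpace ℝ ι) 1 × ℝ | ∃ w, val Φ p.1 p.2 w ≠ 0}

/-- The body `T_{k,m,ε}` in `ℝ^{k+m}`, whose points are the pairs `(x,y)`:
`(|x| - 1)² + |y|² ≤ ε²`. -/
def tube (k m : ℕ) (ε : ℝ) : Set (EuclideanSpace ℝ (Fin k ⊕ Fin m)) :=
  {z | (Real.sqrt (∑ i, z (Sum.inl i) ^ 2) - 1) ^ 2 + ∑ j, z (Sum.inr j) ^ 2 ≤ ε ^ 2}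

end Pool.Agent.Lib_helper77.TubeDefs
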