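import Pool.Agent.Lib_helper77.TubeOwn
import Pool.Agent.Lib_helper77.TubeDefs

/-!
Proofs: one polynomial relation for both cutoff functions, non-trivial on unit directions.
-/

set_option autoImplicit false

namespace Pool.Agent.Lib_helper77.TubeProofs

open MeasureTheory Metric Pool.Agent.Lib_helper77.TubeDefs

section Alg

variable {ι : Type*}

/-- Weights: the variables `ξ` and `t` are scaled, the last variable `w` is not. -/
def wt : ι ⊕ Fin 2 → ℕ
  | Sum.inl _ => 1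
  | Sum.inr i => if i = 0 then 1 else 0

/-- Scaling of a point. -/
def act (r : ℝ) (p : ι ⊕ Fin 2 → ℝ) : ι ⊕ Fin 2 → ℝ := fun i => r ^ wt i * p i

/-- The polynomial `F(λξ, λt, w)` in `λ`. -/
noncomputable def thetaH : MvPolynomial (ι ⊕ Fin 2) ℝ →ₐ[ℝ]
    Polynomial (MvPolynomial (ι ⊕ Fin 2) ℝ) :=
  MvPolynomial.aeval (fun i => Polynomial.C (MvPolynomial.X i) * Polynomial.X ^ wt i)

theorem thetaH_eval (F : MvPolynomial (ι ⊕ Fin 2) ℝ) (p : ι ⊕ Fin 2 → ℝ) (r : ℝ) :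
    ((thetaH F).map (MvPolynomial.eval p)).eval r = MvPolynomial.eval (act r p) F := by
  rw [Polynomial.eval_map]
  induction F using MvPolynomial.induction_on with
  | C a =>
    rw [thetaH, MvPolynomial.aeval_C, Polynomial.algebraMap_apply, Polynomial.eval₂_C,
      MvPolynomial.algebraMap_eq, MvPolynomial.eval_C, MvPolynomial.eval_C]
  | add p q hp hq => rw [map_add, Polynomial.eval₂_add, hp, hq, map_add]
  | mul_X p i hp =>
    rw [map_mul, Polynomial.eval₂_mul, hp, map_mul]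
    congr 1
    rw [thetaH, MvPolynomial.aeval_X, MvPolynomial.eval_X, Polynomial.eval₂_mul,
      Polynomial.eval₂_C, MvPolynomial.eval_X, Polynomial.eval₂_pow, Polynomial.eval₂_X, act,
      mul_comm]

theorem act_act (r s : ℝ) (p : ι ⊕ Fin 2 → ℝ) : act r (act s p) = act (s * r) p := by
  ext i
  rw [act, act, act, mul_pow]
  ring

theorem act_one (p : ι ⊕ Fin 2 → ℝ) : act 1 p = p := by
  ext i
  rw [act, one_pow, one_mul]

theorem coeff_hom (F : MvPolynomial (ι ⊕ Fin 2) ℝ) (j : ℕ) (r : ℝ) (p : ι ⊕ Fin 2 → ℝ) :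
    MvPolynomial.eval (act r p) ((thetaH F).coeff j)
      = r ^ j * MvPolynomial.eval p ((thetaH F).coeff j) := by
  have h : (thetaH F).map (MvPolynomial.eval (act r p))
      = ((thetaH F).map (MvPolynomial.eval p)).comp (Polynomial.C r * Polynomial.X) := by
    apply Polynomial.funext
    intro s
    rw [thetaH_eval, Polynomial.eval_comp, thetaH_eval, act_act, Polynomial.eval_mul,
      Polynomial.eval_C, Polynomial.eval_X]
  have h2 := congrArg (fun q => Polynomial.coeff q j) h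
  simp only [Polynomial.coeff_map, Polynomial.comp_C_mul_X_coeff] at h2
  rw [h2, mul_comm]

theorem coeff_zero_of (F : MvPolynomial (ι ⊕ Fin 2) ℝ) (j : ℕ) (p : ι ⊕ Fin 2 → ℝ)
    (h : ∀ r : ℝ, 0 < r → MvPolynomial.eval (act r p) F = 0) :
    MvPolynomial.eval p ((thetaH F).coeff j) = 0 := by
  have h1 : (thetaH F).map (MvPolynomial.eval p) = 0 := by
    apply Polynomial.eq_zero_of_infinite_isRoot
    apply (Set.Ioi_infinite (0 : ℝ)).mono
    intro r hr
    rw [Set.mem_ofPred_eq, Polynomial.IsRoot, thetaH_eval]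
    exact h r hr
  rw [← Polynomial.coeff_map, h1, Polynomial.coeff_zero]

theorem exists_coeff_ne (F : MvPolynomial (ι ⊕ Fin 2) ℝ) (hF : F ≠ 0) :
    ∃ j, (thetaH F).coeff j ≠ 0 := by
  by_contra hne
  push Not at hne
  have h1 : thetaH F = 0 := by
    ext1 j
    rw [hne j, Polynomial.coeff_zero]
  apply hF
  apply MvPolynomial.funext
  intro p
  have := thetaH_eval F p 1
  rw [act_one, h1, Polynomial.map_zero, Polynomial.eval_zero] at this
  rw [← this, map_zero]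

theorem exists_ne_of_open [Finite ι] (G : MvPolynomial (ι ⊕ Fin 2) ℝ) (hG : G ≠ 0)
    (U : Set (ι ⊕ Fin 2 → ℝ)) (hU : IsOpen U) (hne : U.Nonempty) :
    ∃ p ∈ U, MvPolynomial.eval p G ≠ 0 := by
  obtain ⟨x, hx⟩ := hne
  have : Fintype ι := Fintype.ofFinite ι
  obtain ⟨δ, hδ, hb⟩ := Metric.isOpen_iff.mp hU x hx
  by_contra hcon
  push Not at hcon
  apply hG
  apply MvPolynomial.funext_set (fun i => Set.Ioo (x i - δ) (x i + δ))
    (fun i => Set.Ioo_infinite (by linarith))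
  intro y hy
  rw [map_zero]
  apply hcon
  apply hb
  rw [Metric.mem_ball, dist_pi_lt_iff hδ]
  intro i
  have h2 := hy i (Set.mem_univ i)
  rw [Real.dist_eq, abs_lt]
  constructor <;> linarith [h2.1, h2.2]

end Alg

section Cut

variable {ι : Type*} [Fintype ι]

theorem volLe_smul (K : Set (EuclideanSpace ℝ ι)) (ξ : EuclideanSpace ℝ ι) (t r : ℝ)
    (hr : 0 < r) : volLe K (r • ξ) (r * t) = volLe K ξ t := by
  rw [volLe, volLe]
  congr 3
  ext x
  rw [Set.mem_ofPred_eq, Set.mem_ofPred_eq, inner_smul_right, mul_le_mul_iff_right₀ hr]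

theorem volGe_eq (K : Set (EuclideanSpace ℝ ι)) (ξ : EuclideanSpace ℝ ι) (t : ℝ) :
    volGe K ξ t = volLe K (-ξ) (-t) := by
  rw [volLe, volGe]
  congr 3
  ext x
  rw [Set.mem_ofPred_eq, Set.mem_ofPred_eq, inner_neg_right, neg_le_neg_iff]

omit [Fintype ι] in
theorem act_point (r : ℝ) (ξ : EuclideanSpace ℝ ι) (t w : ℝ) :
    act r (Sum.elim (fun i => ξ i) ![t, w])
      = Sum.elim (fun i => (r • ξ) i) ![r * t, w] := by
  ext i
  rcases i with i | i
  · simp [act, wt]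
  · fin_cases i <;> simp [act, wt]

/-- The reduction to a relation for `V^+` only. -/
theorem of_relation (K : Set (EuclideanSpace ℝ ι)) (F : MvPolynomial (ι ⊕ Fin 2) ℝ)
    (hF : F ≠ 0)
    (h : ∀ (ξ : EuclideanSpace ℝ ι) (t : ℝ), ξ ≠ 0 → val F ξ t (volLe K ξ t) = 0)
    (hK : IsCompact K) (hK2 : (interior K).Nonempty) : AlgebraicallyIntegrable K := by
  refine ⟨hK, hK2, ?_⟩
  obtain ⟨j, hj⟩ := exists_coeff_ne F hF
  set G := (thetaH F).coeff j with hG
  have hom : ∀ (r : ℝ) (ξ : EuclideanSpace ℝ ι) (t w : ℝ),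
      val G (r • ξ) (r * t) w = r ^ j * val G ξ t w := by
    intro r ξ t w
    rw [val, val, ← act_point, hG, coeff_hom]
  have hle : ∀ (ξ : EuclideanSpace ℝ ι) (t : ℝ), ξ ≠ 0 → val G ξ t (volLe K ξ t) = 0 := by
    intro ξ t hξ
    rw [val, hG]
    apply coeff_zero_of
    intro r hr
    rw [act_point]
    have h1 := h (r • ξ) (r * t) (smul_ne_zero hr.ne' hξ)
    rwa [volLe_smul K ξ t r hr, val] at h1
  refine ⟨G, hj, ?_, ?_⟩
  · intro ξ t hξ
    refine ⟨hle ξ t hξ, ?_⟩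
    have h1 := hle (-ξ) (-t) (neg_ne_zero.mpr hξ)
    rw [← volGe_eq] at h1
    have h2 := hom (-1) ξ t (volGe K ξ t)
    rw [neg_one_smul, neg_one_mul, h1] at h2
    rcases mul_eq_zero.mp h2.symm with h3 | h3
    · exact absurd h3 (pow_ne_zero _ (by norm_num))
    · exact h3
  · rw [dense_iff_inter_open]
    intro U hU hne
    obtain ⟨⟨ξ₀, t₀⟩, hx⟩ := hne
    have hn0 : (ξ₀ : EuclideanSpace ℝ ι) ≠ 0 := by
      intro h0
      have := mem_sphere_zero_iff_norm.mp ξ₀.2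
      rw [h0, norm_zero] at this
      exact zero_ne_one this
    set x : (ι ⊕ Fin 2 → ℝ) → EuclideanSpace ℝ ι := fun p => WithLp.toLp 2 (fun i => p (Sum.inl i))
      with hxd
    have hxc : Continuous x := by
      apply (PiLp.continuous_toLp 2 _).comp
      exact continuous_pi fun i => continuous_apply _
    have hO : IsOpen {p | x p ≠ 0} := isOpen_ne.preimage hxc
    have hxpos : ∀ p : {p | x p ≠ 0}, ‖x p.1‖ ≠ 0 := fun p => norm_ne_zero_iff.mpr p.2
    let N : {p | x p ≠ 0} → sphere (0 : EuclideanSpace ℝ ι) 1 × ℝ := fun p =>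
      (⟨‖x p.1‖⁻¹ • x p.1, by
        rw [mem_sphere_zero_iff_norm, norm_smul, norm_inv, norm_norm,
          inv_mul_cancel₀ (hxpos p)]⟩, ‖x p.1‖⁻¹ * p.1 (Sum.inr 0))
    have hinv : Continuous fun p : {p | x p ≠ 0} => ‖x p.1‖⁻¹ :=
      ((hxc.comp continuous_subtype_val).norm).inv₀ hxpos
    have hN : Continuous N := by
      apply Continuous.prodMk
      · apply Continuous.subtype_mk
        exact hinv.smul (hxc.comp continuous_subtype_val)
      · exact hinv.mul ((continuous_apply (Sum.inr 0)).comp continuous_subtype_val)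
    have hopen : IsOpen (Subtype.val '' (N ⁻¹' U)) :=
      hO.isOpenMap_subtype_val _ (hU.preimage hN)
    have hne' : (Subtype.val '' (N ⁻¹' U)).Nonempty := by
      have hxs : x (Sum.elim (fun i => (ξ₀ : EuclideanSpace ℝ ι) i) ![t₀, 0])
          = (ξ₀ : EuclideanSpace ℝ ι) := by
        ext i
        rfl
      have hnorm : ‖(ξ₀ : EuclideanSpace ℝ ι)‖ = 1 := mem_sphere_zero_iff_norm.mp ξ₀.2
      refine ⟨_, ⟨Sum.elim (fun i => (ξ₀ : EuclideanSpace ℝ ι) i) ![t₀, 0], ?_⟩, ?_, rfl⟩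
      · rw [Set.mem_ofPred_eq, hxs]
        exact hn0
      · rw [Set.mem_preimage]
        have : N ⟨Sum.elim (fun i => (ξ₀ : EuclideanSpace ℝ ι) i) ![t₀, 0], by
            rw [Set.mem_ofPred_eq, hxs]; exact hn0⟩ = (ξ₀, t₀) := by
          apply Prod.ext
          · apply Subtype.ext
            change ‖x _‖⁻¹ • x _ = _
            rw [hxs, hnorm, inv_one, one_smul]
          · change ‖x _‖⁻¹ * t₀ = _
            rw [hxs, hnorm, inv_one, one_mul]
        rw [this]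
        exact hx
    obtain ⟨p, ⟨q, hq, rfl⟩, hp⟩ := exists_ne_of_open G hj _ hopen hne'
    refine ⟨N q, hq, q.1 (Sum.inr 1), ?_⟩
    have h1 : q.1 = Sum.elim (fun i => (x q.1) i) ![q.1 (Sum.inr 0), q.1 (Sum.inr 1)] := by
      ext i
      rcases i with i | i
      · rfl
      · fin_cases i <;> rfl
    have h2 := hom ‖x q.1‖⁻¹ (x q.1) (q.1 (Sum.inr 0)) (q.1 (Sum.inr 1))
    change val G (‖x q.1‖⁻¹ • x q.1) (‖x q.1‖⁻¹ * q.1 (Sum.inr 0)) _ ≠ 0
    rw [h2]
    apply mul_ne_zero (pow_ne_zero _ (inv_ne_zero (hxpos q)))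
    rw [val, ← h1]
    exact hp

end Cut

section Tube

/-- The unit sphere of `ℝ^k`, as a subset of `ℝ^{k+m}`. -/
def core (k m : ℕ) : Set (EuclideanSpace ℝ (Fin k ⊕ Fin m)) :=
  {z | ∑ i, z (Sum.inl i) ^ 2 = 1 ∧ ∀ j, z (Sum.inr j) = 0}

variable {k m : ℕ}

/-- The polynomial relation for `V^+` of the tube. -/
theorem tube_relation (hk : Odd k) (hm : Even m) {ε : ℝ} (h0 : 0 < ε) (h1 : ε < 1) :
    ∃ F : MvPolynomial ((Fin k ⊕ Fin m) ⊕ Fin 2) ℝ, F ≠ 0 ∧
      ∀ (ξ : EuclideanSpace ℝ (Fin k ⊕ Fin m)) (t : ℝ), ξ ≠ 0 →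
        val F ξ t (volLe (tube k m ε) ξ t) = 0 := by
  obtain ⟨F, hF, h⟩ := Pool.Agent.Lib_helper77.TubeOwn.frozen k m hk hm ε h0 h1
  refine ⟨F, hF, fun ξ t hξ => ?_⟩
  have hne : ((fun i => ξ (Sum.inl i), fun j => ξ (Sum.inr j)) : (Fin k → ℝ) × (Fin m → ℝ)) ≠ 0 := by
    intro hz
    apply hξ
    ext i
    rcases i with i | j
    · exact congrFun (congrArg Prod.fst hz) i
    · exact congrFun (congrArg Prod.snd hz) j
  have h2 := h (fun i => ξ (Sum.inl i)) (fun j => ξ (Sum.inr j)) t hne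
  have hp : MeasurePreserving
      (fun z : EuclideanSpace ℝ (Fin k ⊕ Fin m) =>
        MeasurableEquiv.sumPiEquivProdPi (fun _ : Fin k ⊕ Fin m => ℝ) (WithLp.ofLp z))
      volume volume :=
    (volume_measurePreserving_sumPiEquivProdPi (fun _ : Fin k ⊕ Fin m => ℝ)).comp
      (PiLp.volume_preserving_ofLp (Fin k ⊕ Fin m))
  set A : Set ((Fin k → ℝ) × (Fin m → ℝ)) := {p |
    (Real.sqrt (∑ i, p.1 i ^ 2) - 1) ^ 2 + ∑ j, p.2 j ^ 2 ≤ ε ^ 2 ∧
      ∑ i, ξ (Sum.inl i) * p.1 i + ∑ j, ξ (Sum.inr j) * p.2 j ≤ t} with hA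
  have c1 : Continuous fun p : (Fin k → ℝ) × (Fin m → ℝ) =>
      (Real.sqrt (∑ i, p.1 i ^ 2) - 1) ^ 2 + ∑ j, p.2 j ^ 2 := by fun_prop
  have c2 : Continuous fun p : (Fin k → ℝ) × (Fin m → ℝ) =>
      ∑ i, ξ (Sum.inl i) * p.1 i + ∑ j, ξ (Sum.inr j) * p.2 j := by fun_prop
  have hAm : MeasurableSet A :=
    ((isClosed_le c1 continuous_const).inter (isClosed_le c2 continuous_const)).measurableSet
  have hpre := hp.measure_preimage hAm.nullMeasurableSet
  have hset : (fun z : EuclideanSpace ℝ (Fin k ⊕ Fin m) =>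
        MeasurableEquiv.sumPiEquivProdPi (fun _ : Fin k ⊕ Fin m => ℝ) (WithLp.ofLp z)) ⁻¹' A
      = tube k m ε ∩ {x | inner ℝ x ξ ≤ t} := by
    ext z
    rw [Set.mem_preimage, Set.mem_inter_iff, hA, Set.mem_ofPred_eq, Set.mem_ofPred_eq, tube,
      Set.mem_ofPred_eq, PiLp.inner_apply, Fintype.sum_sum_type]
    rfl
  rw [hset] at hpre
  have hval : volLe (tube k m ε) ξ t = (volume A).toReal := by
    rw [volLe, hpre]
  rw [hval]
  have he : (fun i => ξ i) = Sum.elim (fun i => ξ (Sum.inl i)) (fun j => ξ (Sum.inr j)) := by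
    ext i
    rcases i with i | i <;> rfl
  rw [val, he]
  exact h2

theorem normSq_eq (z : EuclideanSpace ℝ (Fin k ⊕ Fin m)) :
    ‖z‖ ^ 2 = ∑ i, z (Sum.inl i) ^ 2 + ∑ j, z (Sum.inr j) ^ 2 := by
  rw [EuclideanSpace.norm_sq_eq, Fintype.sum_sum_type]
  simp only [Real.norm_eq_abs, sq_abs]

theorem isClosed_tube (ε : ℝ) : IsClosed (tube k m ε) := by
  apply isClosed_le
  · fun_prop
  · fun_prop

theorem isCompact_tube {ε : ℝ} (h0 : 0 < ε) (h1 : ε < 1) : IsCompact (tube k m ε) := by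
  apply Metric.isCompact_of_isClosed_isBounded (isClosed_tube ε)
  apply (Metric.isBounded_closedBall (x := (0 : EuclideanSpace ℝ (Fin k ⊕ Fin m)))
    (r := 3)).subset
  intro z hz
  rw [mem_closedBall_zero_iff]
  rw [tube, Set.mem_ofPred_eq] at hz
  have hs : 0 ≤ ∑ i, z (Sum.inl i) ^ 2 := Finset.sum_nonneg fun i _ => sq_nonneg _
  have hs2 : 0 ≤ ∑ j, z (Sum.inr j) ^ 2 := Finset.sum_nonneg fun i _ => sq_nonneg _
  have hsq := Real.sq_sqrt hs
  have hr0 := Real.sqrt_nonneg (∑ i, z (Sum.inl i) ^ 2)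
  have hn := normSq_eq z
  set r := Real.sqrt (∑ i, z (Sum.inl i) ^ 2) with hr
  have hr2 : r ≤ 2 := by nlinarith
  have h9 : ‖z‖ ^ 2 ≤ 3 ^ 2 := by nlinarith
  exact (sq_le_sq₀ (norm_nonneg _) (by norm_num)).mp h9

theorem interior_tube (hk : Odd k) {ε : ℝ} (h0 : 0 < ε) :
    (interior (tube k m ε)).Nonempty := by
  have hopen : IsOpen {z : EuclideanSpace ℝ (Fin k ⊕ Fin m) |
      (Real.sqrt (∑ i, z (Sum.inl i) ^ 2) - 1) ^ 2 + ∑ j, z (Sum.inr j) ^ 2 < ε ^ 2} := by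
    apply isOpen_lt
    · fun_prop
    · fun_prop
  have hkpos : 0 < k := hk.pos
  refine ⟨EuclideanSpace.single (Sum.inl ⟨0, hkpos⟩) 1, interior_maximal (fun z hz => ?_) hopen ?_⟩
  · rw [Set.mem_ofPred_eq] at hz
    exact hz.le
  · rw [Set.mem_ofPred_eq]
    have e1 : ∑ i : Fin k, (EuclideanSpace.single (Sum.inl ⟨0, hkpos⟩) (1 : ℝ) :
        EuclideanSpace ℝ (Fin k ⊕ Fin m)) (Sum.inl i) ^ 2 = 1 := by
      rw [Finset.sum_eq_single ⟨0, hkpos⟩]
      · simp
      · intro b _ hb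
        simp [hb]
      · intro h
        exact absurd (Finset.mem_univ _) h
    have e2 : ∑ j : Fin m, (EuclideanSpace.single (Sum.inl ⟨0, hkpos⟩) (1 : ℝ) :
        EuclideanSpace ℝ (Fin k ⊕ Fin m)) (Sum.inr j) ^ 2 = 0 := by
      simp
    rw [e1, e2]
    simp only [Real.sqrt_one]
    nlinarith

/-- The tube is the closed `ε`-neighbourhood of the unit sphere of `ℝ^k`. -/
theorem tube_eq {ε : ℝ} (h0 : 0 < ε) (h1 : ε < 1) :
    tube k m ε = {z | ∃ s ∈ core k m, dist z s ≤ ε} := by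
  ext z
  rw [tube, Set.mem_ofPred_eq, Set.mem_ofPred_eq]
  have hs : 0 ≤ ∑ i, z (Sum.inl i) ^ 2 := Finset.sum_nonneg fun i _ => sq_nonneg _
  have hs2 : 0 ≤ ∑ j, z (Sum.inr j) ^ 2 := Finset.sum_nonneg fun i _ => sq_nonneg _
  have hsq := Real.sq_sqrt hs
  have hr0 := Real.sqrt_nonneg (∑ i, z (Sum.inl i) ^ 2)
  constructor
  · intro hz
    set r := Real.sqrt (∑ i, z (Sum.inl i) ^ 2) with hr
    have hrpos : 0 < r := by nlinarith
    let s : EuclideanSpace ℝ (Fin k ⊕ Fin m) :=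
      WithLp.toLp 2 (Sum.elim (fun i => z (Sum.inl i) / r) (fun _ => 0))
    have hsl : ∀ i, s (Sum.inl i) = z (Sum.inl i) / r := fun i => rfl
    have hsr : ∀ j, s (Sum.inr j) = 0 := fun j => rfl
    refine ⟨s, ⟨?_, hsr⟩, ?_⟩
    · simp only [hsl, div_pow]
      rw [← Finset.sum_div, ← hsq]
      exact div_self (by positivity)
    · rw [dist_eq_norm]
      apply (sq_le_sq₀ (norm_nonneg _) h0.le).mp
      rw [normSq_eq]
      have e1 : ∑ i, (z - s) (Sum.inl i) ^ 2 = (r - 1) ^ 2 := by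
        have : ∀ i, (z - s) (Sum.inl i) ^ 2 = z (Sum.inl i) ^ 2 * ((r - 1) / r) ^ 2 := by
          intro i
          change (z (Sum.inl i) - s (Sum.inl i)) ^ 2 = _
          rw [hsl]
          field_simp
        simp only [this]
        rw [← Finset.sum_mul, ← hsq]
        field_simp
      have e2 : ∑ j, (z - s) (Sum.inr j) ^ 2 = ∑ j, z (Sum.inr j) ^ 2 := by
        apply Finset.sum_congr rfl
        intro j _
        change (z (Sum.inr j) - s (Sum.inr j)) ^ 2 = _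
        rw [hsr, sub_zero]
      rw [e1, e2]
      exact hz
  · rintro ⟨s, ⟨hs1, hs3⟩, hd⟩
    rw [dist_eq_norm] at hd
    have h2 : ‖z - s‖ ^ 2 ≤ ε ^ 2 := (sq_le_sq₀ (norm_nonneg _) h0.le).mpr hd
    rw [normSq_eq] at h2
    have e2 : ∑ j, (z - s) (Sum.inr j) ^ 2 = ∑ j, z (Sum.inr j) ^ 2 := by
      apply Finset.sum_congr rfl
      intro j _
      change (z (Sum.inr j) - s (Sum.inr j)) ^ 2 = _
      rw [hs3, sub_zero]
    have e1 : ∑ i, (z - s) (Sum.inl i) ^ 2
        = ∑ i, z (Sum.inl i) ^ 2 - 2 * ∑ i, z (Sum.inl i) * s (Sum.inl i) + 1 := by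
      rw [← hs1, Finset.mul_sum, ← Finset.sum_sub_distrib, ← Finset.sum_add_distrib]
      apply Finset.sum_congr rfl
      intro i _
      change (z (Sum.inl i) - s (Sum.inl i)) ^ 2 = _
      ring
    have hcs : ∑ i, z (Sum.inl i) * s (Sum.inl i) ≤ Real.sqrt (∑ i, z (Sum.inl i) ^ 2) := by
      have h3 := Real.sum_mul_le_sqrt_mul_sqrt Finset.univ
        (fun i => z (Sum.inl i)) (fun i => s (Sum.inl i))
      rw [hs1, Real.sqrt_one, mul_one] at h3
      exact h3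
    set r := Real.sqrt (∑ i, z (Sum.inl i) ^ 2) with hr
    rw [e1, e2] at h2
    nlinarith

end Tube

theorem main (k m : ℕ) (hk : Odd k) (hm : Even m) (ε : ℝ) (h0 : 0 < ε) (h1 : ε < 1) :
    AlgebraicallyIntegrable (tube k m ε) := by
  obtain ⟨F, hF, h⟩ := tube_relation hk hm h0 h1
  exact of_relation _ F hF h (isCompact_tube h0 h1) (interior_tube hk h0)

end Pool.Agent.Lib_helper77.TubeProofs
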